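import Pool.Agent.Helper17.OD.GoalsCV

/-! Assembly of the covering theorem from the packets of `GoalsCV.lean`. -/

namespace Pool.Agent.Helper17.OD

open Set

theorem asm_cov (hMIN : G_MIN) (hVAL : G_VAL) (hHUL : G_HUL) (hHU2 : G_HU2) (hLOC : G_LOC)
    (hSYS : G_SYS) (hCL1 : G_CL1) (hCL2 : G_CL2) (hCL3 : G_CL3) (hTSY : G_TSY) (hWFR : G_WFR)
    (hLIM : G_LIM) (hLM0 : G_LM0) (hQHT : G_QHT) (hCLM : G_CLM) (hCFI : G_CFI) : G_COV := by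
  intro k w S S' hC c hc hcS
  by_contra hcn
  obtain ⟨τ, c, hM⟩ := hMIN k w S S' hC ⟨c, hc, hcS, hcn⟩
  clear hcn hcS hc
  obtain ⟨val, hV, hVS⟩ := hVAL k w τ S S' c hC hM
  obtain ⟨β, π, hH⟩ := hHUL k w τ S S' c val hC hM hV
  obtain ⟨hβk, ⟨e, he1, he2, he3⟩, hrs, hπ⟩ := hHU2 k w τ β S S' c val π hC hM hV hVS hH
  have hsur : ∀ x < β, ∃ a ∈ D (Iio w), e a = .ord x := by
    intro x hx
    obtain ⟨a, ha, hav⟩ := hH.tr1 (.ord x) (ord_mem.2 hx)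
    exact ⟨a, ha, he2 a ha x hx hav⟩
  obtain ⟨a, hak, p, hpa, hwa, hloc⟩ := hLOC k w β e hC.som.lim hH.wb hβk he1 hsur
  obtain ⟨I, p₀, d₀, hI⟩ := hSYS k w β hC.con hH.wb hβk hH.blim ⟨a, hak, p, hpa, hwa, hloc⟩
  obtain ⟨f, m, hcl⟩ := hCL1 k β I p₀ d₀ hI
  obtain ⟨hpr, hcomp⟩ := hCL2 k β I p₀ d₀ hI f m hcl
  have hgm := hCL3 k β I p₀ d₀ hC.con hI f m hcl hβk
  obtain ⟨hT, hTg, hTR⟩ := hTSY k w τ β S S' val π I p₀ d₀ f m hC.som hC.con hM.tk hH hπ hI hcl hgm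
    (fun M hM' M' hM'' h => (hpr M hM' M' hM'' h).2) hcomp
  have hwf := hWFR k w τ β S S' c val π I p₀ d₀ f m hC hM hV hVS hH hI hcl
    (fun M h1 M' h2 h3 t t' h => ((hpr M h1 M' h2 h3).1 t t').1 h |>.2.2) hT hTg hTR
  obtain ⟨g, l, hL⟩ := hLIM k S S' I _ hC.som hT hTR hwf
  obtain ⟨q, hql, hq⟩ := hQHT k I _ g l hT hL
  obtain ⟨M₀, hM₀⟩ := hI.ne
  have h7 := (hLM0 k I _ g l hT hL).2.2.2.2.2.2
  have hph : (mP ((m M₀).map π)).map (g M₀) ∈ D (Iio k) := by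
    obtain ⟨a', φ, u, d, p', hmt, -, -, -, hp'⟩ := hT.ms M₀ hM₀
    have h1 : mP ((m M₀).map π) = p' := by rw [hmt]; rfl
    have h2 : mA ((m M₀).map π) = a' := by rw [hmt]; rfl
    rw [h1]
    have hlt : ∀ t : T, t ∈ D (Iio a') → t.map (g M₀) ∈ D (Iio k) := by
      intro t
      induction t with
      | nat n => intro _; exact nat_mem _ _
      | ord x =>
        intro hx
        exact ord_mem.2 (lt_trans (hL.rng M₀ hM₀ x (by rw [h2]; exact ord_mem.1 hx)) hL.lk)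
      | pr s t hs ht =>
        intro hx
        exact pr_mem.2 ⟨hs (pr_mem.1 hx).1, ht (pr_mem.1 hx).2⟩
    exact hlt _ hp'
  have hclm := hCLM k w τ β val π I p₀ d₀ f m g l q _ hH hI hcl
    (fun M h1 M' h2 h3 => (hpr M h1 M' h2 h3).1) hT hL hq
    (fun M h => h7 M h M₀ hM₀)
  have hd₀ : d₀ < β := by
    obtain ⟨a', φ, u, d, -, -, -, h1, h2, -⟩ := hI.mice M₀ hM₀
    exact lt_of_le_of_lt h1 h2
  exact hCFI k w τ β S S' c val π d₀ l q _ hC hM hV hH ⟨e, he1, he2, he3⟩ hrs hd₀ hL.lk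
    (D_mono (Iio_subset_Iio hL.lk.le) hql) hph hclm

end Pool.Agent.Helper17.OD
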