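import Pool.Agent.Helper17.OD.GoalsWM

/-! Assembly of the fibre lemma from the packets of `GoalsWM.lean`. -/

namespace Pool.Agent.Helper17.OD

open Set

theorem asm_fib (hWSO : G_WSO) (hHRT : G_HRT) (hHR2 : G_HR2) (hFB1 : G_FB1) (hFB2 : G_FB2)
    : G_FIB := by
  intro W κ α w hz hκ hα hακ hwκ hOD
  have hsom := hWSO W κ hz hκ
  obtain ⟨P, hP, hX⟩ := hFB2 W κ α hz hκ hα hακ hOD
  obtain ⟨l₁, hl₁, hl₁'⟩ := hHRT W κ hz hκ P hP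
  obtain ⟨l, hl, hl'⟩ := hHR2 W κ hz hκ (max l₁ w) (max_lt hl₁ hwκ)
  refine ⟨l, hl, fun X hXS hXo hty => ?_⟩
  obtain ⟨U, hU, hUp, hUO, hUX, hXU, h, hh, hfun⟩ := hX X hXS hXo
  by_contra hno
  have hfib : ∀ x, ¬ TyGe {y | Tr.pr (.ord x) (.ord y) ∈ U} w := by
    intro x hx
    apply hno
    refine ⟨_, hUO x, ?_, ?_⟩
    · rintro t ⟨y, rfl, hy⟩
      exact hUX x y hy
    · obtain ⟨g, hg, hg'⟩ := hx
      exact ⟨g, hg, fun a ha => ⟨g a, rfl, hg' a ha⟩⟩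
  obtain ⟨G, hG, hG1, hG2, hG3⟩ := hFB1 κ (SW W κ) (SW W κ) (SOM.self (h := hsom)) U hU hUp l₁ hl₁ w hwκ
    (hl₁' h hh _ hfun) hfib
  refine hl' G hG {x | Tr.ord x ∈ X} ?_ hG2 ?_ hty
  · intro p hp
    obtain ⟨c, hc, x, y, hxy, rfl⟩ := hG1 p hp
    exact ⟨c, hc, y, hUX x y hxy, rfl⟩
  · intro y hy
    obtain ⟨x, hxy⟩ := hXU y hy
    exact hG3 x y hxy

end Pool.Agent.Helper17.OD
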