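import Pool.Agent.Helper17.OD.AsmZV
import Pool.Agent.Helper17.OD.AsmWM
import Pool.Agent.Helper17.OD.AsmCV

/-! Final assembly. Paper: `PAPER.md`, section 4. -/

namespace Pool.Agent.Helper17.OD

open Set

/-- A strictly increasing map into `Iio b` from `Iio w` gives `w ≤ b`. -/
theorem le_of_emb {w b : O} {h : O → O} (hh : StrictMonoOn h (Iio w)) (hb : ∀ x < w, h x < b) :
    w ≤ b := by
  by_contra hcon
  have hlt : b < w := lt_of_not_ge hcon
  have key : ∀ x : O, x < w → x ≤ h x := by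
    intro x
    induction x using WellFoundedLT.induction with
    | ind x ih =>
      intro hx
      by_contra hc
      have h1 : h x < x := lt_of_not_ge hc
      have h2 := ih (h x) h1 (h1.trans hx)
      have h3 := hh (h1.trans hx) hx h1
      exact absurd h3 (not_lt.2 h2)
  exact absurd (hb b hlt) (not_lt.2 (key b hlt))

theorem asm_final (hEXT : G_EXT) (hZV : G_ZV) (hWSO : G_WSO) (hFIB : G_FIB) (hCOV : G_COV)
    (hENU : G_ENU) (hENC : G_ENC) (hWRK : G_WRK) : Final := by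
  obtain ⟨w, κ, S, hS⟩ := hEXT
  obtain ⟨V, hVc, hTM, hVh, hVS, hVO⟩ := hZV w κ S hS
  have hκl : Order.IsSuccLimit κ := hS.som.lim
  refine ⟨V, Order.succ w, hVc, hTM, (hVh _).2 (hκl.succ_lt hS.wk), ?_⟩
  intro W hW hVW hWV hLev hODs hall
  have hz : ZM W := hW.zm
  obtain ⟨hinj, hrk, -, -, -, -⟩ := hENC
  have hWh : Ht W κ := fun a => ⟨fun h => (hVh a).1 (hWV _ h (ZFSet.isOrdinal_toZFSet a)),
    fun h => hVW ((hVh a).2 h)⟩
  have hsom := hWSO W κ hz hWh
  have hα : Order.IsSuccLimit (Order.succ w + Ordinal.omega0) :=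
    Ordinal.isSuccLimit_add _ Ordinal.isSuccLimit_omega0
  have hακ : Order.succ w + Ordinal.omega0 < κ :=
    (hWh _).1 ((hWRK W W hz inferInstance).2.2 _ ((hWh _).2 (hκl.succ_lt hS.wk)))
  obtain ⟨l, hl, hfib⟩ := hFIB W κ _ w hz hWh hα hακ hS.wk hall
  obtain ⟨X, hX, hXo, ⟨g, hg, hgX⟩, hthin⟩ := hS.v4 l hl
  have hXW : X ∈ SW W κ := by
    obtain ⟨hb, A, hA, hAX⟩ := (hVS X).1 hX
    exact ⟨hb, A, hVW hA, hAX⟩
  obtain ⟨Y, hY, hYX, g', hg', hgY⟩ := hfib X hXW hXo ⟨g, hg, hgX⟩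
  have hcov : CovH κ w (SW W κ) (OW W κ) :=
    { som := hsom
      con := hS.con
      omw := hS.omw
      wlim := hS.wlim
      wk := hS.wk
      h1 := by
        rintro A ⟨hb, A', hA', hAE⟩ hAw
        have h1 : ∀ y ∈ A', y.rank < Order.succ w := by
          intro y hy
          obtain ⟨t, ht, rfl⟩ := (hAE y).1 hy
          exact (hrk w hS.wlim t (hAw ht)).trans (Order.lt_succ w)
        have h2 := hVO A' (hODs A' h1 hA')
        convert h2 using 1
        ext t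
        constructor
        · intro ht
          exact ⟨hAw ht, (hAE _).2 ⟨t, ht, rfl⟩⟩
        · rintro ⟨-, ht⟩
          obtain ⟨t', ht', he⟩ := (hAE _).1 ht
          rw [hinj _ _ he]
          exact ht'
      h2 := by
        rintro a ha ⟨hb, A, hA, hAE⟩
        have h1 : A ∈ Lev W (Order.succ w) := by
          refine ⟨hA, Order.lt_succ_iff.2 ?_⟩
          rw [ZFSet.rank_le_iff]
          intro y hy
          obtain ⟨t, ⟨n, rfl⟩, rfl⟩ := (hAE y).1 hy
          exact hrk w hS.wlim _ (pr_mem.2 ⟨nat_mem _ _, ha n⟩)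
        rw [hLev] at h1
        exact hS.v2 a (fun n => D_mono (Iio_subset_Iio hS.wk.le) (ha n))
          ((hVS _).2 ⟨hb, A, h1.1, hAE⟩)
      h3 := hS.h3 }
  have hYo : ∀ t ∈ Y, t.IsOrd := fun t ht => hXo t (hYX ht)
  obtain ⟨b, f, hbκ, hf, hfY, hgf⟩ := hENU κ (SW W κ) (OW W κ) hsom Y hY hYo
  -- `w ≤ b`
  have hwb : w ≤ b := by
    have h1 : ∀ x < w, ∃ a < b, g' x = f a := by
      intro x hx
      obtain ⟨a, ha, hab⟩ := (hfY _).1 (hgY x hx)
      exact ⟨a, ha, by injection hab⟩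
    choose! h h2 h3 using h1
    refine le_of_emb (h := h) ?_ h2
    intro x hx y hy hxy
    by_contra hc
    rcases eq_or_lt_of_le (not_lt.1 hc) with h4 | h4
    · have h5 := hg' hx hy hxy
      rw [h3 x hx, h3 y hy, h4] at h5
      exact lt_irrefl _ h5
    · have h5 := hg' hx hy hxy
      rw [h3 x hx, h3 y hy] at h5
      exact absurd (hf (h2 y hy) (h2 x hx) h4) (not_lt.2 h5.le)
  let c : T → T := fun t => match t with
    | .ord a => .ord (f a)
    | _ => .ord 0
  have hκ0 : (0 : O) < κ := lt_of_le_of_lt zero_le hS.wk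
  have hfκ : ∀ a < b, f a < κ := by
    intro a ha
    obtain ⟨d, hd, hYd⟩ := hsom.bdd Y (hsom.sub hY)
    exact (ord_mem.1 (hYd ((hfY _).2 ⟨a, ha, rfl⟩))).trans hd
  have hcfn : OrdFn w κ c := by
    intro a ha
    cases a with
    | nat n => exact ⟨trivial, ord_mem.2 hκ0⟩
    | ord x => exact ⟨trivial, ord_mem.2 (hfκ x (lt_of_lt_of_le (ord_mem.1 ha) hwb))⟩
    | pr s t => exact ⟨trivial, ord_mem.2 hκ0⟩
  have hDw : ∀ (S₁ S₂ : Set (Set T)), SOM κ S₁ S₂ → D (Iio w) ∈ S₂ := by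
    intro S₁ S₂ h
    have := SOM.sep (k := κ) (S := S₁) (S' := S₂) (P := fun _ => True) SD.const hS.wk
    convert this using 1
    ext x
    simp
  set Gf : Set T := {p : T | ∃ a < b, p = .pr (.ord a) (.ord (f a))} with hGf
  have hgrS : gr (D (Iio w)) c ∈ OW W κ := by
    obtain ⟨d, hd, hGd⟩ := hsom.bdd Gf (hsom.sub hgf)
    have hDO := hDw _ _ hsom
    have h1 : SD κ (SW W κ) (OW W κ) (fun e _ => e = .pr e.fst e.snd ∧ e.fst ∈ D (Iio w) ∧
        ((e.fst.IsOrd ∧ e ∈ Gf) ∨ (¬ e.fst.IsOrd ∧ e.snd = .ord 0))) := by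
      apply_rules (maxDepth := 500) [SD.isOrd, SD.mem, SD.eq, SD.not, SD.and, SD.or, ST.id, ST.fst,
        ST.snd, ST.pr, ST.ordc, SV.par]
    have h2 := SOM.sep h1 (max_lt hd (max_lt hS.wk
      (hκl.succ_lt hκ0 : Order.succ (0 : O) < κ)) : max d (max w (Order.succ 0)) < κ)
    convert h2 using 1
    ext p
    constructor
    · rintro ⟨x, hx, rfl⟩
      have hxw : x ∈ D (Iio (max d (max w (Order.succ 0)))) :=
        D_mono (Iio_subset_Iio ((le_max_left _ _).trans (le_max_right _ _))) hx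
      have h0 : (Tr.ord 0 : T) ∈ D (Iio (max d (max w (Order.succ 0)))) :=
        ord_mem.2 (lt_of_lt_of_le (Order.lt_succ (0 : O))
          ((le_max_right w _).trans (le_max_right d _)))
      cases x with
      | nat n => exact ⟨pr_mem.2 ⟨hxw, h0⟩, rfl, hx, Or.inr ⟨fun h => h, rfl⟩⟩
      | ord a =>
        have hab : a < b := lt_of_lt_of_le (ord_mem.1 hx) hwb
        have hm : Tr.pr (Tr.ord a) (Tr.ord (f a)) ∈ Gf := ⟨a, hab, rfl⟩
        exact ⟨D_mono (Iio_subset_Iio (le_max_left _ _)) (hGd hm), rfl, hx,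
          Or.inl ⟨trivial, hm⟩⟩
      | pr s t => exact ⟨pr_mem.2 ⟨hxw, h0⟩, rfl, hx, Or.inr ⟨fun h => h, rfl⟩⟩
    · rintro ⟨-, hp, hpw, hor⟩
      refine ⟨p.fst, hpw, ?_⟩
      rcases hor with ⟨ho, a, hab, hpa⟩ | ⟨hno, h0⟩
      · rw [hpa]
        rfl
      · have : c p.fst = .ord 0 := by
          revert hno
          cases p.fst with
          | nat n => intro _; rfl
          | ord a => intro h; exact absurd trivial h
          | pr s t => intro _; rfl
        rw [this, ← h0]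
        exact hp
  have hcon := hCOV κ w (SW W κ) (OW W κ) hcov c hcfn hgrS
  apply hthin
  refine ⟨f, hf.mono (Iio_subset_Iio hwb), ?_, fun x hx => hYX ((hfY _).2
    ⟨x, lt_of_lt_of_le hx hwb, rfl⟩)⟩
  have hC := hS.con
  obtain ⟨d, hd, hgd⟩ := hC.bdd _ hcon
  have h1 : SD κ (Con κ) (Con κ) (fun e _ => e.fst.IsOrd ∧ e ∈ gr (D (Iio w)) c) := by
    apply_rules (maxDepth := 500) [SD.isOrd, SD.mem, SD.and, ST.id, ST.fst, SV.par]
  have h2 := SOM.sep h1 hd
  convert h2 using 1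
  ext p
  constructor
  · rintro ⟨x, hx, rfl⟩
    have hm : Tr.pr (Tr.ord x) (Tr.ord (f x)) ∈ gr (D (Iio w)) c := ⟨.ord x, ord_mem.2 hx, rfl⟩
    exact ⟨hgd hm, trivial, hm⟩
  · rintro ⟨-, ho, x, hx, rfl⟩
    revert ho hx
    cases x with
    | nat n => intro _ h; exact absurd h (fun h => h)
    | ord a => intro hx _; exact ⟨a, ord_mem.1 hx, rfl⟩
    | pr s t => intro _ h; exact absurd h (fun h => h)

end Pool.Agent.Helper17.OD
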