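import Pool.Agent.Helper17.OD.GoalsGE

/-! Assembly of the extension from the packets of `GoalsGE.lean`. -/

namespace Pool.Agent.Helper17.OD

open Set

theorem eip_all (hEIH : G_EIH) (F : FD) (p' q' : T) (hp : p' ∈ F.P F.κ) (hq : q' ∈ F.P F.κ)
    (h : ∀ i < F.κ, ln p' i = ln q' i) : ∀ j ≤ F.κ, EiP F p' q' j ∧ EiP F q' p' j := by
  intro j
  induction j using WellFoundedLT.induction with
  | ind j ih =>
    intro hj
    exact ⟨hEIH F p' hp q' hq h j hj (fun i hi => ih i hi (hi.le.trans hj)),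
      hEIH F q' hq p' hp (fun i hi => (h i hi).symm) j hj
        (fun i hi => (ih i hi (hi.le.trans hj)).symm)⟩

theorem asm_ext (hGND : G_GND) (hETA : G_ETA) (hEIH : G_EIH) (hKSM : G_KSM) (hGNE : G_GNE)
    (hNMB : G_NMB) (hSVC : G_SVC) (hSVB : G_SVB) (hSVP : G_SVP) (hSV2 : G_SV2) (hSV4 : G_SV4)
    (hSV3 : G_SV3) (hBLD : G_BLD) : G_EXT := by
  obtain ⟨w, κ, γ, hg⟩ := hGND
  obtain ⟨η, he⟩ := hETA w κ γ hg
  let F : FD := ⟨w, κ, γ, η, hg, he⟩
  obtain ⟨hk1, -, hk3, -⟩ := hKSM w κ γ hg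
  have hp : ∃ p, p ∈ F.P F.κ := by
    obtain ⟨p, hp, -⟩ := hBLD F F.κ le_rfl (fun _ => 0) (fun _ _ => ∅) (by
      have h0 : ({z : T | ∃ i < F.κ, i < F.κ ∧ ∃ x < (0 : O),
          z = .pr (.ord i) (.pr (.nat 0) (.ord x)) ∨
          ∃ s ∈ (∅ : Set T), z = .pr (.ord i) (.pr (.nat 1) (.pr (.ord x) s))}) = ∅ := by
        apply Set.eq_empty_of_forall_notMem
        rintro z ⟨i, _, _, x, hx, _⟩
        exact not_lt_zero hx
      rw [h0]
      exact hg.m1.emp) ⟨0, lt_of_le_of_lt zero_le hg.wk, fun _ _ _ => rfl⟩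
      (fun i _ hi => lt_of_le_of_lt zero_le (he.low i hi).1)
      (fun i _ _ x hx => absurd hx not_lt_zero)
      (fun i _ _ => by
        rintro ⟨f, r, -, -, -, h⟩
        have := (h 0 (lt_of_le_of_lt zero_le hg.omw)).1
        exact absurd this not_lt_zero)
    exact ⟨p, hp⟩
  obtain ⟨p, hp⟩ := hp
  obtain ⟨G, hG, -⟩ := hGNE F p hp
  obtain ⟨-, hn2, hn3, hn4⟩ := hNMB F G hG
  have hsom : SOM κ (SG F G) (SG F G) :=
    { lim := hg.klim
      omg := hg.omw.trans hg.wk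
      sub := subset_rfl
      emp := hn2 hk1.emp
      bdd := hn3
      compS := hSVC F G hG
      comp := hSVC F G hG
      coll := hSVB F G hG }
  exact ⟨w, κ, SG F G,
    { cnt := hn4
      som := hsom
      con := hk1
      sub := hn2
      omw := hg.omw
      wk := hg.wk
      wlim := hg.wlim
      pe := hSVP F G hG
      v2 := hSV2 F G hG
      v3 := hSV3 F (fun p' h1 q' h2 h3 => eip_all hEIH F p' q' h1 h2 h3) G hG
      v4 := hSV4 F G hG hsom
      h3 := hk3 }⟩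

end Pool.Agent.Helper17.OD
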