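import Pool.Agent.Helper17.OD.GoalsGM

/-! Assembly of the ground model from the packets of `GoalsGM.lean`. -/

namespace Pool.Agent.Helper17.OD

open Set
open Cardinal hiding univ

theorem mreg_of_rreg {M : Set (Set T)} {μ : O} (h : RReg μ) (hl : Order.IsSuccLimit μ) :
    MReg M μ := by
  intro d hd f hf _
  obtain ⟨b, hb, hb'⟩ := h d hd (fun x => lev (f x)) (fun x hx => by
    obtain ⟨h1, h2⟩ := hf x hx
    cases hfx : f x with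
    | nat n => simp [hfx, Tr.IsOrd] at h1
    | ord a => rw [hfx] at h2; exact ord_mem.1 h2
    | pr s t => simp [hfx, Tr.IsOrd] at h1)
  refine ⟨b, hb, fun x hx => ?_⟩
  obtain ⟨h1, h2⟩ := hf x hx
  have h3 := hb' x hx
  cases hfx : f x with
  | nat n => exact nat_mem _ _
  | ord a => rw [hfx] at h3; exact ord_mem.2 h3
  | pr s t => simp [hfx, Tr.IsOrd] at h1

theorem asm_gnd (hCAD : G_CAD) (hSMT : G_SMT) (hCDK : G_CDK) (hRCD : G_RCD) (hELM : G_ELM)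
    (hEL1 : G_EL1) (hEL2 : G_EL2) (hEL3 : G_EL3) (hEL5 : G_EL5) (hEL6 : G_EL6) : G_GND := by
  obtain ⟨hr5, hr6, hkr, hku, h1r, h1u⟩ := hRCD
  have hθr : (Order.succ Cardinal.univ.{0, 1}).IsRegular := isRegular_succ hku.le
  have hθu : ℵ₀ < Order.succ Cardinal.univ.{0, 1} := hku.trans (Order.lt_succ _)
  have h1a : ℵ₀ < (ℵ₁ : Cardinal.{1}) := aleph0_lt_aleph_one
  obtain ⟨hθR, hθl, hθo⟩ := hCAD _ hθr hθu
  obtain ⟨hkR, hkl, hko⟩ := hCAD _ hkr hku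
  obtain ⟨hwR, hwl, hwo⟩ := hCAD _ h1r h1a
  have hwk : (ℵ₁ : Cardinal.{1}).ord < (Cardinal.univ.{0, 1}).ord := ord_lt_ord.2 h1u
  have hkθ : (Cardinal.univ.{0, 1}).ord < (Order.succ Cardinal.univ.{0, 1}).ord := ord_lt_ord.2 (Order.lt_succ _)
  obtain ⟨w, κ, γ, f, hE, hcnt⟩ := hELM _ _ _ (hwk.trans hkθ) hkθ
  obtain ⟨hγ, how, hwκ, hκγ, hlw, hlκ⟩ := hEL1 _ _ _ _ _ _ _ hE (hSMT _ hθR hθl hθo) hwo hwk hwl hkl
  have hm : ∀ t ∈ D (Iio γ), dec t ∈ Con γ := fun t ht => ⟨t, ht, rfl⟩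
  have h2 : ∀ μ, μ = w ∨ μ = κ → ∀ X ∈ Con γ, ∀ d < μ, X ⊆ D (Iio d) →
      ∃ c ∈ D (Iio μ), X = dec c := by
    rintro μ hμ X ⟨t, ht, rfl⟩ d hd hX
    rcases hμ with rfl | rfl
    · exact hEL2 _ _ _ _ _ _ _ hE hθl hγ.lim _ hE.hw.1 (by
        rw [hE.hw.2]
        intro d hd t _ hX
        exact hCDK _ h1r h1a d hd t hX) d hd t ht hX
    · exact hEL2 _ _ _ _ _ _ _ hE hθl hγ.lim _ hE.hk.1 (by
        rw [hE.hk.2]
        intro d hd t _ hX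
        exact hCDK _ hkr hku d hd t hX) d hd t ht hX
  refine ⟨w, κ, γ, hcnt, how, hwκ, hκγ, hlw, hlκ, hγ, h2 κ (Or.inr rfl), h2 w (Or.inl rfl), ?_, ?_,
    ?_, ?_⟩
  · rw [hEL3 _ _ _ _ _ _ _ hE hθl hγ.lim w hE.hw.1, hE.hw.2]
    exact mreg_of_rreg hwR hwl
  · rw [hEL3 _ _ _ _ _ _ _ hE hθl hγ.lim κ hE.hk.1, hE.hk.2]
    exact mreg_of_rreg hkR hkl
  · intro d hd
    obtain ⟨b, hb, h⟩ := hEL5 _ _ _ _ _ _ _ hE hθl hγ.lim (by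
      intro d hd
      obtain ⟨b, hb, h⟩ := hr5 d hd
      exact ⟨b, hb, fun t _ => h t⟩) d hd
    refine ⟨b, hb, ?_⟩
    rintro X ⟨t, ht, rfl⟩ hX
    exact h t ht hX
  · intro d hd
    exact hEL6 _ _ _ _ _ _ _ hE hθl hγ.lim (by
      intro d hd
      obtain ⟨η, h1, h2, h3, h4⟩ := hr6 d hd
      exact ⟨η, h1, h2, h3, mreg_of_rreg h4 h3⟩) d hd

end Pool.Agent.Helper17.OD
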