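import Pool.Agent.Helper17.OD.GoalsZV

/-! Assembly of the model `V` from the packets of `GoalsZV.lean`. -/

namespace Pool.Agent.Helper17.OD

open Set

theorem asm_zv (hVTR : G_VTR) (hVZF : G_VZF) (hVSS : G_VSS) (hDFS : G_DFS) (hVOD : G_VOD) :
    G_ZV := by
  intro w κ S h
  have hsom := h.som
  obtain ⟨h1, h2, h3⟩ := hVTR κ S hsom
  refine ⟨Vof S, h2 h.cnt, hVZF κ S hsom h.pe, h3, hVSS κ S hsom, fun A hA => ?_⟩
  obtain ⟨φ, e, d, he, hd, hX⟩ := hVOD κ S (DfS κ S) (hDFS κ S hsom) A hA w h.wk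
  have h4 := h.v3 φ e he
  have := h.con
  have h5 := SOM.sep (k := κ) (S := Con κ) (S' := Con κ)
    (P := fun x => x ∈ {x | x ∈ D (Iio w) ∧ Sat κ S φ (.pr x e) (fun _ => ∅)})
    (SD.mem ST.id (SV.par h4)) hd
  rw [hX]
  convert h5 using 1
  ext x
  constructor
  · intro hx
    have hx' : x ∈ {t | t ∈ D (Iio w) ∧ enc t ∈ A} := by rw [hX]; exact hx
    exact ⟨hx.1, hx'.1, hx.2⟩
  · rintro ⟨hx1, -, hx2⟩
    exact ⟨hx1, hx2⟩

end Pool.Agent.Helper17.OD
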