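import Pool.Agent.Helper17.OD.Truth

/-!
# Second order structures over trees and the calculus of definable predicates

Paper: `PAPER.md`, section 2.

* `SF`, `Sat k S`: second order formulas and satisfaction.
* `SOM k S S'`: second order structures (`S'` are the definable sets, closed under comprehension).
* `SD k S S' P`: `P e σ` is definable with a tree parameter in `D (Iio k)` and set parameters in `S'`.
* goals `SD k S S' (fun e σ => ...)` are proved by `apply_rules [SD.exT, SD.allT, ...]`: see the tests at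
  the end of the file (copy the list, and add your own rules to it; hypotheses are used automatically). No
  tactic, macro or syntax declarations of our own are allowed by the rules of the grader, and no straight
  double quotes.
-/

namespace Pool.Agent.Helper17.OD

open Set

/-- Second order formulas. Terms are codes, evaluated by `tval` at the environment tree; set
variables are de Bruijn indices. -/
inductive SF : Type
  | eq (s t : Code)
  | llt (s t : Code)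
  | isOrd (s : Code)
  | mem (s : Code) (i : ℕ)
  | nand (φ ψ : SF)
  | exT (φ : SF)
  | exS (φ : SF)

/-- Push a set. -/
def scons (X : Set T) (σ : ℕ → Set T) : ℕ → Set T
  | 0 => X
  | n + 1 => σ n

/-- Satisfaction: tree quantifiers range over `D (Iio k)`, set quantifiers over `S`. -/
def Sat (k : O) (S : Set (Set T)) : SF → T → (ℕ → Set T) → Prop
  | .eq s t, e, _ => tval s e = tval t e
  | .llt s t, e, _ => (tval s e).llt (tval t e)
  | .isOrd s, e, _ => (tval s e).IsOrd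
  | .mem s i, e, σ => tval s e ∈ σ i
  | .nand φ ψ, e, σ => ¬ (Sat k S φ e σ ∧ Sat k S ψ e σ)
  | .exT φ, e, σ => ∃ x ∈ D (Iio k), Sat k S φ (.pr x e) σ
  | .exS φ, e, σ => ∃ X ∈ S, Sat k S φ e (scons X σ)

/-- Second order structures. -/
class SOM (k : O) (S S' : Set (Set T)) : Prop where
  lim : Order.IsSuccLimit k
  omg : Ordinal.omega0 < k
  sub : S' ⊆ S
  emp : ∅ ∈ S'
  bdd : ∀ X ∈ S, ∃ d < k, X ⊆ D (Iio d)
  compS : ∀ (φ : SF), ∀ e ∈ D (Iio k), ∀ σ : ℕ → Set T, (∀ i, σ i ∈ S) → ∀ d < k,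
    {x | x ∈ D (Iio d) ∧ Sat k S φ (.pr x e) σ} ∈ S
  comp : ∀ (φ : SF), ∀ e ∈ D (Iio k), ∀ σ : ℕ → Set T, (∀ i, σ i ∈ S') → ∀ d < k,
    {x | x ∈ D (Iio d) ∧ Sat k S φ (.pr x e) σ} ∈ S'
  coll : ∀ (φ : SF), ∀ e ∈ D (Iio k), ∀ σ : ℕ → Set T, (∀ i, σ i ∈ S) → ∀ d < k,
    (∀ x ∈ D (Iio d), ∃ y ∈ D (Iio k), Sat k S φ (.pr y (.pr x e)) σ) →
    ∃ b < k, ∀ x ∈ D (Iio d), ∃ y ∈ D (Iio b), Sat k S φ (.pr y (.pr x e)) σ

/-! ### Terms -/

/-- Composition of terms. -/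
def ccomp : Code → Code → Code
  | .nat 0, t => t
  | .nat (n + 1), _ => .nat (n + 1)
  | .pr (.nat 0) s, t => .pr (.nat 0) (ccomp s t)
  | .pr (.nat 1) s, t => .pr (.nat 1) (ccomp s t)
  | .pr (.nat 2) (.pr s r), t => .pr (.nat 2) (.pr (ccomp s t) (ccomp r t))
  | _, _ => .nat 1

theorem tval_ccomp {L : Type*} (c t : Code) (e : Tr L) :
    tval (ccomp c t) e = tval c (tval t e) := by
  fun_induction ccomp c t <;> simp_all [tval]

theorem leaves_fst {L : Type*} (t : Tr L) : t.fst.leaves ⊆ t.leaves := by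
  cases t <;> simp [Tr.fst, Tr.leaves]

theorem leaves_snd {L : Type*} (t : Tr L) : t.snd.leaves ⊆ t.leaves := by
  cases t <;> simp [Tr.snd, Tr.leaves]

theorem leaves_tval {L : Type*} (c : Code) (e : Tr L) : (tval c e).leaves ⊆ e.leaves := by
  fun_induction tval c e with
  | case1 => exact subset_rfl
  | case2 => simp [Tr.leaves]
  | case3 t e ih => exact (leaves_fst _).trans ih
  | case4 t e ih => exact (leaves_snd _).trans ih
  | case5 s t e ih1 ih2 => simp [Tr.leaves, ih1, ih2]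
  | case6 => simp [Tr.leaves]

theorem tval_mem {c : Code} {e : T} {A : Set O} (he : e ∈ D A) : tval c e ∈ D A :=
  (leaves_tval c e).trans he

theorem pr_mem {s t : T} {A : Set O} : Tr.pr s t ∈ D A ↔ s ∈ D A ∧ t ∈ D A := by
  simp [D, Tr.leaves]

theorem fst_mem {t : T} {A : Set O} (h : t ∈ D A) : t.fst ∈ D A := (leaves_fst t).trans h
theorem snd_mem {t : T} {A : Set O} (h : t ∈ D A) : t.snd ∈ D A := (leaves_snd t).trans h
theorem nat_mem (n : ℕ) (A : Set O) : (Tr.nat n : T) ∈ D A := by simp [D, Tr.leaves]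
theorem ord_mem {a : O} {A : Set O} : (Tr.ord a : T) ∈ D A ↔ a ∈ A := by simp [D, Tr.leaves]
theorem D_mono {A B : Set O} (h : A ⊆ B) : D A ⊆ D B := fun _ ht => ht.trans h

/-! ### Substitution in formulas -/

/-- The term for the environment `pr x e`, when `t` is used on `e`. -/
def clift (t : Code) : Code :=
  .pr (.nat 2) (.pr (.pr (.nat 0) (.nat 0)) (ccomp t (.pr (.nat 1) (.nat 0))))

/-- Lift of a renaming. -/
def rlift (ρ : ℕ → ℕ) : ℕ → ℕ
  | 0 => 0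
  | n + 1 => ρ n + 1

/-- Substitution. -/
def SF.sub : SF → Code → (ℕ → ℕ) → SF
  | .eq s t, c, _ => .eq (ccomp s c) (ccomp t c)
  | .llt s t, c, _ => .llt (ccomp s c) (ccomp t c)
  | .isOrd s, c, _ => .isOrd (ccomp s c)
  | .mem s i, c, ρ => .mem (ccomp s c) (ρ i)
  | .nand φ ψ, c, ρ => .nand (φ.sub c ρ) (ψ.sub c ρ)
  | .exT φ, c, ρ => .exT (φ.sub (clift c) ρ)
  | .exS φ, c, ρ => .exS (φ.sub c (rlift ρ))

theorem tval_clift (c : Code) (x e : T) : tval (clift c) (.pr x e) = .pr x (tval c e) := by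
  simp [clift, tval, tval_ccomp, Tr.fst, Tr.snd]

theorem scons_rlift (X : Set T) (σ : ℕ → Set T) (ρ : ℕ → ℕ) :
    (fun i => scons X σ (rlift ρ i)) = scons X (fun i => σ (ρ i)) := by
  funext i
  cases i <;> rfl

theorem sat_sub (k : O) (S : Set (Set T)) (φ : SF) : ∀ (c : Code) (ρ : ℕ → ℕ) (e : T)
    (σ : ℕ → Set T), Sat k S (φ.sub c ρ) e σ ↔ Sat k S φ (tval c e) (fun i => σ (ρ i)) := by
  induction φ with
  | eq s t => intro c ρ e σ; simp [SF.sub, Sat, tval_ccomp]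
  | llt s t => intro c ρ e σ; simp [SF.sub, Sat, tval_ccomp]
  | isOrd s => intro c ρ e σ; simp [SF.sub, Sat, tval_ccomp]
  | mem s i => intro c ρ e σ; simp [SF.sub, Sat, tval_ccomp]
  | nand φ ψ h1 h2 => intro c ρ e σ; simp only [SF.sub, Sat, h1, h2]
  | exT φ h => intro c ρ e σ; simp only [SF.sub, Sat, h, tval_clift]
  | exS φ h => intro c ρ e σ; simp only [SF.sub, Sat, h, scons_rlift]

/-! ### Definable predicates -/

/-- Interleave. -/
def mix (σ τ : ℕ → Set T) (n : ℕ) : Set T := if n % 2 = 0 then σ (n / 2) else τ (n / 2)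

theorem mix_even (σ τ : ℕ → Set T) (n : ℕ) : mix σ τ (2 * n) = σ n := by simp [mix]
theorem mix_odd (σ τ : ℕ → Set T) (n : ℕ) : mix σ τ (2 * n + 1) = τ n := by
  have h1 : (2 * n + 1) % 2 = 1 := by omega
  have h2 : (2 * n + 1) / 2 = n := by omega
  simp [mix, h1, h2]

/-- `P e σ` is definable over `(k, S)` with a tree parameter and set parameters in `S'`. -/
def SD (k : O) (S S' : Set (Set T)) (P : T → (ℕ → Set T) → Prop) : Prop :=
  ∃ (φ : SF) (e₀ : T) (τ : ℕ → Set T), e₀ ∈ D (Iio k) ∧ (∀ i, τ i ∈ S') ∧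
    ∀ e ∈ D (Iio k), ∀ σ : ℕ → Set T, (∀ i, σ i ∈ S) →
      (Sat k S φ (.pr e e₀) (mix σ τ) ↔ P e σ)

/-- `t` is a term with tree parameters below `k`. -/
def ST (k : O) (t : T → T) : Prop :=
  ∃ (c : Code) (e₀ : T), e₀ ∈ D (Iio k) ∧ ∀ e, tval c (.pr e e₀) = t e

/-- `θ` is a set variable or a parameter in `S'`. -/
def SV (S' : Set (Set T)) (θ : (ℕ → Set T) → Set T) : Prop :=
  (∃ j, ∀ σ, θ σ = σ j) ∨ ∃ X ∈ S', ∀ σ, θ σ = X

variable {k : O} {S S' : Set (Set T)}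

theorem ST.mem {t : T → T} (h : ST k t) {e : T} (he : e ∈ D (Iio k)) : t e ∈ D (Iio k) := by
  obtain ⟨c, e₀, he₀, hc⟩ := h
  rw [← hc]
  exact tval_mem (pr_mem.2 ⟨he, he₀⟩)

theorem ST.id : ST k (fun e => e) :=
  ⟨.pr (.nat 0) (.nat 0), .nat 0, nat_mem _ _, fun _ => rfl⟩

theorem ST.nat (n : ℕ) : ST k (fun _ => .nat n) := ⟨.nat (n + 1), .nat 0, nat_mem _ _, fun _ => rfl⟩

theorem ST.const {t : T} (h : t ∈ D (Iio k)) : ST k (fun _ => t) :=
  ⟨.pr (.nat 1) (.nat 0), t, h, fun _ => rfl⟩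

theorem ST.fst {t : T → T} (h : ST k t) : ST k (fun e => (t e).fst) := by
  obtain ⟨c, e₀, he₀, hc⟩ := h
  exact ⟨.pr (.nat 0) c, e₀, he₀, fun e => by simp [tval, hc]⟩

theorem ST.snd {t : T → T} (h : ST k t) : ST k (fun e => (t e).snd) := by
  obtain ⟨c, e₀, he₀, hc⟩ := h
  exact ⟨.pr (.nat 1) c, e₀, he₀, fun e => by simp [tval, hc]⟩

/-- `pr e (pr e₀ e₁)` to `pr e e₀`. -/
def cl1 : Code := .pr (.nat 2) (.pr (.pr (.nat 0) (.nat 0)) (.pr (.nat 0) (.pr (.nat 1) (.nat 0))))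
/-- `pr e (pr e₀ e₁)` to `pr e e₁`. -/
def cl2 : Code := .pr (.nat 2) (.pr (.pr (.nat 0) (.nat 0)) (.pr (.nat 1) (.pr (.nat 1) (.nat 0))))

theorem tval_cl1 (e e₀ e₁ : T) : tval cl1 (.pr e (.pr e₀ e₁)) = .pr e e₀ := by
  simp [cl1, tval, Tr.fst, Tr.snd]
theorem tval_cl2 (e e₀ e₁ : T) : tval cl2 (.pr e (.pr e₀ e₁)) = .pr e e₁ := by
  simp [cl2, tval, Tr.fst, Tr.snd]

theorem ST.pr {s t : T → T} (hs : ST k s) (ht : ST k t) : ST k (fun e => .pr (s e) (t e)) := by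
  obtain ⟨c, e₀, he₀, hc⟩ := hs
  obtain ⟨d, e₁, he₁, hd⟩ := ht
  exact ⟨.pr (.nat 2) (.pr (ccomp c cl1) (ccomp d cl2)), .pr e₀ e₁, pr_mem.2 ⟨he₀, he₁⟩,
    fun e => by simp [tval, tval_ccomp, tval_cl1, tval_cl2, hc, hd]⟩

theorem ST.comp {s t : T → T} (hs : ST k s) (ht : ST k t) : ST k (fun e => s (t e)) := by
  obtain ⟨c, e₀, he₀, hc⟩ := hs
  obtain ⟨d, e₁, he₁, hd⟩ := ht
  refine ⟨ccomp c (.pr (.nat 2) (.pr (ccomp d cl2) (.pr (.nat 0) (.pr (.nat 1) (.nat 0))))),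
    .pr e₀ e₁, pr_mem.2 ⟨he₀, he₁⟩, fun e => ?_⟩
  simp [tval_ccomp, tval, tval_cl2, Tr.fst, Tr.snd, hd, hc]

theorem SV.var (j : ℕ) : SV S' (fun σ => σ j) := Or.inl ⟨j, fun _ => rfl⟩
theorem SV.par {X : Set T} (h : X ∈ S') : SV S' (fun _ => X) := Or.inr ⟨X, h, fun _ => rfl⟩

theorem SD.congr {P Q : T → (ℕ → Set T) → Prop} (hP : SD k S S' P)
    (h : ∀ e ∈ D (Iio k), ∀ σ : ℕ → Set T, (∀ i, σ i ∈ S) → (P e σ ↔ Q e σ)) : SD k S S' Q := by
  obtain ⟨φ, e₀, τ, h0, h1, h2⟩ := hP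
  exact ⟨φ, e₀, τ, h0, h1, fun e he σ hσ => (h2 e he σ hσ).trans (h e he σ hσ)⟩

/-- Renaming for the combination of parameters (left). -/
def rh1 (n : ℕ) : ℕ := if n % 2 = 0 then n else 2 * (2 * (n / 2)) + 1
/-- Renaming for the combination of parameters (right). -/
def rh2 (n : ℕ) : ℕ := if n % 2 = 0 then n else 2 * (2 * (n / 2) + 1) + 1

theorem mix_rh1 (σ τ τ' : ℕ → Set T) : (fun i => mix σ (mix τ τ') (rh1 i)) = mix σ τ := by
  funext n
  rcases Nat.even_or_odd' n with ⟨m, rfl | rfl⟩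
  · have : rh1 (2 * m) = 2 * m := by simp [rh1]
    rw [this, mix_even, mix_even]
  · have : rh1 (2 * m + 1) = 2 * (2 * m) + 1 := by
      have h1 : (2 * m + 1) % 2 = 1 := by omega
      have h2 : (2 * m + 1) / 2 = m := by omega
      simp [rh1, h1, h2]
    rw [this, mix_odd, mix_odd, mix_even]

theorem mix_rh2 (σ τ τ' : ℕ → Set T) : (fun i => mix σ (mix τ τ') (rh2 i)) = mix σ τ' := by
  funext n
  rcases Nat.even_or_odd' n with ⟨m, rfl | rfl⟩
  · have : rh2 (2 * m) = 2 * m := by simp [rh2]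
    rw [this, mix_even, mix_even]
  · have : rh2 (2 * m + 1) = 2 * (2 * m + 1) + 1 := by
      have h1 : (2 * m + 1) % 2 = 1 := by omega
      have h2 : (2 * m + 1) / 2 = m := by omega
      simp [rh2, h1, h2]
    rw [this, mix_odd, mix_odd, mix_odd]

theorem mix_forall {σ τ : ℕ → Set T} {A : Set (Set T)} (h1 : ∀ i, σ i ∈ A) (h2 : ∀ i, τ i ∈ A) :
    ∀ i, mix σ τ i ∈ A := by
  intro i
  unfold mix
  split_ifs
  · exact h1 _
  · exact h2 _

/-- Common parameters. -/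
theorem SD.comb {P Q : T → (ℕ → Set T) → Prop} (hP : SD k S S' P) (hQ : SD k S S' Q) :
    ∃ (φ ψ : SF) (e₀ : T) (τ : ℕ → Set T), e₀ ∈ D (Iio k) ∧ (∀ i, τ i ∈ S') ∧
    (∀ e ∈ D (Iio k), ∀ σ : ℕ → Set T, (∀ i, σ i ∈ S) →
      (Sat k S φ (.pr e e₀) (mix σ τ) ↔ P e σ)) ∧
    ∀ e ∈ D (Iio k), ∀ σ : ℕ → Set T, (∀ i, σ i ∈ S) →
      (Sat k S ψ (.pr e e₀) (mix σ τ) ↔ Q e σ) := by
  obtain ⟨φ, e₀, τ, h0, h1, h2⟩ := hP
  obtain ⟨ψ, e₁, τ', g0, g1, g2⟩ := hQ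
  refine ⟨φ.sub cl1 rh1, ψ.sub cl2 rh2, .pr e₀ e₁, mix τ τ', pr_mem.2 ⟨h0, g0⟩,
    mix_forall h1 g1, fun e he σ hσ => ?_, fun e he σ hσ => ?_⟩
  · rw [sat_sub, tval_cl1, mix_rh1]
    exact h2 e he σ hσ
  · rw [sat_sub, tval_cl2, mix_rh2]
    exact g2 e he σ hσ

theorem SD.nand {P Q : T → (ℕ → Set T) → Prop} (hP : SD k S S' P) (hQ : SD k S S' Q) :
    SD k S S' (fun e σ => ¬ (P e σ ∧ Q e σ)) := by
  obtain ⟨φ, ψ, e₀, τ, h0, h1, h2, h3⟩ := hP.comb hQ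
  exact ⟨.nand φ ψ, e₀, τ, h0, h1, fun e he σ hσ => by
    simp only [Sat, h2 e he σ hσ, h3 e he σ hσ]⟩

theorem SD.not {P : T → (ℕ → Set T) → Prop} (hP : SD k S S' P) :
    SD k S S' (fun e σ => ¬ P e σ) :=
  (hP.nand hP).congr fun _ _ _ _ => by rw [and_self]

theorem SD.and {P Q : T → (ℕ → Set T) → Prop} (hP : SD k S S' P) (hQ : SD k S S' Q) :
    SD k S S' (fun e σ => P e σ ∧ Q e σ) :=
  (hP.nand hQ).not.congr fun _ _ _ _ => not_not

theorem SD.or {P Q : T → (ℕ → Set T) → Prop} (hP : SD k S S' P) (hQ : SD k S S' Q) :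
    SD k S S' (fun e σ => P e σ ∨ Q e σ) :=
  (hP.not.nand hQ.not).congr fun _ _ _ _ => by tauto

theorem SD.imp {P Q : T → (ℕ → Set T) → Prop} (hP : SD k S S' P) (hQ : SD k S S' Q) :
    SD k S S' (fun e σ => P e σ → Q e σ) :=
  (hP.nand hQ.not).congr fun _ _ _ _ => by tauto

theorem SD.iff {P Q : T → (ℕ → Set T) → Prop} (hP : SD k S S' P) (hQ : SD k S S' Q) :
    SD k S S' (fun e σ => (P e σ ↔ Q e σ)) :=
  ((hP.imp hQ).and (hQ.imp hP)).congr fun _ _ _ _ => by tauto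

/-- `pr x (pr e e₀)` to `pr (pr x e) e₀`. -/
def cl3 : Code := .pr (.nat 2) (.pr
  (.pr (.nat 2) (.pr (.pr (.nat 0) (.nat 0)) (.pr (.nat 0) (.pr (.nat 1) (.nat 0)))))
  (.pr (.nat 1) (.pr (.nat 1) (.nat 0))))

theorem tval_cl3 (x e e₀ : T) : tval cl3 (.pr x (.pr e e₀)) = .pr (.pr x e) e₀ := by
  simp [cl3, tval, Tr.fst, Tr.snd]

theorem SD.exT {P : T → T → (ℕ → Set T) → Prop} (hP : SD k S S' (fun p σ => P p.snd p.fst σ)) :
    SD k S S' (fun e σ => ∃ x ∈ D (Iio k), P e x σ) := by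
  obtain ⟨φ, e₀, τ, h0, h1, h2⟩ := hP
  refine ⟨.exT (φ.sub cl3 fun i => i), e₀, τ, h0, h1, fun e he σ hσ => ?_⟩
  simp only [Sat, sat_sub, tval_cl3]
  exact exists_congr fun x => and_congr_right fun hx =>
    h2 (.pr x e) (pr_mem.2 ⟨hx, he⟩) σ hσ

theorem SD.allT {P : T → T → (ℕ → Set T) → Prop} (hP : SD k S S' (fun p σ => P p.snd p.fst σ)) :
    SD k S S' (fun e σ => ∀ x ∈ D (Iio k), P e x σ) := by
  have h1 : SD k S S' (fun e σ => ∃ x ∈ D (Iio k), ¬ P e x σ) :=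
    SD.exT (P := fun e x σ => ¬ P e x σ) hP.not
  exact h1.not.congr fun _ _ _ _ => by push Not; rfl

/-- Renaming for the set quantifier. -/
def rh3 (n : ℕ) : ℕ := if n = 0 then 0 else if n % 2 = 0 then n - 1 else n + 1

theorem scons_rh3 (X : Set T) (σ τ : ℕ → Set T) :
    (fun i => scons X (mix σ τ) (rh3 i)) = mix (scons X σ) τ := by
  funext n
  rcases Nat.even_or_odd' n with ⟨m, rfl | rfl⟩
  · rcases m with _ | m
    · rfl
    · have : rh3 (2 * (m + 1)) = 2 * m + 1 := by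
        have h1 : 2 * (m + 1) ≠ 0 := by omega
        have h2 : (2 * (m + 1)) % 2 = 0 := by omega
        simp only [rh3, h1, h2, if_true, if_false]
        omega
      rw [this, mix_even]
      change mix σ τ (2 * m) = σ m
      exact mix_even _ _ _
  · have : rh3 (2 * m + 1) = (2 * m + 1) + 1 := by
      have h2 : (2 * m + 1) % 2 = 1 := by omega
      simp [rh3, h2]
    rw [this, mix_odd]
    change mix σ τ (2 * m + 1) = τ m
    exact mix_odd _ _ _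

theorem SD.exS {P : T → Set T → (ℕ → Set T) → Prop}
    (hP : SD k S S' (fun e σ => P e (σ 0) (fun i => σ (i + 1)))) :
    SD k S S' (fun e σ => ∃ X ∈ S, P e X σ) := by
  obtain ⟨φ, e₀, τ, h0, h1, h2⟩ := hP
  refine ⟨.exS (φ.sub (.nat 0) rh3), e₀, τ, h0, h1, fun e he σ hσ => ?_⟩
  simp only [Sat, sat_sub, scons_rh3, tval]
  refine exists_congr fun X => and_congr_right fun hX => ?_
  exact h2 e he (scons X σ) (fun i => by cases i; exacts [hX, hσ _])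

theorem SD.allS {P : T → Set T → (ℕ → Set T) → Prop}
    (hP : SD k S S' (fun e σ => P e (σ 0) (fun i => σ (i + 1)))) :
    SD k S S' (fun e σ => ∀ X ∈ S, P e X σ) := by
  have h1 : SD k S S' (fun e σ => ∃ X ∈ S, ¬ P e X σ) :=
    SD.exS (P := fun e X σ => ¬ P e X σ) hP.not
  exact h1.not.congr fun _ _ _ _ => by push Not; rfl

/-- `pr e (pr e₀ e₁)` to `pr (c (pr e e₁)) e₀`. -/
theorem SD.sub {P : T → (ℕ → Set T) → Prop} {t : T → T} (hP : SD k S S' P) (ht : ST k t) :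
    SD k S S' (fun e σ => P (t e) σ) := by
  have htm : ∀ e ∈ D (Iio k), t e ∈ D (Iio k) := fun e he => ht.mem he
  obtain ⟨φ, e₀, τ, h0, h1, h2⟩ := hP
  obtain ⟨c, e₁, he₁, hc⟩ := ht
  refine ⟨φ.sub (.pr (.nat 2) (.pr (ccomp c cl2) (.pr (.nat 0) (.pr (.nat 1) (.nat 0)))))
    (fun i => i), .pr e₀ e₁, τ, pr_mem.2 ⟨h0, he₁⟩, h1, fun e he σ hσ => ?_⟩
  rw [sat_sub]
  have : tval (.pr (.nat 2) (.pr (ccomp c cl2) (.pr (.nat 0) (.pr (.nat 1) (.nat 0)))))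
      (Tr.pr e (.pr e₀ e₁)) = .pr (t e) e₀ := by
    simp [tval, tval_ccomp, tval_cl2, Tr.fst, Tr.snd, hc]
  rw [this]
  exact h2 (t e) (htm e he) σ hσ

theorem SV.mem {θ : (ℕ → Set T) → Set T} (h : SV S' θ) (hs : S' ⊆ S) {σ : ℕ → Set T}
    (hσ : ∀ i, σ i ∈ S) : θ σ ∈ S := by
  rcases h with ⟨j, hj⟩ | ⟨X, hX, h⟩
  · rw [hj]; exact hσ j
  · rw [h]; exact hs hX

theorem SD.eq [h : SOM k S S'] {s t : T → T} (hs : ST k s) (ht : ST k t) :
    SD k S S' (fun e _ => s e = t e) := by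
  obtain ⟨X, hX⟩ : S'.Nonempty := ⟨_, h.emp⟩
  obtain ⟨c, e₀, he₀, hc⟩ := hs.pr ht
  refine ⟨.eq (.pr (.nat 0) c) (.pr (.nat 1) c), e₀, fun _ => X, he₀, fun _ => hX,
    fun e he σ hσ => ?_⟩
  simp [Sat, tval, hc, Tr.fst, Tr.snd]

theorem SD.llt [h : SOM k S S'] {s t : T → T} (hs : ST k s) (ht : ST k t) :
    SD k S S' (fun e _ => (s e).llt (t e)) := by
  obtain ⟨X, hX⟩ : S'.Nonempty := ⟨_, h.emp⟩
  obtain ⟨c, e₀, he₀, hc⟩ := hs.pr ht
  refine ⟨.llt (.pr (.nat 0) c) (.pr (.nat 1) c), e₀, fun _ => X, he₀, fun _ => hX,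
    fun e he σ hσ => ?_⟩
  simp [Sat, tval, hc, Tr.fst, Tr.snd]

theorem SD.isOrd [h : SOM k S S'] {s : T → T} (hs : ST k s) :
    SD k S S' (fun e _ => (s e).IsOrd) := by
  obtain ⟨X, hX⟩ : S'.Nonempty := ⟨_, h.emp⟩
  obtain ⟨c, e₀, he₀, hc⟩ := hs
  refine ⟨.isOrd c, e₀, fun _ => X, he₀, fun _ => hX, fun e he σ hσ => ?_⟩
  simp [Sat, hc]

theorem SD.mem [h : SOM k S S'] {s : T → T} {θ : (ℕ → Set T) → Set T} (hs : ST k s)
    (hθ : SV S' θ) : SD k S S' (fun e σ => s e ∈ θ σ) := by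
  obtain ⟨X₀, hX₀⟩ : S'.Nonempty := ⟨_, h.emp⟩
  obtain ⟨c, e₀, he₀, hc⟩ := hs
  rcases hθ with ⟨j, hj⟩ | ⟨X, hX, hXX⟩
  · refine ⟨.mem c (2 * j), e₀, fun _ => X₀, he₀, fun _ => hX₀, fun e he σ hσ => ?_⟩
    simp only [Sat, hc, hj, mix_even]
  · refine ⟨.mem c 1, e₀, fun _ => X, he₀, fun _ => hX, fun e he σ hσ => ?_⟩
    have : mix σ (fun _ => X) 1 = X := mix_odd σ (fun _ => X) 0
    simp only [Sat, hc, hXX, this]

theorem SD.const [h : SOM k S S'] {p : Prop} : SD k S S' (fun _ _ => p) := by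
  by_cases hp : p
  · exact (SD.eq (ST.nat 0) (ST.nat 0)).congr fun _ _ _ _ => by simp [hp]
  · exact (SD.eq (ST.nat 0) (ST.nat 0)).not.congr fun _ _ _ _ => by simp [hp]

/-- Substitution for set variables. -/
theorem SD.subS {P : T → (ℕ → Set T) → Prop} {θ : ℕ → (ℕ → Set T) → Set T} [h : SOM k S S']
    (hP : SD k S S' P) (hθ : ∀ i, SV S' (θ i)) :
    SD k S S' (fun e σ => P e (fun i => θ i σ)) := by
  classical
  obtain ⟨φ, e₀, τ, h0, h1, h2⟩ := hP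
  obtain ⟨X₀, hX₀⟩ : S'.Nonempty := ⟨_, h.emp⟩
  have hdat : ∀ i, ∃ (b : Bool) (j : ℕ) (X : Set T), X ∈ S' ∧
      (b = true → ∀ σ, θ i σ = σ j) ∧ (b = false → ∀ σ, θ i σ = X) := by
    intro i
    rcases hθ i with ⟨j, hj⟩ | ⟨X, hX, hXX⟩
    · exact ⟨true, j, X₀, hX₀, fun _ => hj, fun h => by simp at h⟩
    · exact ⟨false, 0, X, hX, fun h => by simp at h, fun _ => hXX⟩
  choose b j X hX hv hc using hdat
  let ρ : ℕ → ℕ := fun n => if n % 2 = 0 then (if b (n / 2) then 2 * j (n / 2)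
    else 2 * (2 * (n / 2) + 1) + 1) else 2 * (2 * (n / 2)) + 1
  refine ⟨φ.sub (.nat 0) ρ, e₀, mix τ X, h0, mix_forall h1 hX, fun e he σ hσ => ?_⟩
  rw [sat_sub]
  have hmix : (fun i => mix σ (mix τ X) (ρ i)) = mix (fun i => θ i σ) τ := by
    funext n
    rcases Nat.even_or_odd' n with ⟨m, rfl | rfl⟩
    · have e1 : (2 * m) % 2 = 0 := by omega
      have e2 : (2 * m) / 2 = m := by omega
      rw [mix_even]
      simp only [ρ, e1, e2, if_true]
      by_cases hb : b m = true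
      · simp only [hb, if_true]
        rw [mix_even, hv m hb]
      · have hb' : b m = false := by simpa using hb
        simp only [hb', Bool.false_eq_true, if_false]
        rw [mix_odd, mix_odd, hc m hb']
    · have e1 : (2 * m + 1) % 2 = 1 := by omega
      have e2 : (2 * m + 1) / 2 = m := by omega
      rw [mix_odd]
      simp only [ρ, e1, e2]
      rw [if_neg (by omega), mix_odd, mix_even]
  rw [hmix]
  exact h2 e he _ (fun i => (hθ i).mem h.sub hσ)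

theorem SD.not_isOrd [h : SOM k S S'] {s : T → T} (hs : ST k s) :
    SD k S S' (fun e _ => ¬ (s e).IsOrd) := (SD.isOrd hs).not

theorem ST.ordc {a : O} (h : a < k) : ST k (fun _ => .ord a) := ST.const (ord_mem.2 h)

theorem SD.app1 {R : T → Prop} {t : T → T} (hR : SD k S S' (fun e _ => R e)) (ht : ST k t) :
    SD k S S' (fun e _ => R (t e)) := hR.sub ht

theorem SD.app2 {R : T → T → Prop} {s t : T → T} (hR : SD k S S' (fun e _ => R e.fst e.snd))
    (hs : ST k s) (ht : ST k t) : SD k S S' (fun e _ => R (s e) (t e)) := hR.sub (hs.pr ht)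

theorem SD.app3 {R : T → T → T → Prop} {s t r : T → T}
    (hR : SD k S S' (fun e _ => R e.fst e.snd.fst e.snd.snd))
    (hs : ST k s) (ht : ST k t) (hr : ST k r) : SD k S S' (fun e _ => R (s e) (t e) (r e)) :=
  hR.sub (hs.pr (ht.pr hr))

theorem SD.app4 {R : T → T → T → T → Prop} {s t r q : T → T}
    (hR : SD k S S' (fun e _ => R e.fst e.snd.fst e.snd.snd.fst e.snd.snd.snd))
    (hs : ST k s) (ht : ST k t) (hr : ST k r) (hq : ST k q) :
    SD k S S' (fun e _ => R (s e) (t e) (r e) (q e)) :=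
  hR.sub (hs.pr (ht.pr (hr.pr hq)))

/-- Relations with one set argument and one tree argument. -/
theorem SD.appS1 [h : SOM k S S'] {R : T → Set T → Prop} {t : T → T} {θ : (ℕ → Set T) → Set T}
    (hR : SD k S S' (fun e σ => R e (σ 0))) (ht : ST k t) (hθ : SV S' θ) :
    SD k S S' (fun e σ => R (t e) (θ σ)) :=
  SD.subS (θ := fun _ => θ) (P := fun e σ => R (t e) (σ 0)) (hR.sub ht) (fun _ => hθ)

/-- Relations with one set argument. -/
theorem SD.appS0 [h : SOM k S S'] {R : Set T → Prop} {θ : (ℕ → Set T) → Set T}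
    (hR : SD k S S' (fun _ σ => R (σ 0))) (hθ : SV S' θ) :
    SD k S S' (fun _ σ => R (θ σ)) :=
  SD.subS (θ := fun _ => θ) (P := fun _ σ => R (σ 0)) hR (fun _ => hθ)

/-- Relations with two set arguments and one tree argument. -/
theorem SD.appS2 [h : SOM k S S'] {R : T → Set T → Set T → Prop} {t : T → T}
    {θ θ' : (ℕ → Set T) → Set T}
    (hR : SD k S S' (fun e σ => R e (σ 0) (σ 1))) (ht : ST k t) (hθ : SV S' θ) (hθ' : SV S' θ') :
    SD k S S' (fun e σ => R (t e) (θ σ) (θ' σ)) :=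
  SD.subS (θ := fun i => if i = 0 then θ else θ') (P := fun e σ => R (t e) (σ 0) (σ 1))
    (hR.sub ht) (fun i => by by_cases hi : i = 0 <;> simp [hi, hθ, hθ'])

/-! ### Consequences of comprehension -/

theorem SOM.self [h : SOM k S S'] : SOM k S S where
  lim := h.lim
  omg := h.omg
  sub := subset_rfl
  emp := h.sub h.emp
  bdd := h.bdd
  compS := h.compS
  comp := h.compS
  coll := h.coll

/-- Comprehension for `SD` predicates. -/
theorem SOM.sep [h : SOM k S S'] {P : T → Prop} (hP : SD k S S' (fun e _ => P e)) {d : O}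
    (hd : d < k) : {x | x ∈ D (Iio d) ∧ P x} ∈ S' := by
  obtain ⟨φ, e₀, τ, h0, h1, h2⟩ := hP
  have h3 := h.comp φ e₀ h0 (mix (fun _ => ∅) τ) (mix_forall (fun _ => h.emp) h1) d hd
  convert h3 using 1
  ext x
  constructor
  · rintro ⟨hx, hP⟩
    exact ⟨hx, (h2 x (D_mono (Iio_subset_Iio hd.le) hx) _ (fun _ => h.sub h.emp)).2 hP⟩
  · rintro ⟨hx, hP⟩
    exact ⟨hx, (h2 x (D_mono (Iio_subset_Iio hd.le) hx) _ (fun _ => h.sub h.emp)).1 hP⟩

/-- Collection for `SD` predicates. -/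
theorem SOM.bnd [h : SOM k S S'] {P : T → T → Prop} (hP : SD k S S' (fun e _ => P e.snd e.fst))
    {d : O} (hd : d < k) (hx : ∀ x ∈ D (Iio d), ∃ y ∈ D (Iio k), P x y) :
    ∃ b < k, ∀ x ∈ D (Iio d), ∃ y ∈ D (Iio b), P x y := by
  obtain ⟨φ, e₀, τ, h0, h1, h2⟩ := hP
  have hdk : D (Iio d) ⊆ D (Iio k) := D_mono (Iio_subset_Iio hd.le)
  have key : ∀ x ∈ D (Iio d), ∀ y ∈ D (Iio k),
      (Sat k S (φ.sub cl3 fun i => i) (.pr y (.pr x e₀)) (mix (fun _ => ∅) τ) ↔ P x y) := by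
    intro x hx y hy
    rw [sat_sub, tval_cl3]
    exact h2 (.pr y x) (pr_mem.2 ⟨hy, hdk hx⟩) _ (fun _ => h.sub h.emp)
  obtain ⟨b, hb, hb'⟩ := h.coll (φ.sub cl3 fun i => i) e₀ h0 (mix (fun _ => ∅) τ)
    (mix_forall (fun _ => h.sub h.emp) (fun i => h.sub (h1 i))) d hd (fun x hx' => by
      obtain ⟨y, hy, hPy⟩ := hx x hx'
      exact ⟨y, hy, (key x hx' y hy).2 hPy⟩)
  refine ⟨min b k, ?_, fun x hx' => ?_⟩
  · exact lt_of_le_of_lt (min_le_left _ _) hb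
  · obtain ⟨y, hy, hPy⟩ := hb' x hx'
    have hyk : y ∈ D (Iio k) := D_mono (Iio_subset_Iio hb.le) hy
    exact ⟨y, by rw [min_eq_left hb.le]; exact hy, (key x hx' y hyk).1 hPy⟩

/-- A bounded `SD` set is in `S'`. -/
theorem SOM.of_SD [h : SOM k S S'] {Y : Set T} {d : O} (hd : d < k) (hY : Y ⊆ D (Iio d))
    (hP : SD k S S' (fun e _ => e ∈ Y)) : Y ∈ S' := by
  have := SOM.sep hP hd
  convert this using 1
  ext x
  exact ⟨fun hx => ⟨hY hx, hx⟩, fun hx => hx.2⟩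

/-- Graph of a real function on a set of trees. -/
def gr (A : Set T) (f : T → T) : Set T := {p | ∃ x ∈ A, p = .pr x (f x)}

/-- Graph of a sequence of trees. -/
def sq (a : ℕ → T) : Set T := {p | ∃ n : ℕ, p = .pr (.nat n) (a n)}

/-! ### Constructible sets -/

/-- The set coded by a tree `(ord b, (φ, v))`. -/
def dec (c : T) : Set T :=
  {x | ∃ (b : O) (φ : Code) (v : T), c = .pr (.ord b) (.pr (Tr.ofCode φ) v) ∧ v ∈ D (Iio b) ∧
    x ∈ D (Iio b) ∧ Tru b φ (.pr x v)}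

/-- The sets with a code below `k`. -/
def Con (k : O) : Set (Set T) := {X | ∃ c ∈ D (Iio k), X = dec c}

/-! ### Tests of the method -/

example [SOM k S S'] (R : T → T → Prop) (hR : SD k S S' (fun e _ => R e.fst e.snd)) :
    SD k S S' (fun e _ => ∀ x ∈ D (Iio k), R x e → ∃ y ∈ D (Iio k), R (.pr x y) (.pr e (.nat 5))) := by
  apply_rules [SD.exT, SD.allT, SD.exS, SD.allS, SD.isOrd, SD.llt, SD.mem, SD.eq, SD.not, SD.and,
    SD.or, SD.iff, SD.imp, ST.id, ST.fst, ST.snd, ST.pr, ST.nat, ST.ordc, SV.var, SV.par,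
    SD.app2, SD.const]

example [SOM k S S'] (X : Set T) (hX : X ∈ S') (a : O) (ha : a < k) :
    SD k S S' (fun e σ => ∃ x ∈ D (Iio k), x ∈ X ∧ ∀ Y ∈ S, Tr.pr x e.fst ∈ Y →
      (Tr.pr (.ord a) x ∈ σ 0 ∨ x.IsOrd)) := by
  apply_rules [SD.exT, SD.allT, SD.exS, SD.allS, SD.isOrd, SD.llt, SD.mem, SD.eq, SD.not, SD.and,
    SD.or, SD.iff, SD.imp, ST.id, ST.fst, ST.snd, ST.pr, ST.nat, ST.ordc, SV.var, SV.par]

end Pool.Agent.Helper17.OD
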