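import Pool.Agent.Helper17.OD.SO
import Pool.Agent.Helper17.OD.AsmGM
import Pool.Agent.Helper17.OD.AsmGE
import Pool.Agent.Helper17.OD.AsmCV
import Pool.Agent.Helper17.OD.AsmWM
import Pool.Agent.Helper17.OD.AsmZV
import Pool.Agent.Helper17.OD.AsmFA
import Pool.Agent.Helper11.OD.NRD
import Pool.Agent.Helper11.OD.ODC
import Pool.Agent.Helper11.OD.VOD
import Pool.Agent.Helper14.OD.SCL
import Pool.Agent.Helper14.OD.VPW
import Pool.Agent.Helper14.OD.VTR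
import Pool.Agent.Helper16.OD.AMG
import Pool.Agent.Helper16.OD.PJC
import Pool.Agent.Helper16.OD.RES
import Pool.Agent.Helper17.ODP.COD
import Pool.Agent.Helper17.ODP.CVL
import Pool.Agent.Helper17.ODP.DFS
import Pool.Agent.Helper17.ODP.ENC
import Pool.Agent.Helper17.ODP.EQM
import Pool.Agent.Helper17.ODP.FAM
import Pool.Agent.Helper17.ODP.FB2
import Pool.Agent.Helper17.ODP.SBC
import Pool.Agent.Helper17.ODP.TRF
import Pool.Agent.Helper17.ODP.VCH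
import Pool.Agent.Helper17.ODP.VSS
import Pool.Agent.Helper17.ODP.VZF
import Pool.Agent.Helper23.OD.EDF
import Pool.Agent.Helper23.OD.WREC
import Pool.Agent.Helper25.OD.EL5
import Pool.Agent.Helper27.OD.CFI
import Pool.Agent.Helper27.OD.HUL
import Pool.Agent.Helper27.OD.MPR
import Pool.Agent.Helper27.OD.RCD
import Pool.Agent.Helper27.OD.SPL
import Pool.Agent.Helper27.OD.WLV
import Pool.Agent.Helper29.OD.CLA
import Pool.Agent.Helper29.OD.CLB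
import Pool.Agent.Helper29.OD.CLC
import Pool.Agent.Helper29.OD.CLD
import Pool.Agent.Helper29.OD.CLE
import Pool.Agent.Helper29.OD.CLF
import Pool.Agent.Helper29.OD.CLL
import Pool.Agent.Helper32.OD.MIX
import Pool.Agent.Helper33.OD.HGT
import Pool.Agent.Helper37.OD.DLG
import Pool.Agent.Helper37.OD.ETA
import Pool.Agent.Helper37.OD.PAR
import Pool.Agent.Helper37.OD.SVP
import Pool.Agent.Helper37.OD.WTR
import Pool.Agent.Helper4.OD.BKH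
import Pool.Agent.Helper4.OD.CCL
import Pool.Agent.Helper4.OD.LSR
import Pool.Agent.Helper4.OD.OTP
import Pool.Agent.Helper4.OD.QHT
import Pool.Agent.Helper40.OD.SYS
import Pool.Agent.Helper42.OD.PJT
import Pool.Agent.Helper45.OD.EIU
import Pool.Agent.Helper45.OD.GNF
import Pool.Agent.Helper45.OD.ONE
import Pool.Agent.Helper45.OD.VAL
import Pool.Agent.Helper46.OD.QRT
import Pool.Agent.Helper46.OD.TDC
import Pool.Agent.Helper46.OD.TDC2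
import Pool.Agent.Helper46.OD.TRE
import Pool.Agent.Helper46.OD.TTC
import Pool.Agent.Helper47.OD.EL1
import Pool.Agent.Helper47.OD.RSQ
import Pool.Agent.Helper49.OD.CL3
import Pool.Agent.Helper49.OD.DEC
import Pool.Agent.Helper49.OD.FSD
import Pool.Agent.Helper49.OD.WRK
import Pool.Agent.Helper49.OD.WSO
import Pool.Agent.Helper5.OD.MIN
import Pool.Agent.Helper5.OD.SMT
import Pool.Agent.Helper51.OD.HCN
import Pool.Agent.Helper52.OD.GLM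
import Pool.Agent.Helper52.OD.GRD
import Pool.Agent.Helper52.OD.GX1
import Pool.Agent.Helper52.OD.KSM
import Pool.Agent.Helper55.OD.HU2
import Pool.Agent.Helper57.OD.CON1
import Pool.Agent.Helper57.OD.DCH
import Pool.Agent.Helper58.OD.LM0
import Pool.Agent.Helper59.OD.PAD
import Pool.Agent.Helper6.OD.CON3
import Pool.Agent.Helper61.OD.CNC
import Pool.Agent.Helper61.OD.EQL
import Pool.Agent.Helper61.OD.FPB
import Pool.Agent.Helper61.OD.HLE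
import Pool.Agent.Helper61.OD.LTO
import Pool.Agent.Helper61.OD.MAPT
import Pool.Agent.Helper62.OD.CL2
import Pool.Agent.Helper62.OD.PIM
import Pool.Agent.Helper64.OD.GX2
import Pool.Agent.Helper64.OD.TRD
import Pool.Agent.Helper67.OD.RNK
import Pool.Agent.Helper69.OD.ELM
import Pool.Agent.Helper69.OD.LOC
import Pool.Agent.Helper69.OD.TSY
import Pool.Agent.Helper73.OD.SV2
import Pool.Agent.Helper73.OD.WFR
import Pool.Agent.Helper74.OD.EIH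
import Pool.Agent.Helper77.OD.SV3
import Pool.Agent.Helper8.OD.COL
import Pool.Agent.Helper8.OD.CON4
import Pool.Agent.Helper8.OD.CUT
import Pool.Agent.Helper8.OD.FMO
import Pool.Agent.Helper8.OD.FUN
import Pool.Agent.Helper8.OD.GNE
import Pool.Agent.Helper8.OD.SOB
import Pool.Agent.Helper8.OD.SV4
import Pool.Agent.Helper8.OD.TRL
import Pool.Agent.Helper8.OD.VPU
import Pool.Agent.Helper8.OD.VSP
import Pool.Agent.Helper85.OD.HCT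
import Pool.Agent.Helper85.OD.HSZ
import Pool.Agent.Helper85.OD.LIM
import Pool.Agent.Helper89.OD.CAD
import Pool.Agent.Helper89.OD.CL1
import Pool.Agent.Helper89.OD.CON2
import Pool.Agent.Helper89.OD.ENU
import Pool.Agent.Helper89.OD.LMT
import Pool.Agent.Helper89.OD.LST
import Pool.Agent.Helper89.OD.NMB
import Pool.Agent.Helper89.OD.RED
import Pool.Agent.Helper89.OD.SVC
import Pool.Agent.Helper97.OD.CDK
import Pool.Agent.Helper97.OD.CLM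
import Pool.Agent.Helper97.OD.EEV
import Pool.Agent.Helper97.OD.EL2
import Pool.Agent.Helper97.OD.EL3
import Pool.Agent.Helper97.OD.EL6
import Pool.Agent.Helper97.OD.FB1
import Pool.Agent.Helper97.OD.HR2
import Pool.Agent.Helper97.OD.HRT
import Pool.Agent.Helper97.OD.SVB
import Pool.Agent.Helper97.OD.TRS
import Pool.Agent.Helper97.OD.VRP
import Pool.Agent.Helper97.OD.WCS
import Pool.Agent.Helper99.OD.ANT
import Pool.Agent.Helper99.OD.EIM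
import Pool.Agent.Helper99.OD.REC
import Pool.Agent.Helper99.OD.TRC

/-! MP_064283_lc: assembly of all packets. Generated. -/

set_option autoImplicit false

namespace Pool.Agent.Helper17.OD.All

universe u v

theorem p_BLD : G_BLD := PkBLD.thm
theorem p_EQV : G_EQV := PkEQV.thm
theorem p_PUN : G_PUN := PkPUN.thm
theorem p_REC : G_REC := PkREC.thm
theorem p_TRE : G_TRE := PkTRE.thm p_REC
theorem p_TRD : G_TRD := PkTRD.thm p_REC p_TRE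
theorem p_DEC : G_DEC := PkDEC.thm p_TRD
theorem p_CNC : G_CNC := PkCNC.thm p_DEC p_TRE
theorem p_PBD : G_PBD := PkPBD.thm
theorem p_LNS : G_LNS := PkLNS.thm p_DEC
theorem p_PIM : G_PIM := PkPIM.thm p_REC p_PUN p_CNC p_LNS p_DEC
theorem p_PRO : G_PRO := PkPRO.thm
theorem p_AMG : G_AMG := PkAMG.thm p_BLD p_EQV p_PUN p_CNC p_PBD p_PIM p_DEC p_PRO
theorem p_LTO : G_LTO.{u} := PkLTO.thm
theorem p_LTW : G_LTW.{u} := PkLTW.thm
theorem p_ANT : G_ANT := PkANT.thm p_REC p_TRE p_LTO p_LTW p_PUN p_PIM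
theorem p_RNK : G_RNK := PkRNK.thm
theorem p_BKH : G_BKH := PkBKH.thm p_LTO p_LTW p_TRE p_RNK
theorem p_CAD : G_CAD := PkCAD.thm
theorem p_LMT : G_LMT := PkLMT.thm p_BLD p_PUN p_PBD p_PRO p_LNS p_DEC
theorem p_ENU : G_ENU := PkENU.thm p_RNK
theorem p_SPL : G_SPL := PkSPL.thm p_ENU
theorem p_CCL : G_CCL := PkCCL.thm p_LMT p_SPL p_PBD p_PUN p_PRO p_LNS p_TRE p_RNK
theorem p_HSZ : G_HSZ := PkHSZ.thm p_LTO
theorem p_COL : G_COL := PkCOL.thm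
theorem p_CLA : G_CLA := PkCLA.thm
theorem p_MAPT : G_MAPT.{u, v} := PkMAPT.thm
theorem p_TVM : G_TVM.{u, v} := PkTVM.thm
theorem p_CON1 : G_CON1 := PkCON1.thm p_MAPT p_TVM p_LTO p_LTW
theorem p_CDK : G_CDK := PkCDK.thm p_HSZ p_COL p_CLA p_CON1 p_MAPT
theorem p_DLG : G_DLG := PkDLG.thm
theorem p_TDC2 : G_TDC2 := PkTDC2.thm
theorem p_HCN : G_HCN := PkHCN.thm p_TRD p_TRE p_DLG p_CLA p_TDC2
theorem p_CFI : G_CFI := PkCFI.thm p_HCN p_ENU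
theorem p_HLE : G_HLE.{u} := PkHLE.thm
theorem p_CON2 : G_CON2 := PkCON2.thm p_CON1 p_MAPT p_TVM p_LTO p_LTW p_HLE
theorem p_CON3 : G_CON3 := PkCON3.thm p_CON2 p_MAPT p_LTO p_LTW
theorem p_CLB : G_CLB := PkCLB.thm
theorem p_CON4 : G_CON4 := PkCON4.thm p_CLA p_CLB p_CON1 p_CON3 p_MAPT
theorem p_DGE : G_DGE := PkDGE.thm
theorem p_CUT : G_CUT := PkCUT.thm p_HLE p_LTO p_LTW p_MAPT p_DGE
theorem p_PJC : G_PJC := PkPJC.thm p_LTO
theorem p_CL1 : G_CL1 := PkCL1.thm p_COL p_CON1 p_CON3 p_CON4 p_CUT p_PJC p_CLA p_CLB p_MAPT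
theorem p_CL2 : G_CL2 := PkCL2.thm p_CON1 p_CON2 p_CON3 p_CLA p_CLB p_PJC p_MAPT p_LTO p_HLE
theorem p_TTC : G_TTC := PkTTC.thm
theorem p_TDC : G_TDC := PkTDC.thm
theorem p_PJT : G_PJT := PkPJT.thm p_DLG p_TTC p_TDC p_TDC2
theorem p_HCT : G_HCT := PkHCT.thm p_TTC p_TDC p_TDC2 p_DLG p_CLA
theorem p_CLF : G_CLF := PkCLF.thm
theorem p_CL3 : G_CL3 := PkCL3.thm p_TRD p_PJT p_HCT p_TRE p_CLF p_MAPT p_LTO
theorem p_CLC : G_CLC := PkCLC.thm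
theorem p_CLD : G_CLD := PkCLD.thm p_LTO
theorem p_CLE : G_CLE := PkCLE.thm
theorem p_CLL : G_CLL := PkCLL.thm
theorem p_LM0 : G_LM0 := PkLM0.thm p_MAPT p_TVM p_LTO p_HLE
theorem p_CLM : G_CLM := PkCLM.thm p_LM0 p_HCT p_PJT p_CON4 p_CLF p_CLA p_CLB p_MAPT p_LTO p_LTW
theorem p_CVL : G_CVL := PkCVL.thm
theorem p_COD : G_COD := PkCOD.thm p_RNK p_CVL
theorem p_DCH : G_DCH := PkDCH.thm p_REC p_TRE p_LTO p_LTW
theorem p_TRS : G_TRS := PkTRS.thm p_TTC p_TDC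
theorem p_DFS : G_DFS := PkDFS.thm p_TRS
theorem p_ENC : G_ENC := PkENC.thm
theorem p_EDF : G_EDF := PkEDF.thm p_ENC
theorem p_EEV : G_EEV := PkEEV.thm p_CVL
theorem p_EIU : G_EIU := PkEIU.thm
theorem p_EIM : G_EIM := PkEIM.thm p_EIU p_REC p_PUN p_PBD p_PIM p_CNC p_LNS p_DEC
theorem p_RES : G_RES := PkRES.thm p_BLD p_EQV p_PUN p_CNC p_PBD p_PIM p_DEC
theorem p_EIH : G_EIH := PkEIH.thm p_EIU p_EIM p_BLD p_EQV p_PUN p_PRO p_PBD p_PIM p_RES p_SPL p_LNS p_CNC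
theorem p_EL1 : G_EL1 := PkEL1.thm p_TRS p_TTC p_TDC p_TDC2
theorem p_EL2 : G_EL2 := PkEL2.thm p_TTC p_TDC p_TDC2
theorem p_EL3 : G_EL3 := PkEL3.thm p_TTC p_TDC p_TDC2
theorem p_EL5 : G_EL5 := PkEL5.thm p_TDC p_TDC2
theorem p_EL6 : G_EL6 := PkEL6.thm p_TTC p_TDC p_TDC2
theorem p_ELM : G_ELM := PkELM.thm p_HSZ p_COL p_CLA p_CON1 p_CON2
theorem p_EQL : G_EQL := PkEQL.thm
theorem p_EQM : G_EQM := PkEQM.thm p_REC p_CVL p_COD
theorem p_TRC : G_TRC := PkTRC.thm p_REC p_TRE p_LTO p_LTW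
theorem p_SOB : G_SOB := PkSOB.thm
theorem p_ETA : G_ETA := PkETA.thm p_TRC p_DEC p_TRE p_SOB
theorem p_SBC : G_SBC := PkSBC.thm p_CVL p_COD
theorem p_FAM : G_FAM := PkFAM.thm p_CVL p_SBC
theorem p_FB1 : G_FB1 := PkFB1.thm p_RNK
theorem p_WREC : G_WREC := PkWREC.thm
theorem p_WRK : G_WRK := PkWRK.thm p_WREC
theorem p_WLV : G_WLV := PkWLV.thm p_WRK
theorem p_ODC : G_ODC := PkODC.thm
theorem p_WCS : G_WCS := PkWCS.thm p_ENC p_EDF p_WRK p_WLV p_ODC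
theorem p_PAR : G_PAR := PkPAR.thm
theorem p_FB2 : G_FB2 := PkFB2.thm p_ENC p_WLV p_WCS p_ODC p_PAR
theorem p_FMO : G_FMO := PkFMO.thm p_PRO
theorem p_FSD : G_FSD := PkFSD.thm p_PIM p_CNC p_DEC p_TRE
theorem p_FUN : G_FUN := PkFUN.thm
theorem p_GLM : G_GLM := PkGLM.thm p_LMT p_SPL p_PBD p_PUN p_LNS
theorem p_GNE : G_GNE := PkGNE.thm p_PRO
theorem p_GNF : G_GNF := PkGNF.thm p_AMG p_RES p_PRO p_PIM p_PBD p_SOB
theorem p_PAD : G_PAD := PkPAD.thm p_BLD p_PUN p_PBD p_PIM p_PRO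
theorem p_GRD : G_GRD := PkGRD.thm p_PAD p_AMG p_RES p_EQV p_PUN p_PRO p_PIM p_PBD p_LNS p_DEC
theorem p_OFC : G_OFC.{u} := PkOFC.thm
theorem p_KSM : G_KSM := PkKSM.thm p_TRS p_TRD p_TRE p_OFC
theorem p_NMB : G_NMB := PkNMB.thm p_CNC p_KSM p_PBD p_SOB
theorem p_GX1 : G_GX1 := PkGX1.thm p_NMB p_GNF p_PAD p_AMG p_RES p_PUN p_PIM p_PRO p_KSM p_PBD p_EQV p_GRD
theorem p_MIX : G_MIX := PkMIX.thm p_BLD p_GRD p_AMG p_RES p_EQV p_PUN p_PRO p_PIM p_PBD p_LNS p_SPL p_DEC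
theorem p_LST : G_LST := PkLST.thm p_TRE p_LTO p_LTW
theorem p_ONE : G_ONE := PkONE.thm p_ANT p_MIX p_AMG p_RES p_PRO p_EQV p_LST p_PIM p_PBD p_SOB p_GRD
theorem p_RSQ : G_RSQ := PkRSQ.thm p_TRC p_ONE p_GLM p_GRD p_AMG p_PIM p_LNS p_DEC p_RES p_EQV p_PRO p_PBD p_PUN
theorem p_RED : G_RED := PkRED.thm p_RSQ p_GLM p_BKH p_PAD p_AMG p_RES p_PRO p_PBD p_PUN
theorem p_TRL : G_TRL := PkTRL.thm p_PRO p_PIM p_FMO p_FSD p_GNF
theorem p_GX2 : G_GX2 := PkGX2.thm p_RED p_TRL p_FSD p_FMO p_GNF p_PBD p_SOB p_LST p_PIM p_AMG p_RES p_PRO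
theorem p_HGT : G_HGT := PkHGT.thm p_EIM p_PRO p_RES p_GNF p_NMB p_PIM p_PBD p_EQV
theorem p_HRT : G_HRT := PkHRT.thm p_WRK
theorem p_HR2 : G_HR2 := PkHR2.thm p_ENC p_WCS p_HRT
theorem p_HU2 : G_HU2 := PkHU2.thm p_RNK p_DEC
theorem p_HUL : G_HUL := PkHUL.thm p_MAPT p_CON1 p_COL
theorem p_LIM : G_LIM := PkLIM.thm p_RNK p_LTO
theorem p_LOC : G_LOC := PkLOC.thm p_TDC
theorem p_LSR : G_LSR := PkLSR.thm
theorem p_MIN : G_MIN := PkMIN.thm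
theorem p_MPR : G_MPR := PkMPR.thm
theorem p_NRD : G_NRD := PkNRD.thm p_RED p_GNF p_PIM p_AMG p_PRO p_SOB p_PBD p_RES p_CNC
theorem p_OTP : G_OTP := PkOTP.thm p_CON4 p_CUT p_CLA p_CLB p_MAPT
theorem p_QHT : G_QHT := PkQHT.thm p_LTO p_LTO p_LTW p_LTW p_OFC p_MAPT
theorem p_QRT : G_QRT := PkQRT.thm p_PJT
theorem p_RCD : G_RCD := PkRCD.thm p_CDK p_CAD
theorem p_SCL : G_SCL := PkSCL.thm p_SOB p_LST p_TRE
theorem p_SMT : G_SMT := PkSMT.thm p_TRS p_LSR p_TDC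
theorem p_SV2 : G_SV2 := PkSV2.thm p_CCL p_KSM p_DCH p_PIM p_PBD p_TRE p_PRO
theorem p_SV3 : G_SV3 := PkSV3.thm p_HGT p_EQL p_GNE p_TRL p_FSD p_KSM p_PUN
theorem p_SV4 : G_SV4 := PkSV4.thm p_ENU p_GX1 p_GX2
theorem p_SVB : G_SVB := PkSVB.thm p_TRL p_FSD p_RED p_GNF p_PBD p_LST p_FMO p_TRS p_PIM p_AMG p_RES p_PRO p_TRE
theorem p_SVC : G_SVC := PkSVC.thm p_TRL p_FSD p_NRD p_TRS p_PUN
theorem p_SVP : G_SVP := PkSVP.thm p_NRD p_NMB p_CNC p_PIM p_SOB p_DEC p_PBD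
theorem p_SYS : G_SYS := PkSYS.thm p_OTP p_CLA p_CLB p_CLC p_CLL p_CLD p_CLE p_HLE p_LTO p_LTW p_OFC p_TRE
theorem p_TRF : G_TRF := PkTRF.thm p_EQM p_CVL p_COD
theorem p_TSY : G_TSY := PkTSY.thm p_QRT p_PJT p_TRD p_MPR p_DEC
theorem p_VAL : G_VAL := PkVAL.thm p_REC p_TRE p_TRD p_DEC p_QRT p_LTO p_LTW p_OFC
theorem p_VCH : G_VCH := PkVCH.thm p_CVL p_COD p_SBC p_EQM p_LST p_LTO
theorem p_VTR : G_VTR := PkVTR.thm p_SBC p_EEV p_COD p_CVL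
theorem p_VOD : G_VOD := PkVOD.thm p_TRF p_EEV p_SBC p_EQM p_VTR p_CVL p_COD
theorem p_VPU : G_VPU := PkVPU.thm p_CVL p_SOB p_SBC p_FAM
theorem p_VPW : G_VPW := PkVPW.thm p_FAM p_EQM p_SOB p_CVL p_COD
theorem p_VRP : G_VRP := PkVRP.thm p_SCL p_FAM p_TRF p_SBC p_EQM p_CVL p_COD
theorem p_VSP : G_VSP := PkVSP.thm p_CVL p_EQM p_TRF p_SBC
theorem p_VSS : G_VSS := PkVSS.thm p_CVL p_COD p_EEV p_SBC p_EQM p_ENC
theorem p_VZF : G_VZF := PkVZF.thm p_VTR p_VPU p_VPW p_VSP p_VRP p_VCH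
theorem p_WFR : G_WFR := PkWFR.thm p_DCH p_LST p_QRT p_PJT p_TRD p_TRE p_LTO
theorem p_WTR : G_WTR := PkWTR.thm p_ENC p_EDF p_WRK
theorem p_WSO : G_WSO := PkWSO.thm p_ENC p_WCS p_WTR p_ODC

theorem p_GND : G_GND := asm_gnd p_CAD p_SMT p_CDK p_RCD p_ELM p_EL1 p_EL2 p_EL3 p_EL5 p_EL6
theorem p_EXT : G_EXT :=
  asm_ext p_GND p_ETA p_EIH p_KSM p_GNE p_NMB p_SVC p_SVB p_SVP p_SV2 p_SV4 p_SV3 p_BLD
theorem p_COV : G_COV :=
  asm_cov p_MIN p_VAL p_HUL p_HU2 p_LOC p_SYS p_CL1 p_CL2 p_CL3 p_TSY p_WFR p_LIM p_LM0 p_QHT p_CLM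
    p_CFI
theorem p_FIB : G_FIB := asm_fib p_WSO p_HRT p_HR2 p_FB1 p_FB2
theorem p_ZV : G_ZV := asm_zv p_VTR p_VZF p_VSS p_DFS p_VOD
theorem final : Final := asm_final p_EXT p_ZV p_WSO p_FIB p_COV p_ENU p_ENC p_WRK

end Pool.Agent.Helper17.OD.All
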