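import Pool.Agent.Helper17.OD.GoalsGM

/-!
# The forcing: definitions. Paper: `PAPER.md`, section 6.

All objects of the ground model `M = Con γ` are bounded sets of trees; conditions are (canonical codes
of) elements of `M`.
-/

namespace Pool.Agent.Helper17.OD

open Set

/-- Graph of a function on ordinals below `a`. -/
def gro (a : O) (f : O → O) : Set T := {p | ∃ x < a, p = .pr (.ord x) (.ord (f x))}

/-- Graph of a function from the ordinals below `a` to trees. -/
def grt (a : O) (q : O → T) : Set T := {p | ∃ x < a, p = .pr (.ord x) (q x)}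

/-! ### Canonical codes -/

/-- The least `a` such that `t ∈ D (Iio a)`. -/
noncomputable def supl (t : T) : O := sInf {a | t ∈ D (Iio a)}

/-- Order by the supremum of the leaves, then by `lt`. -/
def glt (s t : T) : Prop := supl s < supl t ∨ (supl s = supl t ∧ s.lt t)

/-- `c` is the canonical (`glt`-least) code of the set `dec c`. -/
def Canon (c : T) : Prop := ∀ c', glt c' c → dec c' ≠ dec c

open Classical in
/-- The canonical code of a set. -/
noncomputable def canon (X : Set T) : T := if h : ∃ c, dec c = X ∧ Canon c then h.choose else .nat 0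

/-! ### Conditions -/

/-- Length of the condition `p` at the coordinate `i`. -/
noncomputable def ln (p : T) (i : O) : O :=
  sInf {a | Tr.pr (.ord i) (.pr (.nat 0) (.ord a)) ∉ dec p}

/-- The name at the place `x` of the coordinate `i` of `p`. -/
def nm (p : T) (i x : O) : Set T := {s | Tr.pr (.ord i) (.pr (.nat 1) (.pr (.ord x) s)) ∈ dec p}

/-- One step of the definition of the order. -/
def LeS (P : O → Set T) (L : O → T → T → Prop) (j : O) (q p : T) : Prop :=
  ∀ i < j, ln p i ≤ ln q i ∧ ∀ x < ln p i, ∀ r ∈ P i, L i r q → (r ∈ nm q i x ↔ r ∈ nm p i x)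

/-- Regular open subsets of `(P, L)`. -/
def RegO (P : Set T) (L : T → T → Prop) (b : Set T) : Prop :=
  b ⊆ P ∧ (∀ r ∈ b, ∀ s ∈ P, L s r → s ∈ b) ∧
    ∀ r ∈ P, (∀ s ∈ P, L s r → ∃ u ∈ P, L u s ∧ u ∈ b) → r ∈ b

/-- A family of names `N x`, `x < l`, is thin: no condition is in `N (f x)` for all `x < w`, `f` a
strictly increasing function in `M`. -/
def Thin (M : Set (Set T)) (w : O) (P : Set T) (N : O → Set T) (l : O) : Prop :=
  ¬ ∃ (f : O → O) (r : T), StrictMonoOn f (Iio w) ∧ gro w f ∈ M ∧ r ∈ P ∧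
    ∀ x < w, f x < l ∧ r ∈ N (f x)

/-- Conditions of length `j`, given the shorter ones. -/
structure CondS (M : Set (Set T)) (w κ : O) (η : O → O) (P : O → Set T) (L : O → T → T → Prop)
    (j : O) (p : T) : Prop where
  canon : Canon p
  low : p ∈ D (Iio κ)
  shape : ∀ z ∈ dec p, ∃ i < j, i < κ ∧ ∃ x < ln p i, z = .pr (.ord i) (.pr (.nat 0) (.ord x)) ∨
    ∃ s ∈ P i, z = .pr (.ord i) (.pr (.nat 1) (.pr (.ord x) s))
  len : ∀ i < j, i < κ → ln p i < η i
  ro : ∀ i < j, i < κ → ∀ x < ln p i, RegO (P i) (L i) (nm p i x)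
  thin : ∀ i < j, i < κ → Thin M w (P i) (nm p i) (ln p i)

/-- The conditions of length `j` and their order, by recursion on `j`. -/
noncomputable def PLr (M : Set (Set T)) (w κ : O) (η : O → O) : O → Set T × (T → T → Prop) :=
  WellFounded.fix (r := (· < · : O → O → Prop)) wellFounded_lt (fun j ih =>
    let P : O → Set T := fun i => {p | ∃ h : i < j, p ∈ (ih i h).1}
    let L : O → T → T → Prop := fun i q p => ∃ h : i < j, (ih i h).2 q p
    ({p | CondS M w κ η P L j p}, LeS P L j))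

/-- Properties of the function `η` (6.1). -/
structure EtaH (w κ γ : O) (η : O → O) : Prop where
  lt : ∀ j < κ, η j < κ
  low : ∀ j < κ, w < η j ∧ j < η j
  inc : ∀ j < κ, ∀ i < j, η i < η j
  lim : ∀ j < κ, Order.IsSuccLimit (η j)
  reg : ∀ j < κ, MReg (Con γ) (η j)
  cod : ∀ j < κ, ∃ r < η j, ∀ X ∈ Con γ, X ⊆ D {a | a < j ∨ ∃ i < j, a < η i} →
    ∃ c ∈ D (Iio r), X = dec c
  gr : gro κ η ∈ Con γ

/-- Restriction. -/
noncomputable def res (p : T) (j : O) : T :=
  canon {z | z ∈ dec p ∧ ∃ i < j, ∃ z' : T, z = .pr (.ord i) z'}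

/-- Amalgam: the coordinates `< j` of `s` and the coordinates `≥ j` of `p`. -/
noncomputable def am (s p : T) (j : O) : T :=
  canon {z | (z ∈ dec s ∧ ∃ i < j, ∃ z' : T, z = .pr (.ord i) z') ∨
    (z ∈ dec p ∧ ∃ i, j ≤ i ∧ ∃ z' : T, z = .pr (.ord i) z')}

/-- The guard `E_x` at the coordinate `j`. -/
def Gd (j x : O) : Set T := {t | x < ln t j ∧ res t j ∈ nm t j x}

/-- Forcing data. -/
structure FD where
  w : O
  κ : O
  γ : O
  η : O → O
  g : Gnd w κ γ
  e : EtaH w κ γ η

namespace FD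

variable (F : FD)

/-- The ground model. -/
def M : Set (Set T) := Con F.γ

/-- Conditions of length `j`. -/
noncomputable def P (j : O) : Set T := (PLr F.M F.w F.κ F.η j).1

/-- The order of conditions, coordinates below `j`. -/
noncomputable def Le (j : O) : T → T → Prop := (PLr F.M F.w F.κ F.η j).2


/-- Compatibility in `P j`. -/
def Cp (j : O) (s t : T) : Prop := ∃ u ∈ F.P j, F.Le j u s ∧ F.Le j u t

/-- Dense open subsets of `P κ` in `M`. -/
structure DO (E : Set T) : Prop where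
  inM : E ∈ F.M
  sub : E ⊆ F.P F.κ
  dense : ∀ p ∈ F.P F.κ, ∃ q ∈ E, F.Le F.κ q p
  opn : ∀ q ∈ E, ∀ r ∈ F.P F.κ, F.Le F.κ r q → r ∈ E

/-- `M`-generic filters. -/
structure Gen (G : Set T) : Prop where
  ne : G.Nonempty
  sub : G ⊆ F.P F.κ
  up : ∀ q ∈ G, ∀ p ∈ F.P F.κ, F.Le F.κ q p → p ∈ G
  dir : ∀ p ∈ G, ∀ q ∈ G, ∃ r ∈ G, F.Le F.κ r p ∧ F.Le F.κ r q
  gen : ∀ E : Set T, F.DO E → (G ∩ E).Nonempty

end FD

end Pool.Agent.Helper17.OD
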