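import Pool.Agent.Helper17.OD.GoalsSO

/-!
# Goals, module CV (the covering theorem). Paper: `PAPER.md`, section 3.
-/

namespace Pool.Agent.Helper17.OD

open Set

/-- Hypotheses of the covering theorem. -/
structure CovH (k w : O) (S S' : Set (Set T)) : Prop where
  som : SOM k S S'
  con : SOM k (Con k) (Con k)
  omw : Ordinal.omega0 < w
  wlim : Order.IsSuccLimit w
  wk : w < k
  h1 : ∀ A ∈ S', A ⊆ D (Iio w) → A ∈ Con k
  h2 : ∀ a : ℕ → T, (∀ n, a n ∈ D (Iio w)) → sq a ∈ S → sq a ∈ Con k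
  h3 : ∀ a : ℕ → T, (∀ n, a n ∈ D (Iio w)) → sq a ∈ Con k →
    (∃ u ∈ D (Iio w), sq a = dec u) ∧ ∃ i < w, ∀ n, a n ∈ D (Iio i)

/-- `c` maps `D w` to ordinal leaves below `τ`. -/
def OrdFn (w τ : O) (c : T → T) : Prop := ∀ a ∈ D (Iio w), (c a).IsOrd ∧ c a ∈ D (Iio τ)

/-- COV. The covering theorem (3.11: assembly of the packets below). -/
def G_COV : Prop := ∀ (k w : O) (S S' : Set (Set T)), CovH k w S S' → ∀ c : T → T,
  OrdFn w k c → gr (D (Iio w)) c ∈ S' → gr (D (Iio w)) c ∈ Con k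

/-- A minimal counterexample (3.1). -/
structure MinC (k w τ : O) (S' : Set (Set T)) (c : T → T) : Prop where
  tw : w < τ
  tk : τ < k
  tlim : Order.IsSuccLimit τ
  cf : OrdFn w τ c
  cS : gr (D (Iio w)) c ∈ S'
  cn : gr (D (Iio w)) c ∉ Con k
  unb : ∀ x < τ, ∃ a ∈ D (Iio w), ∃ y, c a = .ord y ∧ x ≤ y
  min : ∀ x < τ, ∀ c' : T → T, OrdFn w x c' → gr (D (Iio w)) c' ∈ S' →
    gr (D (Iio w)) c' ∈ Con k

/-- MIN. 3.1. `G_SOB`, `G_DEC`, `G_FUN` may be assumed. -/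
def G_MIN : Prop := ∀ (k w : O) (S S' : Set (Set T)), CovH k w S S' →
  (∃ c : T → T, OrdFn w k c ∧ gr (D (Iio w)) c ∈ S' ∧ gr (D (Iio w)) c ∉ Con k) →
  ∃ (τ : O) (c : T → T), MinC k w τ S' c

/-- `(n, x)` starts an infinite path (in `S`) along `Qr` for the sequence `z`. -/
def Uz (S : Set (Set T)) (z : ℕ → T) (n : ℕ) (x : O) : Prop :=
  ∃ Y ∈ S, Tr.pr (.nat n) (.ord x) ∈ Y ∧ ∀ (m : ℕ) (y : O), Tr.pr (.nat m) (.ord y) ∈ Y →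
    ∃ y', Tr.pr (.nat (m + 1)) (.ord y') ∈ Y ∧ Qr (z m) (z (m + 1)) (.ord y) (.ord y')

/-- The properties of `val` (3.3). -/
structure VD (w τ : O) (S : Set (Set T)) (c val : T → T) : Prop where
  nat : ∀ n, val (.nat n) = .nat n
  ord : ∀ i < w, val (.ord i) = .ord i
  vc : ∀ a ∈ D (Iio w), val (.pr (.nat 0) a) = c a
  vpr : ∀ a ∈ D (Iio w), ∀ b ∈ D (Iio w), val (.pr (.nat 1) (.pr a b)) = .pr (val a) (val b)
  vfst : ∀ a ∈ D (Iio w), val (.pr (.nat 2) a) = (val a).fst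
  vsnd : ∀ a ∈ D (Iio w), val (.pr (.nat 3) a) = (val a).snd
  vwit : ∀ a ∈ D (Iio w), ∀ b ∈ D (Iio w), ∀ (φ : Code) (g : O) (x : T), val a = .ord g →
    val b ∈ D (Iio g) → IsW g φ (val b) x →
    val (.pr (.nat 4) (.pr (Tr.ofCode φ) (.pr a b))) = x
  vst : ∀ (s : ℕ → T) (u : T) (i : O), u ∈ D (Iio w) → i < w → (∀ n, s n ∈ D (Iio i)) →
    sq s = dec u → ∀ n, (∃ x, Uz S (fun j => val (s j)) n x) →
    ∃ x, val (.pr (.nat 5) (.pr (.ord i) (.pr u (.nat n)))) = .ord x ∧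
      Uz S (fun j => val (s j)) n x
  vnx : ∀ (s : ℕ → T) (u : T) (i : O), u ∈ D (Iio w) → i < w → (∀ n, s n ∈ D (Iio i)) →
    sq s = dec u → ∀ (n : ℕ) (b : T) (x : O), b ∈ D (Iio w) → val b = .ord x →
    Uz S (fun j => val (s j)) n x →
    ∃ y, val (.pr (.nat 6) (.pr (.ord i) (.pr u (.pr (.nat n) b)))) = .ord y ∧
      Uz S (fun j => val (s j)) (n + 1) y ∧ Qr (val (s n)) (val (s (n + 1))) (.ord x) (.ord y)
  bd : ∀ a ∈ D (Iio w), val a ∈ D (Iio τ)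

/-- VAL. 3.3: existence of `val` in `S'`. `G_REC`, `G_TRE`, `G_TRD`, `G_DEC`, `G_SOB`, `G_FUN`, `G_LST`,
`G_QRT` may be assumed. `prd a` = the proper subtrees of `a` and the trees in `D (Iio i)`, `i` a leaf of `a`
(well-founded: supremum of the leaves, then height). -/
def G_VAL : Prop := ∀ (k w τ : O) (S S' : Set (Set T)) (c : T → T), CovH k w S S' →
  MinC k w τ S' c → ∃ val : T → T, VD w τ S c val ∧ gr (D (Iio w)) val ∈ S'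

/-- The hull and its collapse (3.3). -/
structure HD (w τ β : O) (val : T → T) (π : O → O) : Prop where
  mono : StrictMonoOn π (Iio β)
  lt : ∀ x < β, π x < τ
  wb : w < β
  idw : ∀ x < w, π x = x
  blim : Order.IsSuccLimit β
  unb : ∀ y < τ, ∃ x < β, y ≤ π x
  tr1 : ∀ t ∈ D (Iio β), ∃ a ∈ D (Iio w), val a = t.map π
  tr2 : ∀ a ∈ D (Iio w), ∃ t ∈ D (Iio β), val a = t.map π
  tru : ∀ b < β, ∀ e ∈ D (Iio b), ∀ c : Code, Tru b c e ↔ Tru (π b) c (e.map π)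
  wit : ∀ b < β, ∀ e ∈ D (Iio b), ∀ (φ : Code) (y : T), IsW (π b) φ (e.map π) y →
    ∃ x ∈ D (Iio b), y = x.map π ∧ IsW b φ e x
  tdf : ∀ P : T → Prop, TDef (fun _ e => P e) → ∀ e ∈ D (Iio β), (P e ↔ P (e.map π))

/-- HUL. 3.3: the range of `val` is `D A`, `A` closed under witnesses; `π` enumerates `A`. `G_CON1`,
`G_MAPT`, `G_COL` may be assumed. -/
def G_HUL : Prop := ∀ (k w τ : O) (S S' : Set (Set T)) (c val : T → T), CovH k w S S' →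
  MinC k w τ S' c → VD w τ S c val → ∃ (β : O) (π : O → O), HD w τ β val π

/-- HU2. 3.4. `G_RNK`, `G_SOB`, `G_FUN`, `G_DEC` may be assumed. `e a` is the ordinal leaf of
`π⁻¹ (val a)` if `val a` is an ordinal leaf, and `ord 0` otherwise. -/
def G_HU2 : Prop := ∀ (k w τ β : O) (S S' : Set (Set T)) (c val : T → T) (π : O → O),
  CovH k w S S' → MinC k w τ S' c → VD w τ S c val → gr (D (Iio w)) val ∈ S' →
  HD w τ β val π →
  β < k ∧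
  (∃ e : T → T, gr (D (Iio w)) e ∈ Con k ∧ (∀ a ∈ D (Iio w), ∀ x < β, val a = .ord (π x) →
      e a = .ord x) ∧ (∀ a ∈ D (Iio w), ¬ (val a).IsOrd → e a = .ord 0)) ∧
  (∀ d < β, {p : T | ∃ x < d, p = .pr (.ord x) (.ord (π x))} ∈ Con k) ∧
  {p : T | ∃ x < β, p = .pr (.ord x) (.ord (π x))} ∈ S'

/-! ### The system (3.5) -/

/-- Order of mice. -/
def mle (M M' : T) : Prop :=
  mA M ≤ mA M' ∧ ((mQ M).fst.lt (mQ M').fst ∨
    ((mQ M).fst = (mQ M').fst ∧ ¬ (mQ M').snd.lt (mQ M).snd)) ∧ mD M ≤ mD M'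

/-- The hull of a mouse. -/
def HullM (M : T) : Set O := Hull (mA M) (av (mQ M)) (Iio (mD M) ∪ (mP M).leaves)

/-- Systems (3.5). -/
structure Sys (k β : O) (I : Set T) (p₀ : T) (d₀ : O) : Prop where
  ne : I.Nonempty
  mice : ∀ M ∈ I, ∃ (a : O) (φ : Code) (u : T) (d : O), M = mouse a (Tr.ofCode φ) u d p₀ ∧
    p₀ ∈ D (Iio a) ∧ u ∈ D (Iio a) ∧ d₀ ≤ d ∧ d < β ∧ d ≤ a
  dir : ∀ M ∈ I, ∀ M' ∈ I, ∃ M'' ∈ I, mle M M'' ∧ mle M' M''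
  lev : ∀ M ∈ I, ∀ M' ∈ I, mle M M' → mA M = mA M' ∨ mQ M = .pr (.nat 0) (.nat 0)
  cof : ∀ M ∈ I, ∀ d < β, ∃ M' ∈ I, mle M M' ∧ d ≤ mD M'
  cov : ∀ x < β, ∃ M ∈ I, TCl (mA M) (av (mQ M)) (Iio d₀ ∪ p₀.leaves) (.ord x)
  otp : ∀ M ∈ I, ∀ (a : O) (f : O → O), StrictMonoOn f (Iio a) → f '' Iio a = HullM M → a < β
  con : I ∈ Con k

/-- LOC. First part of 3.5: a location exists. `e = dec (ord eps, (φ, v))`; `e a` is the least `x` with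
`Tru eps φ (pr (pr a x) v)`: a term-shuffled code. `G_TDC`, `G_LTO`, `G_LTW` may be assumed. -/
def G_LOC : Prop := ∀ (k w β : O) (e : T → T), Order.IsSuccLimit k → w < β → β < k →
  gr (D (Iio w)) e ∈ Con k →
  (∀ x < β, ∃ a ∈ D (Iio w), e a = .ord x) →
  ∃ a < k, ∃ p ∈ D (Iio a), w ≤ a ∧ ∀ x < β, x ∈ Hull a (fun _ _ => True) (Iio w ∪ p.leaves)

/-- OTP. (s6) of 3.5. `α` is minimal; the cut `(φ, u)` and all smaller ones do not work at `α`.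
`G_CON4`, `G_CUT`, `G_DGE`, `G_CLA`, `G_CLB`, `G_MAPT` may be assumed. -/
def G_OTP : Prop := ∀ (α β : O),
  (∀ a < α, ∀ d < β, ∀ p ∈ D (Iio a),
    ¬ Iio β ⊆ Hull a (fun _ _ => True) (Iio d ∪ p.leaves)) →
  ∀ (a : O) (φ u : T) (d : O) (p : T), a ≤ α → u ∈ D (Iio a) → d < β → d ≤ a →
  p ∈ D (Iio a) →
  (a = α → ∀ u' ∈ D (Iio α), (u' = u ∨ u'.lt u) → ∀ d' < β, ∀ p' ∈ D (Iio α),
    ¬ Iio β ⊆ Hull α (av (.pr φ u')) (Iio d' ∪ p'.leaves)) →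
  ∀ (a' : O) (f : O → O), StrictMonoOn f (Iio a') →
    f '' Iio a' = Hull a (av (.pr φ u)) (Iio d ∪ p.leaves) → a' < β

/-- SYS. 3.5. `G_OTP`, `G_CLA`, `G_CLB`, `G_CLC`, `G_CLL`, `G_CLF`, `G_CLD`, `G_CLE`, `G_HLE`, `G_LTO`, `G_LTW`,
`G_OFC`, `G_SOB`, `G_TRE`, `G_DEC` may be assumed. Take `α` least, then the least cut, and
the index sets (A), (B), (C), (F) of the paper. -/
def G_SYS : Prop := ∀ (k w β : O), SOM k (Con k) (Con k) → w < β → β < k →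
  Order.IsSuccLimit β →
  (∃ a < k, ∃ p ∈ D (Iio a), w ≤ a ∧
    ∀ x < β, x ∈ Hull a (fun _ _ => True) (Iio w ∪ p.leaves)) →
  ∃ (I : Set T) (p₀ : T) (d₀ : O), Sys k β I p₀ d₀

/-! ### The collapsed mice (3.6) -/

/-- Collapsed mice. `f M` is the uncollapsing map, `m M` the collapsed mouse. -/
structure Clp (β : O) (I : Set T) (f : T → O → O) (m : T → T) : Prop where
  mono : ∀ M ∈ I, StrictMonoOn (f M) (Iio (mA (m M)))
  rng : ∀ M ∈ I, f M '' Iio (mA (m M)) = HullM M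
  ms : ∀ M ∈ I, ∃ (a : O) (φ : Code) (u : T) (d : O) (p : T), m M = mouse a (Tr.ofCode φ) u d p ∧
    (mQ M).fst = Tr.ofCode φ ∧ d = mD M ∧ d ≤ a ∧ u ∈ D (Iio a) ∧ p ∈ D (Iio a) ∧ a < β ∧
    p.map (f M) = mP M
  cut : ∀ M ∈ I, ∀ (ψ : Code), ∀ e ∈ D (Iio (mA (m M))),
    (av (mQ M) ψ (e.map (f M)) ↔ av (mQ (m M)) ψ e)
  idd : ∀ M ∈ I, ∀ x < mD M, f M x = x
  snd : ∀ M ∈ I, ∀ t ∈ D (Iio (mA (m M))),
    TCl (mA (m M)) (av (mQ (m M))) (Iio (mD (m M)) ∪ (mP (m M)).leaves) t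
  pj : ∀ M ∈ I, ∀ t t' : T, PJ (m M) M t t' ↔ t ∈ D (Iio (mA (m M))) ∧ t' = t.map (f M)

/-- CL1. 3.6 for single mice. `G_COL`, `G_CON1`, `G_CON3`, `G_CON4`, `G_CUT`, `G_PJC`, `G_CLA`, `G_MAPT` may be
assumed. -/
def G_CL1 : Prop := ∀ (k β : O) (I : Set T) (p₀ : T) (d₀ : O), Sys k β I p₀ d₀ →
  ∃ (f : T → O → O) (m : T → T), Clp β I f m

/-- CL2. 3.6 for pairs of mice. `G_CON1`, `G_CON2`, `G_CON3`, `G_CLB`, `G_PJC` etc. may be assumed. -/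
def G_CL2 : Prop := ∀ (k β : O) (I : Set T) (p₀ : T) (d₀ : O), Sys k β I p₀ d₀ →
  ∀ (f : T → O → O) (m : T → T), Clp β I f m →
  (∀ M ∈ I, ∀ M' ∈ I, mle M M' →
    (∀ t t' : T, PJ (m M) (m M') t t' ↔ t ∈ D (Iio (mA (m M))) ∧ t' ∈ D (Iio (mA (m M'))) ∧
      t.map (f M) = t'.map (f M')) ∧ Im (m M) (m M')) ∧
  ∀ M ∈ I, ∀ M' ∈ I, ∀ M'' ∈ I, mle M M' → mle M' M'' → ∀ t t' t'' : T,
    PJ (m M) (m M') t t' → PJ (m M') (m M'') t' t'' → PJ (m M) (m M'') t t''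

/-- CL3. 3.6: the graph of `m` is constructible. `m = m(M)` iff `PJ m M` is an increasing bijection onto the
hull etc. `G_TRD`, `G_PJT`, `G_HCN`, `G_SOB`, `G_DEC` may be assumed. -/
def G_CL3 : Prop := ∀ (k β : O) (I : Set T) (p₀ : T) (d₀ : O), SOM k (Con k) (Con k) →
  Sys k β I p₀ d₀ → ∀ (f : T → O → O) (m : T → T), Clp β I f m → β < k → gr I m ∈ Con k

/-! ### The direct limit (3.8) -/

/-- The relation `R` of 3.8. `mt M` is the transported collapsed mouse. -/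
def Rl (I : Set T) (mt : T → T) : Set T :=
  {p | ∃ M ∈ I, ∃ M' ∈ I, ∃ x x' : O, x < mA (mt M) ∧ x' < mA (mt M') ∧
    p = .pr (.pr M (.ord x)) (.pr M' (.ord x')) ∧ ∃ M'' ∈ I, mle M M'' ∧ mle M' M'' ∧
    ∃ y y' : O, PJ (mt M) (mt M'') (.ord x) (.ord y) ∧ PJ (mt M') (mt M'') (.ord x') (.ord y') ∧
      y < y'}

/-- Transported systems. -/
structure TSys (I : Set T) (mt : T → T) : Prop where
  ne : I.Nonempty
  dir : ∀ M ∈ I, ∀ M' ∈ I, ∃ M'' ∈ I, mle M M'' ∧ mle M' M''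
  ms : ∀ M ∈ I, ∃ (a : O) (φ : Code) (u : T) (d : O) (p : T), mt M = mouse a (Tr.ofCode φ) u d p ∧
    (mQ M).fst = Tr.ofCode φ ∧ d ≤ a ∧ u ∈ D (Iio a) ∧ p ∈ D (Iio a)
  im : ∀ M ∈ I, ∀ M' ∈ I, mle M M' → Im (mt M) (mt M')
  comp : ∀ M ∈ I, ∀ M' ∈ I, ∀ M'' ∈ I, mle M M' → mle M' M'' → ∀ t t' t'' : T,
    PJ (mt M) (mt M') t t' → PJ (mt M') (mt M'') t' t'' → PJ (mt M) (mt M'') t t''

/-- TSY. Transport of the system by `π` (3.7), and `Rl` is in `S'`. `G_QRT`, `G_PJT`, `G_TRD`, `G_MPR`, `G_SOB`,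
`G_FUN`, `G_DEC`, `G_MAPT` may be assumed. -/
def G_TSY : Prop := ∀ (k w τ β : O) (S S' : Set (Set T)) (val : T → T) (π : O → O) (I : Set T)
  (p₀ : T) (d₀ : O) (f : T → O → O) (m : T → T), SOM k S S' → SOM k (Con k) (Con k) → τ < k →
  HD w τ β val π → {p : T | ∃ x < β, p = .pr (.ord x) (.ord (π x))} ∈ S' →
  Sys k β I p₀ d₀ → Clp β I f m → gr I m ∈ Con k →
  (∀ M ∈ I, ∀ M' ∈ I, mle M M' → Im (m M) (m M')) →
  (∀ M ∈ I, ∀ M' ∈ I, ∀ M'' ∈ I, mle M M' → mle M' M'' → ∀ t t' t'' : T,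
    PJ (m M) (m M') t t' → PJ (m M') (m M'') t' t'' → PJ (m M) (m M'') t t'') →
  TSys I (fun M => (m M).map π) ∧ gr I (fun M => (m M).map π) ∈ S' ∧
    Rl I (fun M => (m M).map π) ∈ S'

/-- WFR. 3.8, the claim: `R` is well-founded in `S`. `G_DCH`, `G_LST`, `G_SOB`, `G_FUN`, `G_QRT` may be
assumed. -/
def G_WFR : Prop := ∀ (k w τ β : O) (S S' : Set (Set T)) (c val : T → T) (π : O → O) (I : Set T)
  (p₀ : T) (d₀ : O) (f : T → O → O) (m : T → T), CovH k w S S' → MinC k w τ S' c →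
  VD w τ S c val → gr (D (Iio w)) val ∈ S' → HD w τ β val π → Sys k β I p₀ d₀ → Clp β I f m →
  (∀ M ∈ I, ∀ M' ∈ I, mle M M' → ∀ t t' : T, PJ (m M) (m M') t t' →
    t.map (f M) = t'.map (f M')) →
  TSys I (fun M => (m M).map π) → gr I (fun M => (m M).map π) ∈ S' →
  Rl I (fun M => (m M).map π) ∈ S' →
  ∀ Y ∈ S, Y.Nonempty → ∃ y ∈ Y, ∀ z ∈ Y, Tr.pr z y ∉ Rl I (fun M => (m M).map π)

/-- The limit. -/
structure Lim (k : O) (I : Set T) (mt : T → T) (g : T → O → O) (l : O) : Prop where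
  lk : l < k
  mono : ∀ M ∈ I, StrictMonoOn (g M) (Iio (mA (mt M)))
  rng : ∀ M ∈ I, ∀ x < mA (mt M), g M x < l
  onto : ∀ y < l, ∃ M ∈ I, ∃ x < mA (mt M), g M x = y
  comm : ∀ M ∈ I, ∀ M' ∈ I, mle M M' → ∀ x x' : O, PJ (mt M) (mt M') (.ord x) (.ord x') →
    g M x = g M' x'

/-- LIM. The rank function of `R` gives the limit. `G_RNK` may be assumed. -/
def G_LIM : Prop := ∀ (k : O) (S S' : Set (Set T)) (I : Set T) (mt : T → T), SOM k S S' →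
  TSys I mt → Rl I mt ∈ S' →
  (∀ Y ∈ S, Y.Nonempty → ∃ y ∈ Y, ∀ z ∈ Y, Tr.pr z y ∉ Rl I mt) →
  ∃ (g : T → O → O) (l : O), Lim k I mt g l

/-- LM0. 3.9 (L0), (L0'), (L1), and `g M` is the identity below `mD (mt M)`, `map (g M) (mP (mt M))` does not depend on
`M`. Facts on trees (`G_MAPT`, `G_TVM`, `G_LTO`, `G_LTW`, `G_HLE`, `G_OFC`) may be assumed. -/
def G_LM0 : Prop := ∀ (k : O) (I : Set T) (mt : T → T) (g : T → O → O) (l : O), TSys I mt →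
  Lim k I mt g l →
  (∀ M ∈ I, ∀ M' ∈ I, mle M M' → ∀ t t' : T, PJ (mt M) (mt M') t t' →
    t.map (g M) = t'.map (g M')) ∧
  (∀ M ∈ I, ∀ b < mA (mt M), ∀ e ∈ D (Iio b), ∀ c : Code,
    Tru b c e ↔ Tru (g M b) c (e.map (g M))) ∧
  (∀ M ∈ I, ∀ e ∈ D (Iio (mA (mt M))), ∀ c : Code,
    (Tr.ofCode c = (mQ (mt M)).fst ∨ (Tr.ofCode c).lt (mQ (mt M)).fst) →
    (Tru (mA (mt M)) c e ↔ Tru l c (e.map (g M)))) ∧
  (∀ M ∈ I, ∀ b < mA (mt M), ∀ e ∈ D (Iio b), ∀ x ∈ D (Iio (mA (mt M))), ∀ φ : Code,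
    IsW b φ e x → IsW (g M b) φ (e.map (g M)) (x.map (g M))) ∧
  (∀ M ∈ I, ∀ e ∈ D (Iio (mA (mt M))), ∀ x ∈ D (Iio (mA (mt M))), ∀ φ : Code,
    av (mQ (mt M)) φ e → IsW (mA (mt M)) φ e x → IsW l φ (e.map (g M)) (x.map (g M))) ∧
  (∀ M ∈ I, ∀ x < mD (mt M), g M x = x) ∧
  (∀ M ∈ I, ∀ M' ∈ I, (mP (mt M)).map (g M) = (mP (mt M')).map (g M'))

/-- QHT. 3.8, last sentence: the limit cut. -/
def G_QHT : Prop := ∀ (k : O) (I : Set T) (mt : T → T) (g : T → O → O) (l : O), TSys I mt →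
  Lim k I mt g l → ∃ q : T, q ∈ D (Iio l) ∧ ∀ (ψ : Code), ∀ e ∈ D (Iio l),
    (av q ψ e ↔ ∃ M ∈ I, ∃ e' ∈ D (Iio (mA (mt M))), e = e'.map (g M) ∧ av (mQ (mt M)) ψ e')

/-- CLM. The claim 3.10. `G_LM0`, `G_HCT`, `G_CON4`, `G_CLF`, `G_CLA`, `G_CLB`, `G_MAPT`, `G_LTO`, `G_LTW` may be assumed.
Existence of witnesses at the lower level: see the paper (apply (L0') to `ψ` itself). -/
def G_CLM : Prop := ∀ (k w τ β : O) (val : T → T) (π : O → O) (I : Set T)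
  (p₀ : T) (d₀ : O) (f : T → O → O) (m : T → T) (g : T → O → O) (l : O) (q ph : T),
  HD w τ β val π → Sys k β I p₀ d₀ → Clp β I f m →
  (∀ M ∈ I, ∀ M' ∈ I, mle M M' → ∀ t t' : T, PJ (m M) (m M') t t' ↔
    t ∈ D (Iio (mA (m M))) ∧ t' ∈ D (Iio (mA (m M'))) ∧ t.map (f M) = t'.map (f M')) →
  TSys I (fun M => (m M).map π) → Lim k I (fun M => (m M).map π) g l →
  (∀ (ψ : Code), ∀ e ∈ D (Iio l), (av q ψ e ↔ ∃ M ∈ I,
    ∃ e' ∈ D (Iio (mA ((m M).map π))), e = e'.map (g M) ∧ av (mQ ((m M).map π)) ψ e')) →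
  (∀ M ∈ I, (mP ((m M).map π)).map (g M) = ph) →
  ∀ y < τ, (y ∈ Hull l (av q) (π '' Iio d₀ ∪ ph.leaves) ↔ ∃ x < β, π x = y)

/-- CFI. 3.11, final step of the covering theorem. `G_HCN`, `G_ENU`, `G_SOB`, `G_FUN`, `G_DEC` may be assumed. -/
def G_CFI : Prop := ∀ (k w τ β : O) (S S' : Set (Set T)) (c val : T → T) (π : O → O)
  (d₀ l : O) (q ph : T), CovH k w S S' → MinC k w τ S' c → VD w τ S c val → HD w τ β val π →
  (∃ e : T → T, gr (D (Iio w)) e ∈ Con k ∧ (∀ a ∈ D (Iio w), ∀ x < β, val a = .ord (π x) →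
      e a = .ord x) ∧ (∀ a ∈ D (Iio w), ¬ (val a).IsOrd → e a = .ord 0)) →
  (∀ d < β, {p : T | ∃ x < d, p = .pr (.ord x) (.ord (π x))} ∈ Con k) →
  d₀ < β → l < k → q ∈ D (Iio k) → ph ∈ D (Iio k) →
  (∀ y < τ, (y ∈ Hull l (av q) (π '' Iio d₀ ∪ ph.leaves) ↔ ∃ x < β, π x = y)) → False

end Pool.Agent.Helper17.OD
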