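import Pool.Agent.Helper17.OD.Forcing

/-!
# Goals, module FP (the forcing). Paper: `PAPER.md`, section 6.
-/

namespace Pool.Agent.Helper17.OD

open Set

/-- TRC. Transfinite recursion with (`lt`-least) choices. `G_REC`, `G_LST`, `G_TRE`, `G_SOB` may be assumed. -/
def G_TRC : Prop := ∀ (k : O) (S S' : Set (Set T)), SOM k S S' → ∀ (l : O), l < k →
  ∀ (Φ : T → T → Set T → Prop) (A : Set T), A ∈ S' →
  SD k S S' (fun e σ => Φ e.fst e.snd (σ 0)) →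
  (∀ x < l, ∀ q : O → T, grt x q ∈ S' → (∀ y < x, q y ∈ A ∧ Φ (.ord y) (q y) (grt y q)) →
    ∃ v ∈ A, Φ (.ord x) v (grt x q)) →
  ∃ q : O → T, grt l q ∈ S' ∧ ∀ x < l, q x ∈ A ∧ Φ (.ord x) (q x) (grt x q)

/-- CNC. Canonical codes. `G_LTO`, `G_LTW`, `G_DEC`, `G_TRE` may be assumed. (For `c ∈ D (Iio k)`, `k` a limit, `glt c' c`
implies `c' ∈ D (Iio k)`.) -/
def G_CNC : Prop :=
  (∀ X : Set T, (∃ c, dec c = X) → dec (canon X) = X ∧ Canon (canon X)) ∧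
  (∀ c, Canon c → canon (dec c) = c) ∧
  (∀ (X : Set T) (b : O), (∃ c ∈ D (Iio b), dec c = X) → canon X ∈ D (Iio b)) ∧
  (∀ c c', Canon c → Canon c' → dec c = dec c' → c = c') ∧
  (∀ (t : T) (a : O), t ∈ D (Iio a) ↔ supl t ≤ a) ∧
  (WellFounded glt) ∧
  (∀ (k : O) (S S' : Set (Set T)), SOM k S S' → SD k S S' (fun e _ => Canon e) ∧
    SD k S S' (fun e _ => glt e.fst e.snd))

/-- `x < ln p i` with tree arguments. -/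
def LnT (p ti tx : T) : Prop := ∃ i x : O, ti = .ord i ∧ tx = .ord x ∧ x < ln p i

/-- LNS. `ln` is SD. `G_DEC`, `G_TRE` may be assumed. -/
def G_LNS : Prop := ∀ (k : O) (S S' : Set (Set T)), SOM k S S' →
  SD k S S' (fun e _ => LnT e.fst e.snd.fst e.snd.snd)

/-- ETA. 6.1. `G_TRC`, `G_DEC`, `G_TRE`, `G_SOB` may be assumed. For given `η` below `j` the set
`{a | a < j ∨ ∃ i < j, a < η i}` is bounded below `κ` by (M4), take `r` from (M5), then `η j` least by (M6). -/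
def G_ETA : Prop := ∀ w κ γ : O, Gnd w κ γ → ∃ η : O → O, EtaH w κ γ η

/-- PUN. Unfolding of the definition. -/
def G_PUN : Prop := ∀ F : FD, (∀ (j : O) (q p : T), F.Le j q p ↔ LeS F.P F.Le j q p) ∧
  ∀ (j : O) (p : T), p ∈ F.P j ↔ CondS F.M F.w F.κ F.η F.P F.Le j p

/-- PBD. Conditions of length `j < κ` have codes below some `r < η j`; they are closed upwards in the
length. `G_PUN`, `G_CNC` may be assumed. -/
def G_PBD : Prop := ∀ F : FD, (∀ j < F.κ, ∃ r < F.η j, F.P j ⊆ D (Iio r)) ∧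
  (∀ j, F.P j ⊆ D (Iio F.κ)) ∧ (∀ i j, i ≤ j → F.P i ⊆ F.P j) ∧
  (∀ j, ∀ p ∈ F.P j, dec p ∈ F.M ∧ ∃ d < F.κ, ∀ i, d ≤ i → ln p i = 0 ∧ ∀ x, nm p i x = ∅) ∧
  (∀ j, ∀ p ∈ F.P j, ∀ i, j ≤ i → ln p i = 0) ∧
  (∀ j, ∀ p ∈ F.P j, ∀ i x, ln p i ≤ x → nm p i x = ∅) ∧
  (∀ p ∈ F.P F.κ, ∀ j < F.κ, (∀ i, j ≤ i → ln p i = 0) → p ∈ F.P j) ∧
  (∀ j, ∀ p ∈ F.P j, dec p = {z | ∃ i < j, i < F.κ ∧ ∃ x < ln p i,
    z = .pr (.ord i) (.pr (.nat 0) (.ord x)) ∨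
    ∃ s ∈ nm p i x, z = .pr (.ord i) (.pr (.nat 1) (.pr (.ord x) s))})

/-- PIM. The forcing is in the ground model. `G_REC`, `G_PUN`, `G_CNC`, `G_LNS`, `G_DEC`, `G_TRE`, `G_SOB` may be
assumed. Recursion on `x = ord j`, `F x = {pr (nat 0) p | p ∈ P j} ∪ {pr (nat 1) (pr q p) | q, p ∈ D κ, Le j q p}`. -/
def G_PIM : Prop := ∀ F : FD,
  SD F.γ F.M F.M (fun e _ => ∃ j ≤ F.κ, e.fst = .ord j ∧ e.snd ∈ F.P j) ∧
  SD F.γ F.M F.M (fun e _ => ∃ j ≤ F.κ, e.fst = .ord j ∧ e.snd.fst ∈ D (Iio F.κ) ∧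
    e.snd.snd ∈ D (Iio F.κ) ∧ F.Le j e.snd.fst e.snd.snd) ∧
  ∀ j ≤ F.κ, F.P j ∈ F.M

/-- PRO. (P1): `Le j` is a preorder on all trees, decreasing in `j`. `G_PUN` may be assumed. -/
def G_PRO : Prop := ∀ F : FD, (∀ j p, F.Le j p p) ∧
  (∀ j p q r, F.Le j r q → F.Le j q p → F.Le j r p) ∧
  (∀ i j q p, i ≤ j → F.Le j q p → F.Le i q p) ∧ (∀ q p, F.Le 0 q p) ∧
  (∀ j q p, F.Le j q p → ∀ i < j, ln p i ≤ ln q i)

/-- Same coordinates below `j`. -/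
def EqB (j : O) (p q : T) : Prop := ∀ i < j, ln p i = ln q i ∧ ∀ x < ln p i, nm p i x = nm q i x

/-- EQV. The order depends only on the coordinates; extensionality. `G_PUN`, `G_PBD`, `G_CNC` may be
assumed. -/
def G_EQV : Prop := ∀ F : FD,
  (∀ j p p' r, EqB j p p' → (F.Le j r p ↔ F.Le j r p') ∧ (F.Le j p r ↔ F.Le j p' r) ∧ F.Le j p p') ∧
  (∀ j, j ≤ F.κ → ∀ p ∈ F.P j, ∀ q ∈ F.P j, EqB j p q → p = q) ∧
  (∀ i j, i ≤ j → ∀ p q, (∀ x, i ≤ x → x < j → ln q x = 0) → (F.Le i p q ↔ F.Le j p q))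

/-- BLD. Construction of conditions. `G_PUN`, `G_CNC`, `G_PBD` may be assumed. -/
def G_BLD : Prop := ∀ (F : FD) (j : O), j ≤ F.κ → ∀ (l : O → O) (N : O → O → Set T),
  {z : T | ∃ i < j, i < F.κ ∧ ∃ x < l i, z = .pr (.ord i) (.pr (.nat 0) (.ord x)) ∨
    ∃ s ∈ N i x, z = .pr (.ord i) (.pr (.nat 1) (.pr (.ord x) s))} ∈ F.M →
  (∃ d < F.κ, ∀ i < j, d ≤ i → l i = 0) →
  (∀ i < j, i < F.κ → l i < F.η i) →
  (∀ i < j, i < F.κ → ∀ x < l i, RegO (F.P i) (F.Le i) (N i x)) →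
  (∀ i < j, i < F.κ → Thin F.M F.w (F.P i) (N i) (l i)) →
  ∃ p ∈ F.P j, (∀ i < j, i < F.κ → ln p i = l i ∧ ∀ x < l i, nm p i x = N i x)

/-- RES. (P2): restrictions. `G_BLD`, `G_EQV`, `G_PUN`, `G_CNC`, `G_PBD`, `G_PIM`, `G_DEC` may be assumed. -/
def G_RES : Prop := ∀ F : FD, (∀ p ∈ F.P F.κ, ∀ j ≤ F.κ, res p j ∈ F.P j ∧ EqB j (res p j) p ∧
    (∀ i, j ≤ i → ln (res p j) i = 0) ∧ (∀ i ≤ j, res (res p j) i = res p i) ∧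
    (p ∈ F.P j → res p j = p) ∧ F.Le j (res p j) p ∧ F.Le j p (res p j) ∧
    F.Le F.κ p (res p j)) ∧
  (∀ p ∈ F.P F.κ, ∀ q ∈ F.P F.κ, ∀ j ≤ F.κ, EqB j p q → res p j = res q j) ∧
  SD F.γ F.M F.M (fun e _ => ∃ j ≤ F.κ, e.fst = .ord j ∧ e.snd.fst ∈ F.P F.κ ∧
    e.snd.snd = res e.snd.fst j)

/-- AMG. (P3): amalgams. `G_BLD`, `G_EQV`, `G_PUN`, `G_CNC`, `G_PBD`, `G_PIM`, `G_DEC`, `G_RES` may be assumed. -/
def G_AMG : Prop := ∀ F : FD, (∀ j < F.κ, ∀ s ∈ F.P j, ∀ p ∈ F.P F.κ, F.Le j s p →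
    am s p j ∈ F.P F.κ ∧ EqB j (am s p j) s ∧
    (∀ i, j ≤ i → i < F.κ → ln (am s p j) i = ln p i ∧ ∀ x, nm (am s p j) i x = nm p i x) ∧
    F.Le F.κ (am s p j) p ∧ res (am s p j) j = s ∧
    (∀ s' ∈ F.P j, F.Le j s' s → F.Le F.κ (am s' p j) (am s p j)) ∧
    (∀ q ∈ F.P F.κ, F.Le F.κ q p → F.Le j q s → F.Le F.κ q (am s p j)) ∧
    (∀ q ∈ F.P F.κ, F.Le F.κ q p → F.Le j s q → F.Le F.κ (am s q j) (am s p j))) ∧
  SD F.γ F.M F.M (fun e _ => ∃ j < F.κ, e.fst = .ord j ∧ e.snd.fst ∈ F.P j ∧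
    e.snd.snd.fst ∈ F.P F.κ ∧ F.Le j e.snd.fst e.snd.snd.fst ∧
    e.snd.snd.snd = am e.snd.fst e.snd.snd.fst j)

/-- PAD. (P4): padding, and padding with one full name. `G_BLD`, `G_EQV`, `G_PUN`, `G_PBD`, `G_PIM`, `G_PRO` may be
assumed. -/
def G_PAD : Prop := ∀ F : FD, ∀ i < F.κ, ∀ p ∈ F.P F.κ, ∀ a < F.η i, ln p i ≤ a →
  (∃ q ∈ F.P F.κ, F.Le F.κ q p ∧ ln q i = a ∧ (∀ x < ln p i, nm q i x = nm p i x) ∧
    (∀ x, ln p i ≤ x → nm q i x = ∅) ∧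
    (∀ j < F.κ, j ≠ i → ln q j = ln p j ∧ ∀ x, nm q j x = nm p j x)) ∧
  (∃ q ∈ F.P F.κ, F.Le F.κ q p ∧ ln q i = Order.succ a ∧ (∀ x < ln p i, nm q i x = nm p i x) ∧
    (∀ x < a, ln p i ≤ x → nm q i x = ∅) ∧ nm q i a = F.P i ∧
    (∀ j < F.κ, j ≠ i → ln q j = ln p j ∧ ∀ x, nm q j x = nm p j x))

/-- Supremum of the lengths of a sequence of conditions. -/
noncomputable def limL (q : O → T) (l i : O) : O := sInf {a | ∀ x < l, ln (q x) i ≤ a}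

/-- Names of the limit of a sequence of conditions. -/
def limN (q : O → T) (l i z : O) : Set T :=
  {s | ∃ x < l, z < ln (q x) i ∧ (∀ y < x, ¬ z < ln (q y) i) ∧ s ∈ nm (q x) i z}

/-- LMT. (P5): limits. `G_BLD`, `G_EQV`, `G_PUN`, `G_PBD`, `G_PIM`, `G_PRO`, `G_LNS` may be assumed. -/
def G_LMT : Prop := ∀ (F : FD) (l : O) (q : O → T), Order.IsSuccLimit l → l < F.κ →
  grt l q ∈ F.M → (∀ x < l, q x ∈ F.P F.κ) →
  (∀ x y, x < y → y < l → F.Le F.κ (q y) (q x)) →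
  (∀ i < F.κ, ∃ a < F.η i, ∀ x < l, ln (q x) i ≤ a) →
  (∃ d < F.κ, ∀ x < l, ∀ i, d ≤ i → ln (q x) i = 0) →
  (∀ i < F.κ, Thin F.M F.w (F.P i) (limN q l i) (limL q l i)) →
  ∃ p ∈ F.P F.κ, (∀ x < l, F.Le F.κ p (q x)) ∧
    ∀ i < F.κ, ln p i = limL q l i ∧ ∀ z < ln p i, nm p i z = limN q l i z

/-- SPL. Splitting sequences of type `w` in `M`: if `f` is a strictly increasing function on `w` in `M`
and the places `x < w` are labelled by ordinals `< d`, `d < w`, by a function in `M`, or by a nondecreasing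
function `h` in `M`, then there is a strictly increasing subsequence in `M` on which the label is constant, or
(second case only) strictly increasing. `w` is `M`-regular. `G_SOB`, `G_FUN`, `G_ENU`, `G_TRE`, `G_RNK` may be assumed. -/
def G_SPL : Prop := ∀ F : FD, ∀ h : O → O, gro F.w h ∈ F.M →
  ((∃ d < F.w, ∀ x < F.w, h x < d) → ∃ (g : O → O) (c : O), StrictMonoOn g (Iio F.w) ∧
    (∀ x < F.w, g x < F.w ∧ h (g x) = c) ∧ gro F.w g ∈ F.M) ∧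
  (MonotoneOn h (Iio F.w) → ∃ g : O → O, StrictMonoOn g (Iio F.w) ∧ (∀ x < F.w, g x < F.w) ∧
    gro F.w g ∈ F.M ∧ gro F.w (fun x => h (g x)) ∈ F.M ∧
    ((∃ c, ∀ x < F.w, h (g x) = c) ∨ StrictMonoOn (fun x => h (g x)) (Iio F.w)))

/-- CCL. Countable closure. `G_LMT`, `G_SPL`, `G_SOB`, `G_FUN`, `G_TRE`, `G_LNS`, `G_PBD` may be assumed. Lengths are bounded by
`M`-regularity of `η i`, supports by `M`-regularity of `κ`. -/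
def G_CCL : Prop := ∀ (F : FD) (q : ℕ → T), sq q ∈ F.M → (∀ n, q n ∈ F.P F.κ) →
  (∀ n, F.Le F.κ (q (n + 1)) (q n)) → ∃ p ∈ F.P F.κ, ∀ n, F.Le F.κ p (q n)

/-- GRD. 6.5: guards. `G_PAD`, `G_AMG`, `G_RES`, `G_EQV`, `G_PUN`, `G_PRO`, `G_PIM`, `G_PBD`, `G_LNS` may be assumed. -/
def G_GRD : Prop := ∀ (F : FD) (j x : O), j < F.κ →
  (∀ i < F.κ, j < i → RegO (F.P i) (F.Le i) (F.P i ∩ Gd j x)) ∧
  (∀ s ∈ F.P F.κ, ∀ t ∈ F.P F.κ, F.Le (Order.succ j) t s → s ∈ Gd j x → t ∈ Gd j x) ∧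
  (∀ s ∈ F.P F.κ, ∀ i < F.κ, j < i → (s ∈ Gd j x ↔ res s i ∈ Gd j x)) ∧
  (∀ s t : T, EqB (Order.succ j) s t → s ∈ F.P F.κ → t ∈ F.P F.κ → (s ∈ Gd j x ↔ t ∈ Gd j x)) ∧
  SD F.γ F.M F.M (fun e _ => ∃ y, e.fst = .ord y ∧ e.snd ∈ F.P F.κ ∧ e.snd ∈ Gd j y)

/-- ANT. Maximal antichains (recursion along `lt`). `G_REC`, `G_TRE`, `G_PIM`, `G_SOB`, `G_LTO`, `G_LTW` may be assumed. -/
def G_ANT : Prop := ∀ (F : FD) (j : O), j < F.κ → ∀ T₀ ∈ F.M, T₀ ⊆ F.P j →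
  ∃ A ∈ F.M, A ⊆ T₀ ∧ (∀ s ∈ A, ∀ t ∈ A, F.Cp j s t → s = t) ∧ ∀ t ∈ T₀, ∃ s ∈ A, F.Cp j s t

/-- MIX. 6.5, the mixture in (P6). `A` is an antichain in `P (j + 1)` contained in the guard, `r` a function in
`M`. `G_BLD`, `G_GRD`, `G_AMG`, `G_RES`, `G_EQV`, `G_PUN`, `G_PRO`, `G_PIM`, `G_PBD`, `G_LNS`, `G_SPL`, `G_SOB`, `G_FUN`, `G_TRE` may
be assumed. -/
def G_MIX : Prop := ∀ (F : FD) (j x : O), j < F.κ → x < F.η j → ∀ q ∈ F.P F.κ, ∀ A ∈ F.M,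
  A ⊆ F.P (Order.succ j) → (∀ s ∈ A, ∀ t ∈ A, F.Cp (Order.succ j) s t → s = t) →
  (∀ t ∈ A, t ∈ Gd j x ∧ F.Le (Order.succ j) t q) →
  ∀ r : T → T, gr A r ∈ F.M →
  (∀ t ∈ A, r t ∈ F.P F.κ ∧ F.Le F.κ (r t) q ∧ res (r t) (Order.succ j) = t) →
  ∃ q' ∈ F.P F.κ, F.Le F.κ q' q ∧ EqB (Order.succ j) q' q ∧
    (∀ i < F.κ, j < i → ∀ z, ln q i ≤ z → z < ln q' i → nm q' i z ⊆ Gd j x) ∧
    ∀ t ∈ A, F.Le F.κ (am t q' (Order.succ j)) (r t)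

/-- ONE. (P6): one step. `G_ANT`, `G_MIX`, `G_AMG`, `G_RES`, `G_PRO`, `G_EQV`, `G_LST`, `G_PIM`, `G_SOB`, `G_FUN`, `G_GRD` may be
assumed. -/
def G_ONE : Prop := ∀ (F : FD) (j x : O), j < F.κ → x < F.η j → ∀ q ∈ F.P F.κ, ∀ E, F.DO E →
  ∃ q' ∈ F.P F.κ, F.Le F.κ q' q ∧ EqB (Order.succ j) q' q ∧
    (∀ i < F.κ, j < i → ∀ z, ln q i ≤ z → z < ln q' i → nm q' i z ⊆ Gd j x) ∧
    ∀ t ∈ F.P (Order.succ j), F.Le (Order.succ j) t q → t ∈ Gd j x →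
      ∃ t' ∈ F.P (Order.succ j), F.Le (Order.succ j) t' t ∧ am t' q' (Order.succ j) ∈ E

/-- GLM. (P5'): guarded limits. `G_LMT`, `G_SPL`, `G_GRD`, `G_PBD`, `G_EQV`, `G_PUN`, `G_LNS`, `G_SOB`, `G_FUN`, `G_TRE` may be
assumed. -/
def G_GLM : Prop := ∀ (F : FD) (j l : O) (q : O → T), j < F.κ → Order.IsSuccLimit l → l ≤ F.η j →
  grt l q ∈ F.M → (∀ x < l, q x ∈ F.P F.κ) →
  (∀ x y, x < y → y < l → F.Le F.κ (q y) (q x)) →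
  (∀ x < l, EqB (Order.succ j) (q x) (q 0)) →
  (∀ x < l, ∀ i < F.κ, j < i → ∀ z, ln (q x) i ≤ z → z < ln (q (Order.succ x)) i →
    nm (q (Order.succ x)) i z ⊆ Gd j x) →
  (∀ y < l, Order.IsSuccLimit y → ∀ i < F.κ, ln (q y) i = limL q y i) →
  ∃ p ∈ F.P F.κ, (∀ x < l, F.Le F.κ p (q x)) ∧ EqB (Order.succ j) p (q 0) ∧
    ∀ i < F.κ, ln p i = limL q l i

/-- BKH. Bookkeeping (ENUM in the paper). Order `D (Iio (η j))` by `glt`; its initial segments are contained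
in some `D (Iio a)`, `a < η j`, and have type `< η j` by `M`-regularity. `G_RNK`, `G_CNC`, `G_SOB`, `G_FUN`, `G_TRE` may be
assumed. -/
def G_BKH : Prop := ∀ (F : FD) (j μ : O), j < F.κ → μ < F.η j → ∃ h : O → T,
  (∀ x < F.η j, h x ∈ D (Iio μ)) ∧ (∀ y ∈ D (Iio μ), ∀ a < F.η j, ∃ x, a ≤ x ∧ x < F.η j ∧ h x = y) ∧
  grt (F.η j) h ∈ F.M

/-- RSQ. The sequence in the proof of (P7). `G_TRC`, `G_ONE`, `G_GLM`, `G_BKH`, `G_GRD`, `G_AMG`, `G_PIM`, `G_LNS`, `G_SOB`,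
`G_FUN`, `G_TRE` may be assumed. -/
def G_RSQ : Prop := ∀ (F : FD) (j μ : O), j < F.κ → μ < F.η j → ∀ (E : T → Set T),
  (∀ y ∈ D (Iio μ), F.DO (E y)) → {z : T | ∃ y ∈ D (Iio μ), ∃ p ∈ E y, z = .pr y p} ∈ F.M →
  ∀ h : O → T, (∀ x < F.η j, h x ∈ D (Iio μ)) → grt (F.η j) h ∈ F.M → ∀ p ∈ F.P F.κ,
  ∃ q : O → T, grt (F.η j) q ∈ F.M ∧ q 0 = p ∧ (∀ x < F.η j, q x ∈ F.P F.κ) ∧
    (∀ x y, x < y → y < F.η j → F.Le F.κ (q y) (q x)) ∧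
    (∀ x < F.η j, EqB (Order.succ j) (q x) p) ∧
    (∀ x < F.η j, ∀ i < F.κ, j < i → ∀ z, ln (q x) i ≤ z → z < ln (q (Order.succ x)) i →
      nm (q (Order.succ x)) i z ⊆ Gd j x) ∧
    (∀ y < F.η j, Order.IsSuccLimit y → ∀ i < F.κ, ln (q y) i = limL q y i) ∧
    (∀ x < F.η j, ∀ t ∈ F.P (Order.succ j), F.Le (Order.succ j) t p → t ∈ Gd j x →
      ∃ t' ∈ F.P (Order.succ j), F.Le (Order.succ j) t' t ∧
        am t' (q (Order.succ x)) (Order.succ j) ∈ E (h x))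

/-- RED. (P7): reduction. `G_RSQ`, `G_GLM`, `G_BKH`, `G_PAD`, `G_AMG`, `G_RES`, `G_PRO`, `G_EQV`, `G_GRD` may be assumed. -/
def G_RED : Prop := ∀ (F : FD) (j μ : O), j < F.κ → μ < F.η j → ∀ (E : T → Set T),
  (∀ y ∈ D (Iio μ), F.DO (E y)) → {z : T | ∃ y ∈ D (Iio μ), ∃ p ∈ E y, z = .pr y p} ∈ F.M →
  ∀ p ∈ F.P F.κ, ∃ q ∈ F.P F.κ, F.Le F.κ q p ∧ EqB (Order.succ j) q p ∧
    ∀ y ∈ D (Iio μ), ∀ t ∈ F.P (Order.succ j), F.Le (Order.succ j) t q →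
      ∃ t' ∈ F.P (Order.succ j), F.Le (Order.succ j) t' t ∧ am t' q (Order.succ j) ∈ E y

/-! ### Homogeneity (P11) -/

/-- EQL. Extension to equal lengths. `G_BLD`, `G_PBD`, `G_EQV`, `G_PUN`, `G_PIM`, `G_LNS` may be assumed. -/
def G_EQL : Prop := ∀ F : FD, ∀ p ∈ F.P F.κ, ∀ q ∈ F.P F.κ, ∃ p' ∈ F.P F.κ, ∃ q' ∈ F.P F.κ,
  F.Le F.κ p' p ∧ F.Le F.κ q' q ∧ ∀ i < F.κ, ln p' i = ln q' i

/-- The image of the name `b` (coordinate `i`) under the map `e`, below `p'`. -/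
def TrN (F : FD) (p' : T) (i : O) (e : T → T) (b : Set T) : Set T :=
  {s | s ∈ F.P i ∧ ∀ s' ∈ F.P i, F.Le i s' s → ∃ s'' ∈ F.P i, F.Le i s'' s' ∧
    ∃ v ∈ b, v ∈ F.P i ∧ F.Le i v p' ∧ F.Le i s'' (e v)}

/-- One step of the definition of the isomorphism. -/
def EiS (F : FD) (p' q' : T) (e : O → T → T) (j : O) (r : T) : Set T :=
  {z | ∃ i < j, i < F.κ ∧ ∃ x < ln r i, z = .pr (.ord i) (.pr (.nat 0) (.ord x)) ∨
    ∃ s, z = .pr (.ord i) (.pr (.nat 1) (.pr (.ord x) s)) ∧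
      ((x < ln q' i ∧ s ∈ nm q' i x) ∨ (ln q' i ≤ x ∧ s ∈ TrN F p' i (e i) (nm r i x)))}

/-- The isomorphism (6.6): `Ei F p' q' j` maps conditions of length `j` below `p'` to conditions
below `q'`. -/
noncomputable def Ei (F : FD) (p' q' : T) : O → T → T :=
  WellFounded.fix (r := (· < · : O → O → Prop)) wellFounded_lt (fun j ih r =>
    canon (EiS F p' q' (fun i => if h : i < j then ih i h else fun t => t) j r))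

/-- EIU. Unfolding. -/
def G_EIU : Prop := ∀ (F : FD) (p' q' : T) (j : O) (r : T),
  Ei F p' q' j r = canon (EiS F p' q' (Ei F p' q') j r)

/-- EIM. The isomorphism is in `M`. `G_EIU`, `G_REC`, `G_PIM`, `G_CNC`, `G_LNS`, `G_DEC`, `G_TRE`, `G_SOB` may be assumed. -/
def G_EIM : Prop := ∀ (F : FD), ∀ p' ∈ F.P F.κ, ∀ q' ∈ F.P F.κ,
  (∀ i < F.κ, ln p' i = ln q' i) →
  SD F.γ F.M F.M (fun e _ => ∃ j ≤ F.κ, e.fst = .ord j ∧ e.snd.fst ∈ F.P j ∧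
    F.Le j e.snd.fst p' ∧ Ei F p' q' j e.snd.fst = e.snd.snd)

/-- The properties of the isomorphism up to length `j`. -/
structure EiP (F : FD) (p' q' : T) (j : O) : Prop where
  mem : ∀ r ∈ F.P j, F.Le j r p' → Ei F p' q' j r ∈ F.P j ∧ F.Le j (Ei F p' q' j r) q'
  len : ∀ r ∈ F.P j, F.Le j r p' → ∀ i < j, i < F.κ → ln (Ei F p' q' j r) i = ln r i
  mono : ∀ r ∈ F.P j, ∀ s ∈ F.P j, F.Le j s r → F.Le j r p' →
    F.Le j (Ei F p' q' j s) (Ei F p' q' j r)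
  inv : ∀ r ∈ F.P j, F.Le j r p' →
    F.Le j (Ei F q' p' j (Ei F p' q' j r)) r ∧ F.Le j r (Ei F q' p' j (Ei F p' q' j r))
  rs : ∀ r ∈ F.P j, F.Le j r p' → ∀ i ≤ j, i ≤ F.κ →
    Ei F p' q' i (res r i) = res (Ei F p' q' j r) i

/-- EIH. The induction step of 6.6 (both directions at once). `G_EIU`, `G_EIM`, `G_BLD`, `G_EQV`, `G_PUN`, `G_PRO`, `G_PBD`,
`G_PIM`, `G_RES`, `G_SPL`, `G_LNS`, `G_CNC`, `G_SOB`, `G_FUN` may be assumed. -/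
def G_EIH : Prop := ∀ (F : FD), ∀ p' ∈ F.P F.κ, ∀ q' ∈ F.P F.κ,
  (∀ i < F.κ, ln p' i = ln q' i) → ∀ j ≤ F.κ,
  (∀ i < j, EiP F p' q' i ∧ EiP F q' p' i) → EiP F p' q' j

end Pool.Agent.Helper17.OD
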