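import Pool.Agent.Helper17.OD.GoalsFP

/-!
# Goals, module GE (the generic extension). Paper: `PAPER.md`, section 7.
-/

namespace Pool.Agent.Helper17.OD

open Set

/-- The extension, as needed for the model `V` (section 4, (V1)-(V4)). -/
structure ExtV (w κ : O) (S : Set (Set T)) : Prop where
  cnt : S.Countable
  som : SOM κ S S
  con : SOM κ (Con κ) (Con κ)
  sub : Con κ ⊆ S
  omw : Ordinal.omega0 < w
  wk : w < κ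
  wlim : Order.IsSuccLimit w
  pe : ∀ d < κ, ∃ X ∈ S, ∀ Y ∈ S, Y ⊆ D (Iio d) → ∃ i ∈ D (Iio κ), Y = {x | Tr.pr i x ∈ X}
  v2 : ∀ a : ℕ → T, (∀ n, a n ∈ D (Iio κ)) → sq a ∈ S → sq a ∈ Con κ
  v3 : ∀ (φ : SF), ∀ e ∈ D (Iio κ),
    {x | x ∈ D (Iio w) ∧ Sat κ S φ (.pr x e) (fun _ => ∅)} ∈ Con κ
  v4 : ∀ ρ < κ, ∃ X ∈ S, (∀ t ∈ X, t.IsOrd) ∧
    (∃ g : O → O, StrictMonoOn g (Iio ρ) ∧ ∀ x < ρ, Tr.ord (g x) ∈ X) ∧
    ¬ ∃ f : O → O, StrictMonoOn f (Iio w) ∧ gro w f ∈ Con κ ∧ ∀ x < w, Tr.ord (f x) ∈ X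
  h3 : ∀ a : ℕ → T, (∀ n, a n ∈ D (Iio w)) → sq a ∈ Con κ →
    (∃ u ∈ D (Iio w), sq a = dec u) ∧ ∃ i < w, ∀ n, a n ∈ D (Iio i)

/-- EXT. (Assembly of the packets below.) -/
def G_EXT : Prop := ∃ (w κ : O) (S : Set (Set T)), ExtV w κ S

/-! ### Names -/

/-- Names (for subsets of `D (Iio μ)`, `μ < κ`, with conditions in `P i`, `i < κ`). -/
def IsNm (F : FD) (c : T) : Prop :=
  c ∈ D (Iio F.κ) ∧ Canon c ∧ ∃ i < F.κ, ∀ z ∈ dec c, ∃ y, ∃ p ∈ F.P i, z = Tr.pr y p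

/-- Evaluation. -/
def evl (G X : Set T) : Set T := {y | ∃ p ∈ G, Tr.pr y p ∈ X}

/-- The sets of the extension. -/
def SG (F : FD) (G : Set T) : Set (Set T) := {X | ∃ c, IsNm F c ∧ X = evl G (dec c)}

/-- Push. -/
def tcons (d : T) (c : ℕ → T) : ℕ → T
  | 0 => d
  | n + 1 => c n

/-- The forcing relation. The set variable `i` is the name `c i`. -/
def Frc (F : FD) : SF → T → T → (ℕ → T) → Prop
  | .eq s t, _, e, _ => tval s e = tval t e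
  | .llt s t, _, e, _ => (tval s e).llt (tval t e)
  | .isOrd s, _, e, _ => (tval s e).IsOrd
  | .mem s i, p, e, c => ∀ q ∈ F.P F.κ, F.Le F.κ q p → ∃ r ∈ F.P F.κ, F.Le F.κ r q ∧
      ∃ u ∈ F.P F.κ, F.Le F.κ r u ∧ Tr.pr (tval s e) u ∈ dec (c i)
  | .nand φ ψ, p, e, c => ∀ q ∈ F.P F.κ, F.Le F.κ q p → ¬ (Frc F φ q e c ∧ Frc F ψ q e c)
  | .exT φ, p, e, c => ∀ q ∈ F.P F.κ, F.Le F.κ q p → ∃ r ∈ F.P F.κ, F.Le F.κ r q ∧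
      ∃ x ∈ D (Iio F.κ), Frc F φ r (.pr x e) c
  | .exS φ, p, e, c => ∀ q ∈ F.P F.κ, F.Le F.κ q p → ∃ r ∈ F.P F.κ, F.Le F.κ r q ∧
      ∃ d, IsNm F d ∧ Frc F φ r e (tcons d c)

/-- KSM. Consequences for `Con κ`: it is a second order structure, its members are the members of
`M` which are contained in some `D (Iio d)`, `d < κ`; (H3). `Sat κ (Con κ) φ e (dseq K)` is `Tru κ c (pr e K)` by
`G_TRS`. `G_TRS`, `G_TRD`, `G_DEC`, `G_SOB` may be assumed. Collection by (M4) and `lt`-least witnesses (`G_LST`). -/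
def G_KSM : Prop := ∀ w κ γ : O, Gnd w κ γ → SOM κ (Con κ) (Con κ) ∧
  (∀ X : Set T, X ∈ Con κ ↔ X ∈ Con γ ∧ ∃ d < κ, X ⊆ D (Iio d)) ∧
  (∀ a : ℕ → T, (∀ n, a n ∈ D (Iio w)) → sq a ∈ Con κ →
    (∃ u ∈ D (Iio w), sq a = dec u) ∧ ∃ i < w, ∀ n, a n ∈ D (Iio i)) ∧
  (Con γ).Countable

/-- GNE. Generic filters exist (`M` is countable). `G_PRO` may be assumed. -/
def G_GNE : Prop := ∀ (F : FD), ∀ p ∈ F.P F.κ, ∃ G, F.Gen G ∧ p ∈ G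

/-- GNF. Simple facts on generic filters. `G_AMG`, `G_RES`, `G_PRO`, `G_EQV`, `G_PIM`, `G_PBD`, `G_SOB` may be assumed. (For
`E` dense below `p`: use the dense open set of the conditions below some member of `E`, or incompatible with `p`.) -/
def G_GNF : Prop := ∀ (F : FD) (G : Set T), F.Gen G →
  (∀ j < F.κ, ∀ p ∈ G, res p j ∈ G) ∧
  (∀ j < F.κ, ∀ t ∈ G, t ∈ F.P j → ∀ q ∈ G, F.Le j t q → am t q j ∈ G) ∧
  (∀ p ∈ G, ∀ E ∈ F.M, (∀ q ∈ F.P F.κ, F.Le F.κ q p → ∃ r ∈ E, r ∈ F.P F.κ ∧ F.Le F.κ r q) →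
    ∃ r ∈ E, r ∈ G) ∧
  (∀ s ∈ G, ∀ t ∈ G, ∀ j, s ∈ F.P j → t ∈ F.P j → j < F.κ → ∃ u ∈ G, u ∈ F.P j ∧ F.Le j u s ∧
    F.Le j u t)

/-- FMO. The forcing relation is monotone, and it holds if it holds densely. `G_PRO` may be assumed. -/
def G_FMO : Prop := ∀ (F : FD) (φ : SF) (e : T) (c : ℕ → T),
  (∀ p ∈ F.P F.κ, ∀ q ∈ F.P F.κ, F.Le F.κ q p → Frc F φ p e c → Frc F φ q e c) ∧
  (∀ p ∈ F.P F.κ, (∀ q ∈ F.P F.κ, F.Le F.κ q p → ∃ r ∈ F.P F.κ, F.Le F.κ r q ∧ Frc F φ r e c) →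
    Frc F φ p e c) ∧
  (∀ p, ¬ (Frc F φ p e c ∧ Frc F (.nand φ φ) p e c) ∨ p ∉ F.P F.κ) ∧
  (∀ p ∈ F.P F.κ, ∃ q ∈ F.P F.κ, F.Le F.κ q p ∧ (Frc F φ q e c ∨ Frc F (.nand φ φ) q e c))

/-- FSD. The forcing relation is in `M`. Induction on `φ`. `G_PIM`, `G_CNC`, `G_DEC`, `G_TRE` may be assumed. The set
variables are listed in a tree `K` (`nth`, `dseq` of `GoalsGM.lean`); push is `pr`. -/
def G_FSD : Prop := ∀ (F : FD), SD F.γ F.M F.M (fun e _ => IsNm F e) ∧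
  ∀ φ : SF, SD F.γ F.M F.M (fun e _ => e.fst ∈ F.P F.κ ∧ e.snd.fst ∈ D (Iio F.κ) ∧
    e.snd.snd ∈ D (Iio F.κ) ∧ Frc F φ e.fst e.snd.fst (nth e.snd.snd))

/-- TRL. The truth lemma. `G_FMO`, `G_FSD`, `G_GNF`, `G_TRS` (second part) may be assumed. -/
def G_TRL : Prop := ∀ (F : FD) (G : Set T), F.Gen G → ∀ (φ : SF), ∀ e ∈ D (Iio F.κ),
  ∀ c : ℕ → T, (∀ i, IsNm F (c i)) →
  (Sat F.κ (SG F G) φ e (fun i => evl G (dec (c i))) ↔ ∃ p ∈ G, Frc F φ p e c)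

/-- NMB. Sets in `M` bounded in `κ` consisting of pairs with second components in some `P i` give sets of
the extension; `Con κ ⊆ SG` (check names); elements of `SG` are bounded. `G_CNC`, `G_KSM`, `G_PBD`, `G_PIM`, `G_SOB`, `G_GNF`
may be assumed. -/
def G_NMB : Prop := ∀ (F : FD) (G : Set T), F.Gen G →
  (∀ τ ∈ F.M, (∃ i < F.κ, ∀ z ∈ τ, ∃ y, ∃ p ∈ F.P i, z = Tr.pr y p) →
    (∃ μ < F.κ, ∀ z ∈ τ, z.fst ∈ D (Iio μ)) → evl G τ ∈ SG F G) ∧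
  Con F.κ ⊆ SG F G ∧ (∀ X ∈ SG F G, ∃ d < F.κ, X ⊆ D (Iio d)) ∧ (SG F G).Countable

/-- NRD. 7.2: name reduction. `G_RED`, `G_GNF`, `G_NMB`, `G_PIM`, `G_AMG`, `G_PRO`, `G_SOB`, `G_FUN`, `G_PBD` may be assumed.
`E y` = the set of the conditions which decide `y`: either no extension is below some `u` with `pr y u ∈ τ`, or all extensions
can be extended below such a `u`. `c` = (canonical code of) the set of `pr y t`, `t ∈ P (j + 1)` with `am t q (j + 1)` in `E y` of the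
second kind. -/
def G_NRD : Prop := ∀ (F : FD) (G : Set T), F.Gen G → ∀ (j μ : O), j < F.κ → μ < F.η j →
  ∀ τ ∈ F.M, (∀ z ∈ τ, ∃ y ∈ D (Iio μ), ∃ p ∈ F.P F.κ, z = Tr.pr y p) →
  ∃ c, IsNm F c ∧ (∀ z ∈ dec c, ∃ y ∈ D (Iio μ), ∃ p ∈ F.P (Order.succ j), z = Tr.pr y p) ∧
    evl G τ = evl G (dec c)

/-- SVC. 7.3: comprehension. `G_TRL`, `G_FSD`, `G_NRD`, `G_NMB`, `G_TRS` may be assumed. -/
def G_SVC : Prop := ∀ (F : FD) (G : Set T), F.Gen G → ∀ (φ : SF), ∀ e ∈ D (Iio F.κ),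
  ∀ σ : ℕ → Set T, (∀ i, σ i ∈ SG F G) → ∀ d < F.κ,
    {x | x ∈ D (Iio d) ∧ Sat F.κ (SG F G) φ (.pr x e) σ} ∈ SG F G

/-- SVB. 7.3: collection. `G_TRL`, `G_FSD`, `G_RED`, `G_GNF`, `G_PBD`, `G_LST`, `G_SOB`, `G_FUN`, `G_FMO`, `G_TRS` may be assumed. -/
def G_SVB : Prop := ∀ (F : FD) (G : Set T), F.Gen G → ∀ (φ : SF), ∀ e ∈ D (Iio F.κ),
  ∀ σ : ℕ → Set T, (∀ i, σ i ∈ SG F G) → ∀ d < F.κ,
    (∀ x ∈ D (Iio d), ∃ y ∈ D (Iio F.κ), Sat F.κ (SG F G) φ (.pr y (.pr x e)) σ) →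
    ∃ b < F.κ, ∀ x ∈ D (Iio d), ∃ y ∈ D (Iio b), Sat F.κ (SG F G) φ (.pr y (.pr x e)) σ

/-- SVP. 7.3: power enumeration. `G_NRD`, `G_NMB`, `G_CNC`, `G_PIM`, `G_SOB`, `G_DEC` may be assumed. -/
def G_SVP : Prop := ∀ (F : FD) (G : Set T), F.Gen G → ∀ d < F.κ, ∃ X ∈ SG F G,
  ∀ Y ∈ SG F G, Y ⊆ D (Iio d) → ∃ i ∈ D (Iio F.κ), Y = {x | Tr.pr i x ∈ X}

/-- SV2. 7.4: no new `ω`-sequences. `G_CCL`, `G_GNF`, `G_KSM`, `G_DCH`, `G_LST`, `G_SOB`, `G_FUN`, `G_PIM`, `G_TRL` may be assumed. -/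
def G_SV2 : Prop := ∀ (F : FD) (G : Set T), F.Gen G → ∀ a : ℕ → T,
  (∀ n, a n ∈ D (Iio F.κ)) → sq a ∈ SG F G → sq a ∈ Con F.κ

/-- The generic set of ordinals at the coordinate `j`. -/
def Gx (G : Set T) (j : O) : Set T :=
  {t | ∃ x, t = .ord x ∧ ∃ p ∈ G, x < ln p j ∧ res p j ∈ nm p j x}

/-- GX1. 7.5: `Gx G j` is in the extension, unbounded in `η j`, and thin. `G_NMB`, `G_GNF`, `G_PAD`, `G_AMG`, `G_RES`, `G_PUN`,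
`G_PIM`, `G_LNS`, `G_PRO`, `G_KSM` may be assumed. -/
def G_GX1 : Prop := ∀ (F : FD) (G : Set T), F.Gen G → ∀ j < F.κ, Gx G j ∈ SG F G ∧
  (∀ a < F.η j, ∃ x, a ≤ x ∧ x < F.η j ∧ Tr.ord x ∈ Gx G j) ∧
  (∀ t ∈ Gx G j, t ∈ D (Iio (F.η j))) ∧
  ¬ ∃ f : O → O, StrictMonoOn f (Iio F.w) ∧ gro F.w f ∈ Con F.κ ∧
    ∀ x < F.w, Tr.ord (f x) ∈ Gx G j

/-- GX2. 7.5: in the extension there is no function from `ρ < η j` onto an unbounded subset of `η (j + 1)`.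
Decide the values: `E x` = the conditions deciding the value at `x` or that there is none; (P7) for `μ > ρ`; `M`-regularity of
`η (j + 1)`. `G_RED`, `G_TRL`, `G_FSD`, `G_FMO`, `G_GNF`, `G_PBD`, `G_SOB`, `G_FUN`, `G_LST`, `G_TRS` may be assumed. -/
def G_GX2 : Prop := ∀ (F : FD) (G : Set T), F.Gen G → ∀ j < F.κ, ∀ ρ < F.η j, ∀ g : O → O,
  gro ρ g ∈ SG F G → (∀ x < ρ, g x < F.η (Order.succ j)) →
  ∃ b < F.η (Order.succ j), ∀ x < ρ, g x < b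

/-- SV4. (V4) from GX1, GX2 (`ENU` in the extension for the enumeration of `Gx G (j + 1)`). `G_ENU` may be assumed, and
`SOM κ (SG F G) (SG F G)` is a hypothesis. -/
def G_SV4 : Prop := ∀ (F : FD) (G : Set T), F.Gen G → SOM F.κ (SG F G) (SG F G) →
  ∀ ρ < F.κ, ∃ X ∈ SG F G, (∀ t ∈ X, t.IsOrd) ∧
    (∃ g : O → O, StrictMonoOn g (Iio ρ) ∧ ∀ x < ρ, Tr.ord (g x) ∈ X) ∧
    ¬ ∃ f : O → O, StrictMonoOn f (Iio F.w) ∧ gro F.w f ∈ Con F.κ ∧ ∀ x < F.w, Tr.ord (f x) ∈ X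

/-- HGT. Transfer of a generic filter by the isomorphism of (P11): `G'` is generic, contains `q'`, and gives the
same sets. All properties of the isomorphism are available: `∀ j ≤ κ, EiP F p' q' j` and conversely. `G_EIM`, `G_PRO`, `G_RES`,
`G_GNF`, `G_NMB`, `G_PIM`, `G_SOB`, `G_PBD`, `G_EQV` may be assumed. -/
def G_HGT : Prop := ∀ (F : FD), ∀ p' ∈ F.P F.κ, ∀ q' ∈ F.P F.κ,
  (∀ i < F.κ, ln p' i = ln q' i) → (∀ j ≤ F.κ, EiP F p' q' j ∧ EiP F q' p' j) →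
  ∀ G, F.Gen G → p' ∈ G → ∃ G', F.Gen G' ∧ q' ∈ G' ∧ SG F G' = SG F G

/-- SV3. (V3). `G_HGT`, `G_EQL`, `G_GNE`, `G_TRL`, `G_FSD`, `G_FMO`, `G_KSM`, `G_SOB` may be assumed. The hypothesis on `EiP` is
discharged in the assembly. The names of `∅` are `canon ∅`. -/
def G_SV3 : Prop := ∀ (F : FD), (∀ p' ∈ F.P F.κ, ∀ q' ∈ F.P F.κ,
    (∀ i < F.κ, ln p' i = ln q' i) → ∀ j ≤ F.κ, EiP F p' q' j ∧ EiP F q' p' j) →
  ∀ G, F.Gen G → ∀ (φ : SF), ∀ e ∈ D (Iio F.κ),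
    {x | x ∈ D (Iio F.w) ∧ Sat F.κ (SG F G) φ (.pr x e) (fun _ => ∅)} ∈ Con F.κ

end Pool.Agent.Helper17.OD
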