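import Pool.Agent.Helper17.OD.GoalsSO

/-!
# Goals, module GM (the ground model). Paper: `PAPER.md`, section 5.
-/

namespace Pool.Agent.Helper17.OD

open Set
open Cardinal hiding univ

/-- `μ` is regular with respect to the functions on `D (Iio d)`, `d < μ`, in `M`. -/
def MReg (M : Set (Set T)) (μ : O) : Prop := ∀ d < μ, ∀ f : T → T,
  (∀ x ∈ D (Iio d), (f x).IsOrd ∧ f x ∈ D (Iio μ)) → gr (D (Iio d)) f ∈ M →
    ∃ b < μ, ∀ x ∈ D (Iio d), f x ∈ D (Iio b)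

/-- The ground model (M1)-(M6) of section 4. -/
structure Gnd (w κ γ : O) : Prop where
  cnt : (Iio γ).Countable
  omw : Ordinal.omega0 < w
  wk : w < κ
  kg : κ < γ
  wlim : Order.IsSuccLimit w
  klim : Order.IsSuccLimit κ
  m1 : SOM γ (Con γ) (Con γ)
  m2 : ∀ X ∈ Con γ, ∀ d < κ, X ⊆ D (Iio d) → ∃ c ∈ D (Iio κ), X = dec c
  m3 : ∀ X ∈ Con γ, ∀ d < w, X ⊆ D (Iio d) → ∃ c ∈ D (Iio w), X = dec c
  m4w : MReg (Con γ) w
  m4k : MReg (Con γ) κ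
  m5 : ∀ d < κ, ∃ b < κ, ∀ X ∈ Con γ, X ⊆ D (Iio d) → ∃ c ∈ D (Iio b), X = dec c
  m6 : ∀ d < κ, ∃ η, d < η ∧ η < κ ∧ Order.IsSuccLimit η ∧ MReg (Con γ) η

/-- GND. The ground model exists (assembly of the packets below). -/
def G_GND : Prop := ∃ w κ γ : O, Gnd w κ γ

/-! ### Real cardinals -/

/-- Real regularity with respect to trees. -/
def RReg (μ : O) : Prop := ∀ d < μ, ∀ f : T → O, (∀ x ∈ D (Iio d), f x < μ) →
  ∃ b < μ, ∀ x ∈ D (Iio d), f x < b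

/-- CAD. `|D (Iio d)| ≤ max |d| ℵ₀`, so regular uncountable cardinals are regular for trees. -/
def G_CAD : Prop := ∀ c : Cardinal.{1}, c.IsRegular → ℵ₀ < c →
  RReg c.ord ∧ Order.IsSuccLimit c.ord ∧ Ordinal.omega0 < c.ord

/-- HSZ. Small hulls have small order type: the closure has at most `max |d| ℵ₀` elements (derivations
are finite trees over `Iio d`, the leaves of `p`, and countably many labels). -/
def G_HSZ : Prop := ∀ c : Cardinal.{1}, c.IsRegular → ℵ₀ < c → ∀ (a d : O) (p : T)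
  (Q : Code → T → Prop), d < c.ord → ∀ (a' : O) (f : O → O), StrictMonoOn f (Iio a') →
  f '' Iio a' = Hull a Q (Iio d ∪ p.leaves) → a' < c.ord

/-- LSR. Reflection (5.1). Close under witnesses of the subcodes of `c` in `ω` steps. `G_LTW`, `G_LTO`,
`G_HLE` may be assumed. -/
def G_LSR : Prop := ∀ θ : O, RReg θ → Order.IsSuccLimit θ → Ordinal.omega0 < θ → ∀ (c : Code),
  ∀ b < θ, ∃ a, b < a ∧ a < θ ∧ Order.IsSuccLimit a ∧ ∀ e ∈ D (Iio a), (Tru a c e ↔ Tru θ c e)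

/-- Entries of a right nested list. -/
def nth (K : T) : ℕ → T
  | 0 => K.fst
  | n + 1 => nth K.snd n

/-- The sequence of sets coded by a list of codes. -/
def dseq (K : T) (i : ℕ) : Set T := dec (nth K i)

/-- TRS. 5.2: translation of second order formulas over `Con a` into codes. `G_TTC`, `G_TDC`, `G_TDC2`
may be assumed. Induction on `φ`: for each `φ` there is a code; `tval s e ∈ dec (nth K i)` is
`TruT ((nth K i).fst) ((nth K i).snd.fst) (pr (tval s e) ((nth K i).snd.snd))` and the argument `v` in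
`D (Iio b)` is implied. `llt` is definable from `lt` and not being a pair. Also: `Sat` depends on finitely many
set variables, and finite sequences of elements of `Con a` are coded by lists. -/
def G_TRS : Prop :=
  (∀ φ : SF, ∃ c : Code, ∀ a : O, Order.IsSuccLimit a → ∀ e ∈ D (Iio a), ∀ K ∈ D (Iio a),
    (Tru a c (.pr e K) ↔ Sat a (Con a) φ e (dseq K))) ∧
  (∀ φ : SF, ∃ n : ℕ, ∀ (k : O) (S : Set (Set T)) (e : T) (σ σ' : ℕ → Set T),
    (∀ i < n, σ i = σ' i) → (Sat k S φ e σ ↔ Sat k S φ e σ')) ∧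
  (∀ (a : O) (σ : ℕ → Set T) (n : ℕ), (∀ i, σ i ∈ Con a) →
    ∃ K ∈ D (Iio a), ∀ i < n, dseq K i = σ i)

/-- SMT. 5.3: `Con θ` is a second order structure. `G_TRS`, `G_LSR`, `G_TDC` may be assumed. -/
def G_SMT : Prop := ∀ θ : O, RReg θ → Order.IsSuccLimit θ → Ordinal.omega0 < θ →
  SOM θ (Con θ) (Con θ)

/-- CDK. 5.4: condensation for sets. `G_HSZ`, `G_COL`, `G_CLA`, `G_CON1`, `G_MAPT` may be assumed. -/
def G_CDK : Prop := ∀ c : Cardinal.{1}, c.IsRegular → ℵ₀ < c → ∀ d < c.ord, ∀ t : T,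
  dec t ⊆ D (Iio d) → ∃ s ∈ D (Iio c.ord), dec t = dec s

/-- RCD. Real versions of (M5), (M6) for the inaccessible cardinal `κ₀ = univ.{0,1}` (use
`Cardinal.IsInaccessible.univ`): `2 ^ |D (Iio d)| < κ₀`. `G_CDK`, `G_CAD` may be assumed. -/
def G_RCD : Prop :=
  (∀ d < (Cardinal.univ.{0, 1}).ord, ∃ b < (Cardinal.univ.{0, 1}).ord, ∀ t : T, dec t ⊆ D (Iio d) →
    ∃ s ∈ D (Iio b), dec t = dec s) ∧
  (∀ d < (Cardinal.univ.{0, 1}).ord, ∃ η, d < η ∧ η < (Cardinal.univ.{0, 1}).ord ∧ Order.IsSuccLimit η ∧ RReg η) ∧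
  (Cardinal.univ.{0, 1}).IsRegular ∧ ℵ₀ < Cardinal.univ.{0, 1} ∧ (ℵ₁ : Cardinal.{1}).IsRegular ∧
  (ℵ₁ : Cardinal.{1}) < Cardinal.univ.{0, 1}

/-! ### The collapse (5.5) -/

/-- The situation of 5.5. -/
structure Elm (w₀ κ₀ θ w κ γ : O) (f : O → O) : Prop where
  mono : StrictMonoOn f (Iio γ)
  rng : ∀ x < γ, f x < θ
  tru : ∀ (c : Code), ∀ e ∈ D (Iio γ), (Tru γ c e ↔ Tru θ c (e.map f))
  tri : ∀ b < γ, ∀ e ∈ D (Iio b), ∀ c : Code, (Tru b c e ↔ Tru (f b) c (e.map f))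
  hw : w < γ ∧ f w = w₀
  hk : κ < γ ∧ f κ = κ₀

/-- ELM. 5.5: the countable collapse. `G_HSZ` for `ℵ₁` (so `γ < ω₁`, hence countable), `G_COL`, `G_CLA`, `G_CON1`,
`G_CON2` may be assumed. -/
def G_ELM : Prop := ∀ w₀ κ₀ θ : O, w₀ < θ → κ₀ < θ → ∃ (w κ γ : O) (f : O → O),
  Elm w₀ κ₀ θ w κ γ f ∧ (Iio γ).Countable

/-- EL1. (M1) for `γ`. `G_TRS`, `G_TDC`, `G_TDC2` may be assumed. Comprehension for `φ` with parameters `e, K, d`:
the statement: there is `c` such that for all `x`: `x ∈ dec c` iff `x ∈ D d` and `tr φ (pr (pr x e) K)`, is T-definable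
at the top level, so it is inherited. `ω < γ`: the first limit ordinal is definable. -/
def G_EL1 : Prop := ∀ (w₀ κ₀ θ w κ γ : O) (f : O → O), Elm w₀ κ₀ θ w κ γ f →
  SOM θ (Con θ) (Con θ) → Ordinal.omega0 < w₀ → w₀ < κ₀ → Order.IsSuccLimit w₀ →
  Order.IsSuccLimit κ₀ →
  SOM γ (Con γ) (Con γ) ∧ Ordinal.omega0 < w ∧ w < κ ∧ κ < γ ∧ Order.IsSuccLimit w ∧
    Order.IsSuccLimit κ

/-- EL2. (M2), (M3) for `γ` (for any `μ`). `G_TDC`, `G_TDC2` may be assumed. -/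
def G_EL2 : Prop := ∀ (w₀ κ₀ θ w κ γ : O) (f : O → O), Elm w₀ κ₀ θ w κ γ f →
  Order.IsSuccLimit θ → Order.IsSuccLimit γ →
  ∀ μ < γ, (∀ d < f μ, ∀ t ∈ D (Iio θ), dec t ⊆ D (Iio d) →
    ∃ s ∈ D (Iio (f μ)), dec t = dec s) →
  ∀ d < μ, ∀ t ∈ D (Iio γ), dec t ⊆ D (Iio d) → ∃ s ∈ D (Iio μ), dec t = dec s

/-- EL3. Regularity is inherited. `G_TDC`, `G_TDC2` may be assumed. -/
def G_EL3 : Prop := ∀ (w₀ κ₀ θ w κ γ : O) (f : O → O), Elm w₀ κ₀ θ w κ γ f →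
  Order.IsSuccLimit θ → Order.IsSuccLimit γ →
  ∀ μ < γ, (MReg (Con γ) μ ↔ MReg (Con θ) (f μ))

/-- EL5. (M5) is inherited. `G_TDC`, `G_TDC2` may be assumed. -/
def G_EL5 : Prop := ∀ (w₀ κ₀ θ w κ γ : O) (f : O → O), Elm w₀ κ₀ θ w κ γ f →
  Order.IsSuccLimit θ → Order.IsSuccLimit γ →
  (∀ d < κ₀, ∃ b < κ₀, ∀ t ∈ D (Iio θ), dec t ⊆ D (Iio d) →
    ∃ s ∈ D (Iio b), dec t = dec s) →
  ∀ d < κ, ∃ b < κ, ∀ t ∈ D (Iio γ), dec t ⊆ D (Iio d) → ∃ s ∈ D (Iio b), dec t = dec s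

/-- EL6. (M6) is inherited: `MReg (Con θ) η` is T-definable at the top level. `G_TDC`, `G_TDC2` may be
assumed. -/
def G_EL6 : Prop := ∀ (w₀ κ₀ θ w κ γ : O) (f : O → O), Elm w₀ κ₀ θ w κ γ f →
  Order.IsSuccLimit θ → Order.IsSuccLimit γ →
  (∀ d < κ₀, ∃ η, d < η ∧ η < κ₀ ∧ Order.IsSuccLimit η ∧ MReg (Con θ) η) →
  ∀ d < κ, ∃ η, d < η ∧ η < κ ∧ Order.IsSuccLimit η ∧ MReg (Con γ) η

end Pool.Agent.Helper17.OD
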