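import Pool.Agent.Helper17.OD.Truth

/-!
# Goals, module MA (trees and the machine). Paper: `PAPER.md`, section 1 and 3.2.

Each `G_XXX` is a packet: prove `theorem thm : G_XXX` (or `theorem thm (h : G_YYY) ... : G_XXX` when
the packet says that `G_YYY` may be assumed) in namespace `Pool.Agent.Helper17.OD.PkXXX`.
-/

namespace Pool.Agent.Helper17.OD

open Set

universe u v

/-! ## Trees -/

/-- LTO. `lt` is a strict linear order. Induction on the trees; `G_HLE` may be assumed (then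
`lt (pr s1 s2) (pr t1 t2)` is: smaller height, or equal height and lexicographically smaller). -/
def G_LTO : Prop := ∀ (L : Type u) [LinearOrder L],
  (∀ s : Tr L, ¬ s.lt s) ∧ (∀ s t r : Tr L, s.lt t → t.lt r → s.lt r) ∧
    ∀ s t : Tr L, s.lt t ∨ s = t ∨ t.lt s

/-- HLE. Heights and `lt`: `hle` compares heights; a tree of smaller height is smaller; components
are smaller than a pair; `nat 0` is least; there are codes above every tree (take a code of larger
height). -/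
def G_HLE : Prop := ∀ (L : Type u) [LinearOrder L],
  (∀ s t : Tr L, s.hle t ↔ s.height ≤ t.height) ∧ (∀ s t : Tr L, s.height < t.height → s.lt t) ∧
  (∀ s t : Tr L, s.lt t → s.height ≤ t.height) ∧
  (∀ s t : Tr L, s.lt (.pr s t) ∧ t.lt (.pr s t)) ∧ (∀ s : Tr L, ¬ s.lt (.nat 0)) ∧
  (∀ s : Tr L, s ≠ .nat 0 → (Tr.nat 0).lt s) ∧
  ∀ s : Tr L, ∃ c : Code, s.lt (Tr.ofCode c)

/-- LTW. `lt` is well-founded. `G_LTO`, `G_HLE` may be assumed. Proof: by induction on `n`, all trees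
of height `≤ n` are accessible: leaves (sum order of `ℕ` and `L`); pairs of height `n + 1`: lexicographic
order on the components, which have height `≤ n`. -/
def G_LTW : Prop := ∀ (L : Type u) [LinearOrder L] [WellFoundedLT L],
  WellFounded (Tr.lt : Tr L → Tr L → Prop)

/-- OFC. Codes as trees: `ofCode` is injective, preserves and reflects `lt`, its values are exactly
the trees without leaves in `L`. -/
def G_OFC : Prop := ∀ (L : Type u) [LinearOrder L],
  (∀ c d : Code, (Tr.ofCode c : Tr L) = Tr.ofCode d → c = d) ∧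
  (∀ c d : Code, (Tr.ofCode c : Tr L).lt (Tr.ofCode d) ↔ c.lt d) ∧
  (∀ c : Code, (Tr.ofCode c : Tr L).leaves = ∅) ∧
  (∀ t : Tr L, t.leaves = ∅ → ∃ c : Code, t = Tr.ofCode c) ∧
  (∀ n : ℕ, (Tr.ofCode (.nat n) : Tr L) = .nat n) ∧
  ∀ c d : Code, (Tr.ofCode (.pr c d) : Tr L) = .pr (Tr.ofCode c) (Tr.ofCode d)

/-- MAPT. Basic facts on `map f`, `f` strictly increasing on `A`. -/
def G_MAPT : Prop := ∀ (L : Type u) (L' : Type v) [LinearOrder L] [LinearOrder L'] (f : L → L')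
  (A : Set L), StrictMonoOn f A →
  (∀ t : Tr L, (t.map f).leaves = f '' t.leaves) ∧
  (∀ t : Tr L, (t.map f).fst = t.fst.map f ∧ (t.map f).snd = t.snd.map f) ∧
  (∀ s ∈ D A, ∀ t ∈ D A, s.map f = t.map f → s = t) ∧
  (∀ s ∈ D A, ∀ t ∈ D A, ((s.map f).lt (t.map f) ↔ s.lt t)) ∧
  (∀ t : Tr L, (t.map f).IsOrd ↔ t.IsOrd) ∧
  (∀ s ∈ D A, ∀ t ∈ D A, ((s.map f).lmem (t.map f) ↔ s.lmem t)) ∧
  (∀ c : Code, (Tr.ofCode c : Tr L).map f = Tr.ofCode c) ∧
  (∀ (t : Tr L) (c : Code), t.map f = Tr.ofCode c ↔ t = Tr.ofCode c) ∧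
  (∀ t' : Tr L', t' ∈ D (f '' A) ↔ ∃ t ∈ D A, t.map f = t') ∧
  (∀ (B : Set L) (t : Tr L), t ∈ D B → t.map f ∈ D (f '' B))

/-- TVM. Terms: `tval` commutes with `map`, its value has leaves among the leaves of the argument. -/
def G_TVM : Prop := ∀ (L : Type u) (L' : Type v) (f : L → L') (c : Code) (e : Tr L),
  tval c (e.map f) = (tval c e).map f ∧ (tval c e).leaves ⊆ e.leaves

/-- DGE. A strictly increasing map of ordinals moves trees up. `G_LTO`, `G_HLE` may be assumed.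
(`f x ≥ x` for `x < a`, by well-foundedness; then induction on the tree; `map` preserves height.) -/
def G_DGE : Prop := ∀ (a : O) (f : O → O), StrictMonoOn f (Iio a) → ∀ t ∈ D (Iio a),
  t = t.map f ∨ t.lt (t.map f)

/-! ## Closures -/

/-- CLA. `TCl` consists of the trees with leaves in the hull; it is contained in `D (Iio a)`. -/
def G_CLA : Prop := ∀ (a : O) (Q : Code → T → Prop) (A : Set O),
  (∀ t : T, TCl a Q A t ↔ t ∈ D (Hull a Q A)) ∧ Hull a Q A ⊆ Iio a ∧
    (∀ x ∈ A, x < a → x ∈ Hull a Q A)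

/-- CLB. Monotonicity and idempotence of the closure. -/
def G_CLB : Prop := ∀ (a : O) (Q Q' : Code → T → Prop) (A A' : Set O),
  (∀ φ, ∀ e ∈ D (Iio a), Q φ e → Q' φ e) → (∀ x ∈ A, x < a → x ∈ Hull a Q' A') →
    ∀ t, TCl a Q A t → TCl a Q' A' t

/-- CLC. Continuity: directed families of availability predicates and base sets (the level is
fixed). -/
def G_CLC : Prop := ∀ (a : O) (ι : Type 2) (r : ι → ι → Prop) (Q : ι → Code → T → Prop)
  (A : ι → Set O), Nonempty ι → (∀ i j, ∃ k, r i k ∧ r j k) →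
  (∀ i j, r i j → (∀ φ e, Q i φ e → Q j φ e) ∧ A i ⊆ A j) →
  ∀ t, TCl a (fun φ e => ∃ i, Q i φ e) (⋃ i, A i) t → ∃ i, TCl a (Q i) (A i) t

/-- CLL. Continuity at a limit level, if no top function is available. -/
def G_CLL : Prop := ∀ a : O, Order.IsSuccLimit a → ∀ (Q : Code → T → Prop) (A : Set O) (t : T),
  (∀ φ e, ¬ Q φ e) → TCl a Q A t →
    ∃ b < a, ∀ c, b ≤ c → c < a → ∀ Q' : Code → T → Prop, TCl c Q' A t

/-- CLF. Finite character in the base set: finitely many elements of the base suffice; they are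
listed as leaves of a tree. -/
def G_CLF : Prop := ∀ (a : O) (Q : Code → T → Prop) (A B : Set O) (t : T), TCl a Q (A ∪ B) t →
  ∃ d : T, d.leaves ⊆ A ∧ TCl a Q (d.leaves ∪ B) t

/-- CLD. Adding one available argument costs finitely many ordinals. `x₀` is the witness for
`(φ₀, e₀)` if there is one, otherwise `nat 0`. `G_CLA`, `G_LTO` may be assumed. -/
def G_CLD : Prop := ∀ (a : O) (Q : Code → T → Prop) (A : Set O) (φ₀ : Code) (e₀ : T),
  ∃ x₀ : T, x₀ ∈ D (Iio a) ∧ ∀ t, TCl a (fun φ e => Q φ e ∨ (φ = φ₀ ∧ e = e₀)) A t →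
    TCl a Q (A ∪ x₀.leaves) t

/-- CLE. The hull at level `a + 1` without top functions is contained in the full hull at level
`a`, plus `a`. Proof: show that `D (Hull a Q (A \ {a}) ∪ {a})` is closed under the rules of
`TCl (a + 1) Q' A`; in `inner` with `b = a` the argument `e ∈ D (Iio a)` has its leaves in the hull,
and `Q` is everything. `G_CLA` may be assumed. -/
def G_CLE : Prop := ∀ (a : O) (Q Q' : Code → T → Prop) (A : Set O), (∀ φ e, Q φ e) →
  (∀ φ e, ¬ Q' φ e) → Hull (Order.succ a) Q' A ⊆ Hull a Q A ∪ {a}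

/-! ## Condensation -/

/-- CON1. (C1) of the paper. `f` is strictly increasing on `Iio a`, and the range is closed under
witnesses at its levels. Induction on `b`, then on `c`; a witness at level `f b` gives (`G_LTW`) the least
one, which is `map f x` with `x ∈ D (Iio b)`. `G_MAPT`, `G_TVM`, `G_LTO`, `G_LTW`, `G_OFC` may be
assumed. -/
def G_CON1 : Prop := ∀ (a : O) (f : O → O), StrictMonoOn f (Iio a) →
  (∀ b < a, ∀ e ∈ D (Iio b), ∀ (φ : Code) (y : T), IsW (f b) φ (e.map f) y →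
    y ∈ D (f '' Iio a)) →
  (∀ b < a, ∀ e ∈ D (Iio b), ∀ c : Code, Tru b c e ↔ Tru (f b) c (e.map f)) ∧
  (∀ b < a, ∀ e ∈ D (Iio b), ∀ x ∈ D (Iio a), ∀ φ : Code,
    IsW b φ e x ↔ IsW (f b) φ (e.map f) (x.map f))

/-- CON2. (C2) of the paper: top truth of the codes `≤ φ` (all proper subcodes are smaller).
`G_CON1`, `G_MAPT`, `G_TVM`, `G_LTO`, `G_LTW`, `G_OFC`, `G_HLE` may be assumed. -/
def G_CON2 : Prop := ∀ (a a' : O) (f : O → O) (φ : T), StrictMonoOn f (Iio a) →
  (∀ x < a, f x < a') →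
  (∀ b < a, ∀ e ∈ D (Iio b), ∀ (ψ : Code) (y : T), IsW (f b) ψ (e.map f) y →
    y ∈ D (f '' Iio a)) →
  (∀ e ∈ D (Iio a), ∀ (ψ : Code) (y : T), (Tr.ofCode ψ).lt φ → IsW a' ψ (e.map f) y →
    y ∈ D (f '' Iio a)) →
  ∀ c : Code, (Tr.ofCode c = φ ∨ (Tr.ofCode c).lt φ) → ∀ e ∈ D (Iio a),
    (Tru a c e ↔ Tru a' c (e.map f))

/-- CON3. (C3) of the paper: witnesses for available arguments. `q` is any cut; `Q ψ e` is
`av q ψ (e.map f)`. `G_CON2`, `G_MAPT`, `G_LTO`, `G_OFC`, `G_HLE`, `G_LTW` may be assumed. For a full cut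
apply `G_CON2` with a code `φ` larger than `ψ`. -/
def G_CON3 : Prop := ∀ (a a' : O) (f : O → O) (q : T), StrictMonoOn f (Iio a) →
  (∀ x < a, f x < a') →
  (∀ b < a, ∀ e ∈ D (Iio b), ∀ (ψ : Code) (y : T), IsW (f b) ψ (e.map f) y →
    y ∈ D (f '' Iio a)) →
  (∀ e ∈ D (Iio a), ∀ (ψ : Code) (y : T), av q ψ (e.map f) → IsW a' ψ (e.map f) y →
    y ∈ D (f '' Iio a)) →
  ∀ (ψ : Code), ∀ e ∈ D (Iio a), ∀ x ∈ D (Iio a), av q ψ (e.map f) →
    (IsW a ψ e x ↔ IsW a' ψ (e.map f) (x.map f))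

/-- COL. Collapse: every set of ordinals below `a` is the range of a strictly increasing map. -/
def G_COL : Prop := ∀ (a : O) (H : Set O), H ⊆ Iio a →
  ∃ (a' : O) (f : O → O), a' ≤ a ∧ StrictMonoOn f (Iio a') ∧ f '' Iio a' = H

/-- CON4. (C4) of the paper: the closure of the collapsed hull. `G_CLA`, `G_CLB`, `G_CON1`,
`G_CON3`, `G_MAPT` may be assumed. -/
def G_CON4 : Prop := ∀ (a a' : O) (f : O → O) (q : T) (A : Set O), StrictMonoOn f (Iio a') →
  f '' Iio a' = Hull a (av q) A →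
  ∀ (A₀ : Set O), A₀ ⊆ Iio a' → ∀ t : T,
    (TCl a (av q) (f '' A₀) t ↔ ∃ s ∈ D (Iio a'), s.map f = t ∧
      TCl a' (fun ψ e => av q ψ (e.map f)) A₀ s)

/-- CUT. (C4), second part: a collapsed cut is a cut, and it moves down. `G_HLE`, `G_LTO`, `G_LTW`,
`G_MAPT`, `G_DGE` may be assumed. `u'` is the `lt`-least `e ∈ D (Iio a')` with `¬ (e.map f).lt u`. -/
def G_CUT : Prop := ∀ (a' : O) (f : O → O) (φ u : T), StrictMonoOn f (Iio a') →
  ∃ u' ∈ D (Iio a'), (∀ (ψ : Code), ∀ e ∈ D (Iio a'),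
      (av (.pr φ u) ψ (e.map f) ↔ av (.pr φ u') ψ e)) ∧
    ¬ (u'.map f).lt u ∧ (∀ e ∈ D (Iio a'), e.lt u' → (e.map f).lt u) ∧
    (u ∈ D (Iio a') → u' = u ∨ u'.lt u)

/-! ## T-definability -/

/-- `Tru` with tree arguments. -/
def TruT (s u v : T) : Prop :=
  ∃ (b : O) (c : Code), s = .ord b ∧ u = Tr.ofCode c ∧ v ∈ D (Iio b) ∧ Tru b c v

/-- `IsW` with tree arguments. -/
def IsWT (s u v x : T) : Prop :=
  ∃ (b : O) (c : Code), s = .ord b ∧ u = Tr.ofCode c ∧ v ∈ D (Iio b) ∧ IsW b c v x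

/-- `t ∈ D (Iio b)`, `s = ord b`. -/
def InD (s t : T) : Prop := ∃ b : O, s = .ord b ∧ t ∈ D (Iio b)

/-- TTC. Terms: closure rules. -/
def G_TTC : Prop := TT (fun e => e) ∧ (∀ n : ℕ, TT (fun _ => .nat n)) ∧
  (∀ c : Code, TT (fun _ => Tr.ofCode c)) ∧ (∀ t, TT t → TT (fun e => (t e).fst)) ∧
  (∀ t, TT t → TT (fun e => (t e).snd)) ∧ (∀ s t, TT s → TT t → TT (fun e => .pr (s e) (t e))) ∧
  (∀ s t, TT s → TT t → TT (fun e => s (t e)))

/-- TDC. The calculus of T-definable relations. Substitution: replace the environment term in a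
code (define the substitution on codes; under the quantifier the environment is `pr x e`).
`G_TTC`, `G_TVM` may be assumed. -/
def G_TDC : Prop :=
  (∀ s t, TT s → TT t → TDef (fun _ e => s e = t e)) ∧
  (∀ s t, TT s → TT t → TDef (fun _ e => (s e).lt (t e))) ∧
  (∀ s, TT s → TDef (fun _ e => (s e).IsOrd)) ∧
  (∀ s t, TT s → TT t → TDef (fun _ e => (s e).lmem (t e))) ∧
  (∀ p : Prop, TDef (fun _ _ => p)) ∧
  (∀ P, TDef P → TDef (fun a e => ¬ P a e)) ∧
  (∀ P R, TDef P → TDef R → TDef (fun a e => P a e ∧ R a e)) ∧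
  (∀ P R, TDef P → TDef R → TDef (fun a e => P a e ∨ R a e)) ∧
  (∀ P R, TDef P → TDef R → TDef (fun a e => P a e → R a e)) ∧
  (∀ P R, TDef P → TDef R → TDef (fun a e => (P a e ↔ R a e))) ∧
  (∀ P : O → T → T → Prop, TDef (fun a p => P a p.snd p.fst) →
    TDef (fun a e => ∃ x ∈ D (Iio a), P a e x)) ∧
  (∀ P : O → T → T → Prop, TDef (fun a p => P a p.snd p.fst) →
    TDef (fun a e => ∀ x ∈ D (Iio a), P a e x)) ∧
  (∀ P t, TDef P → TT t → TDef (fun a e => P a (t e))) ∧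
  (∀ s u v, TT s → TT u → TT v → TDef (fun _ e => TruT (s e) (u e) (v e))) ∧
  (∀ c t, TT t → TDef (fun a e => Tru a c (t e)))

/-- TDC2. More T-definable relations. `G_TTC`, `G_TDC` (and facts on trees) may be assumed.
`InD s t` is `TruT s taut t`, `taut` a code for a tautology. `t` is a code iff it has no ordinal
leaves: either `D (Iio a)` contains no ordinal leaf, or `InD z t` for the least ordinal leaf `z`. -/
def G_TDC2 : Prop :=
  (∀ s t, TT s → TT t → TDef (fun _ e => InD (s e) (t e))) ∧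
  (∀ s u v x, TT s → TT u → TT v → TT x → TDef (fun _ e => IsWT (s e) (u e) (v e) (x e))) ∧
  (∀ t, TT t → TDef (fun a e => ∃ c : Code, t e = Tr.ofCode c)) ∧
  (∀ q u e', TT q → TT u → TT e' → TDef (fun _ e => ∃ c : Code, u e = Tr.ofCode c ∧
    av (q e) c (e' e))) ∧
  (∀ m t, TT m → TT t → TDef (fun _ e => (m e).fst.IsOrd ∧ t e ∈ D (Iio (mA (m e))))) ∧
  (∀ m x, TT m → TT x → TDef (fun _ e => ∃ a : O, x e = .ord a ∧ a < mD (m e)))

/-- DLG. Lists. `Step X y` is a monotone finitary rule. The least set closed under the rule is given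
by numbered derivation lists (right nested lists with entries `pr (nat n) y`, each justified by
entries with smaller numbers; merge lists by concatenation). -/
def G_DLG : Prop := ∀ (Step : (T → Prop) → T → Prop),
  (∀ X Y : T → Prop, (∀ t, X t → Y t) → ∀ y, Step X y → Step Y y) →
  (∀ X y, Step X y → ∃ F : Finset T, (∀ t ∈ F, X t) ∧ Step (fun t => t ∈ F) y) →
  ∀ (P : T → Prop), (∀ y, Step P y → P y) →
    (∀ X : T → Prop, (∀ y, Step X y → X y) → ∀ y, P y → X y) →
  ∀ (A : Set O), (∀ y, P y → y ∈ D A) → ∀ y, P y ↔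
    ∃ l ∈ D A, (∃ n : ℕ, (Tr.pr (.nat n) y).lmem l) ∧
      ∀ (n : ℕ) (z : T), (Tr.pr (.nat n) z).lmem l →
        Step (fun t => ∃ k : ℕ, k < n ∧ (Tr.pr (.nat k) t).lmem l) z

/-- PJT. `PJ` is T-definable. `G_DLG` for the set of the trees `pr x x'` with `PJ m m' x x'`, and
`G_TDC`, `G_TDC2`, `G_TTC`, `G_CLA` may be assumed. -/
def G_PJT : Prop := ∀ m m' x x', TT m → TT m' → TT x → TT x' →
  TDef (fun _ e => PJ (m e) (m' e) (x e) (x' e))

/-- HCT. `HC` is T-definable. Same method; replace the base rule of `TCl` by: `d` and `mP m` are in the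
closure (equivalent, by the rules `fst`, `snd`, `pr`). -/
def G_HCT : Prop := ∀ m d x, TT m → TT d → TT x → TDef (fun _ e => HC (m e) (d e) (x e))

/-- QRT. `Qr`, `Im` and the composition property are T-definable. `G_PJT`, `G_TDC`, `G_TDC2` may be
assumed. (All quantifiers are bounded: `PJ m m' t t'` implies that `t` has its leaves among the ordinals
below `mA m`, `mD m` and the leaves of `mP m`, ... so witnesses are in `D (Iio a)` when `m, m'` are.) -/
def G_QRT : Prop :=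
  (∀ z z' x x', TT z → TT z' → TT x → TT x' → TDef (fun _ e => Qr (z e) (z' e) (x e) (x' e))) ∧
  (∀ m m', TT m → TT m' → TDef (fun _ e => (m e).fst.IsOrd ∧ (m' e).fst.IsOrd ∧
    Im (m e) (m' e))) ∧
  (∀ m m' m'', TT m → TT m' → TT m'' → TDef (fun _ e => ∀ t t' t'', PJ (m e) (m' e) t t' →
    PJ (m' e) (m'' e) t' t'' → PJ (m e) (m'' e) t t''))

/-- PJC. The characterisation (PJC) of the paper. `m` is a mouse whose hull is everything; `s` maps
it to the mouse `m'`, preserving witnesses. Then `PJ m m'` is the graph of `map s`. -/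
def G_PJC : Prop := ∀ (m m' : T) (s : O → O), m.fst.IsOrd → m'.fst.IsOrd →
  mD m ≤ mA m → mP m ∈ D (Iio (mA m)) →
  (∀ t ∈ D (Iio (mA m)), TCl (mA m) (av (mQ m)) (Iio (mD m) ∪ (mP m).leaves) t) →
  StrictMonoOn s (Iio (mA m)) → (∀ x < mA m, s x < mA m') → (∀ x < mD m, s x = x) →
  (mP m).map s = mP m' →
  (∀ b < mA m, ∀ e ∈ D (Iio b), ∀ x ∈ D (Iio (mA m)), ∀ φ : Code,
    IsW b φ e x ↔ IsW (s b) φ (e.map s) (x.map s)) →
  (∀ e ∈ D (Iio (mA m)), ∀ x ∈ D (Iio (mA m)), ∀ φ : Code, av (mQ m) φ e →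
    (av (mQ m') φ (e.map s) ∧ (IsW (mA m) φ e x ↔ IsW (mA m') φ (e.map s) (x.map s)))) →
  ∀ t t' : T, PJ m m' t t' ↔ t ∈ D (Iio (mA m)) ∧ t' = t.map s

end Pool.Agent.Helper17.OD
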