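import Pool.Agent.Helper17.OD.SO
import Pool.Agent.Helper17.OD.GoalsMA

/-!
# Goals, module SO (theory of second order structures). Paper: `PAPER.md`, section 2.

Use `apply_rules [SD.exT, ...]` as in the tests at the end of `SO.lean` for goals
`SD k S S' (fun e σ => ...)` (no tactics or macros of our own are allowed); rewrite first (with
`SD.congr` or by stating the predicate suitably) so that all quantifiers are
`∃ x ∈ D (Iio k)`, `∀ x ∈ D (Iio k)`, `∃ X ∈ S`, `∀ X ∈ S`, and everything is about trees.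
For an arbitrary structure `h : SOM k S S'` write `haveI := h`.
-/

namespace Pool.Agent.Helper17.OD

open Set

/-- REC. Recursion. `prd x` is a set of trees, SD, (really) well-founded, `D (Iio d)` is closed under
`prd` for large `d < k`. `F x = {y ∈ D (Iio k) | Φ x y G}`, `G` the graph of `F` on `prd x`, and `Φ` is SD;
the values on `D (Iio d)` are bounded. Then `F` is SD.
Proof: an approximation is a pair `A, U ∈ S`, `A` closed under `prd`, such that for `x ∈ A` and all `y ∈ D (Iio k)`: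
`pr x y ∈ U ↔ Φ x y (U restricted to prd x)` (say: for `R ∈ S` equal to the restriction). By induction
`U` agrees with `F` on `A`. For `d` large and `x ∈ D (Iio d)` let `B_x ∈ S` be the set of `z ∈ D (Iio d)` which are in every
`B ∈ S` with `x ∈ B ⊆ D (Iio d)`, `B` closed under `prd`; by induction on `x` the graph of `F` on `B_x` is in `S` (`B_x = {x} ∪ ⋃ B_x'`,
comprehension). So `y ∈ F x` iff some approximation with `x ∈ A` has `pr x y ∈ U`. -/
def G_REC : Prop := ∀ (k : O) (S S' : Set (Set T)), SOM k S S' →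
  ∀ (prd : T → Set T) (F : T → Set T) (Φ : T → T → Set T → Prop),
  SD k S S' (fun e _ => e.fst ∈ prd e.snd) →
  SD k S S' (fun e σ => Φ e.fst e.snd (σ 0)) →
  (WellFounded fun y x => y ∈ prd x) →
  (∃ d₀ < k, ∀ d < k, d₀ ≤ d → ∀ x ∈ D (Iio d), prd x ⊆ D (Iio d)) →
  (∀ x ∈ D (Iio k), ∀ y, y ∈ F x ↔
    y ∈ D (Iio k) ∧ Φ x y {p | ∃ x' y' : T, p = .pr x' y' ∧ x' ∈ prd x ∧ y' ∈ F x'}) →
  (∀ d < k, ∃ b < k, ∀ x ∈ D (Iio d), F x ⊆ D (Iio b)) →
  SD k S S' (fun e _ => e.snd ∈ F e.fst) ∧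
    ∀ d < k, {p : T | ∃ x ∈ D (Iio d), ∃ y ∈ F x, p = .pr x y} ∈ S'

/-- `z` is an ordinal leaf of `t`. -/
def LeafOf (z t : T) : Prop := ∃ a ∈ t.leaves, z = .ord a

/-- `s` is a subtree of `t`. -/
def SubT (s : T) : T → Prop
  | .pr a b => s = .pr a b ∨ SubT s a ∨ SubT s b
  | t => s = t

/-- `f` (a set of pairs of ordinal leaves) maps the tree `t` to the tree `t'`, leaf by leaf. -/
def MapR (f : Set T) : T → T → Prop
  | .nat n, t' => t' = .nat n
  | .ord a, t' => t'.IsOrd ∧ Tr.pr (.ord a) t' ∈ f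
  | .pr s t, t' => ∃ s' t'' : T, t' = .pr s' t'' ∧ MapR f s s' ∧ MapR f t t''

/-- TRE. Tree recursion: basic relations on trees are SD. `G_REC` may be assumed (for relations of
two arguments take `x = pr s t`, `prd x` = the pairs of components, well-founded by height). -/
def G_TRE : Prop := ∀ (k : O) (S S' : Set (Set T)), SOM k S S' →
  SD k S S' (fun e _ => e.fst.hle e.snd) ∧
  SD k S S' (fun e _ => e.fst.lt e.snd) ∧
  SD k S S' (fun e _ => e.fst.lmem e.snd) ∧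
  SD k S S' (fun e _ => LeafOf e.fst e.snd) ∧
  SD k S S' (fun e _ => SubT e.fst e.snd) ∧
  SD k S S' (fun e _ => InD e.fst e.snd) ∧
  SD k S S' (fun e _ => ∃ c : Code, e = Tr.ofCode c) ∧
  SD k S S' (fun e _ => ∃ n : ℕ, e = .nat n) ∧
  SD k S S' (fun e _ => ∃ n : ℕ, e.fst = .nat n ∧ e.snd = .nat (n + 1)) ∧
  SD k S S' (fun e _ => ∃ c : Code, e.fst = Tr.ofCode c ∧ tval c e.snd.fst = e.snd.snd)

/-- MPR. `MapR f` is SD in the parameter `f`. `G_REC`, `G_TRE` may be assumed. -/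
def G_MPR : Prop := ∀ (k : O) (S S' : Set (Set T)), SOM k S S' →
  SD k S S' (fun e σ => MapR (σ 0) e.fst e.snd)

/-- TRD. Truth is SD. `G_REC`, `G_TRE` may be assumed. Recursion on `x = pr (ord b) c`, `c` a code (as a
tree), `F x = {e ∈ D (Iio b) | Tru b c e}`, `prd x` = the pairs `pr (ord b') c'` with `b' < b`, and
those with `b' = b`, `c'` a proper subtree of `c`. -/
def G_TRD : Prop := ∀ (k : O) (S S' : Set (Set T)), SOM k S S' →
  SD k S S' (fun e _ => TruT e.fst e.snd.fst e.snd.snd) ∧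
  SD k S S' (fun e _ => IsWT e.fst e.snd.fst e.snd.snd.fst e.snd.snd.snd) ∧
  (∀ P : T → Prop, TDef (fun _ e => P e) → SD k S S' (fun e _ => P e))

/-- DEC. Constructible sets. `G_TRD` may be assumed. -/
def G_DEC : Prop := ∀ (k : O) (S S' : Set (Set T)), SOM k S S' →
  SD k S S' (fun e _ => e.fst ∈ dec e.snd) ∧ Con k ⊆ S' ∧
  SD k S S' (fun _ σ => σ 0 ∈ Con k) ∧
  SD k S S' (fun e σ => σ 0 = dec e)

/-- RNK. Ranks. `R ∈ S'` such that every nonempty `Y ∈ S` has an `R`-minimal element. Then `R` is really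
well-founded, and its rank function (values `< b < k`) is in `S'`. `G_REC`, `G_TRE` may be assumed.
Proof: `x` is good if there are `A, f ∈ S`, `A` closed under `R`-predecessors, `x ∈ A`, `f` a function on `A` with
ordinal values satisfying the recursion of the rank. The set of bad elements of the field is in `S`; a minimal
one, `x`, has good predecessors, whose ranks are bounded by collection, so it is good. Values of rank functions increase
along `R`, so `R` is well-founded. -/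
def G_RNK : Prop := ∀ (k : O) (S S' : Set (Set T)), SOM k S S' → ∀ R ∈ S',
  (∀ Y ∈ S, Y.Nonempty → ∃ y ∈ Y, ∀ z ∈ Y, Tr.pr z y ∉ R) →
  (WellFounded fun x y : T => Tr.pr x y ∈ R) ∧
  ∃ (ρ : T → O) (b : O), b < k ∧ (∀ x, ρ x < b) ∧
    (∀ (x : T) (a : O), a < ρ x ↔ ∃ y, Tr.pr y x ∈ R ∧ a ≤ ρ y) ∧
    (∀ x, (∀ y, Tr.pr y x ∉ R) → ρ x = 0) ∧
    ∀ d < k, gr (D (Iio d)) (fun x => .ord (ρ x)) ∈ S'

/-- ENU. Increasing enumerations. `G_RNK` may be assumed. -/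
def G_ENU : Prop := ∀ (k : O) (S S' : Set (Set T)), SOM k S S' → ∀ Y ∈ S', (∀ t ∈ Y, t.IsOrd) →
  ∃ (b : O) (f : O → O), b < k ∧ StrictMonoOn f (Iio b) ∧
    (∀ t : T, t ∈ Y ↔ ∃ a < b, t = .ord (f a)) ∧
    {p : T | ∃ a < b, p = .pr (.ord a) (.ord (f a))} ∈ S'

/-- DCH. Dependent choice (by `lt`-least choices). `G_REC`, `G_TRE` may be assumed. -/
def G_DCH : Prop := ∀ (k : O) (S S' : Set (Set T)), SOM k S S' → ∀ R ∈ S', ∀ Y ∈ S',
  (∀ y ∈ Y, ∃ y' ∈ Y, Tr.pr y' y ∈ R) → ∀ y₀ ∈ Y,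
  ∃ s : ℕ → T, s 0 = y₀ ∧ (∀ n, s n ∈ Y) ∧ (∀ n, Tr.pr (s (n + 1)) (s n) ∈ R) ∧ sq s ∈ S'

/-- HCN. Hulls are sets. `B` is a set of ordinal leaves in `S'`, `q` any cut. `G_TRD`, `G_TRE`, `G_DLG`,
`G_CLA`, `G_TDC2` may be assumed. -/
def G_HCN : Prop := ∀ (k : O) (S S' : Set (Set T)), SOM k S S' → ∀ a < k, ∀ q ∈ D (Iio k),
  ∀ B ∈ S', {t | TCl a (av q) {x | Tr.ord x ∈ B} t} ∈ S'

/-- LST. Least elements: an SD relation has `lt`-least solutions, and the least solution is SD.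
`G_TRE`, `G_LTO`, `G_LTW` may be assumed. -/
def G_LST : Prop := ∀ (k : O) (S S' : Set (Set T)), SOM k S S' → ∀ P : T → T → Prop,
  SD k S S' (fun e _ => P e.fst e.snd) →
  ∃ g : T → T, (∀ x ∈ D (Iio k), (∃ y ∈ D (Iio k), P x y) → g x ∈ D (Iio k) ∧ P x (g x) ∧
      ∀ y ∈ D (Iio k), P x y → ¬ y.lt (g x)) ∧
    (∀ x, (¬ ∃ y ∈ D (Iio k), P x y) → g x = .nat 0) ∧
    SD k S S' (fun e _ => g e.fst = e.snd)

/-- SOB. Closure of `S'` under simple operations. -/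
def G_SOB : Prop := ∀ (k : O) (S S' : Set (Set T)), SOM k S S' →
  (∀ X ∈ S', ∀ Y ∈ S', X ∪ Y ∈ S' ∧ X ∩ Y ∈ S' ∧ X \ Y ∈ S') ∧
  (∀ d < k, D (Iio d) ∈ S') ∧ (∀ t ∈ D (Iio k), {t} ∈ S') ∧
  (∀ X : Set T, X.Finite → X ⊆ D (Iio k) → X ∈ S') ∧
  (∀ X ∈ S', ∀ t ∈ D (Iio k), {x | Tr.pr t x ∈ X} ∈ S') ∧
  (∀ X ∈ S', ∀ Y ∈ S', {p : T | ∃ x ∈ X, ∃ y ∈ Y, p = .pr x y} ∈ S') ∧
  (∀ X ∈ S', ∀ t : T → T, ST k t → t '' X ∈ S') ∧
  (∀ X ∈ S', ∀ P : T → Prop, SD k S S' (fun e _ => P e) → {x | x ∈ X ∧ P x} ∈ S') ∧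
  (∀ X ∈ S', ∀ P : T → T → Prop, SD k S S' (fun e _ => P e.snd e.fst) →
    (∀ x ∈ X, ∃ y ∈ D (Iio k), P x y) → ∃ b < k, ∀ x ∈ X, ∃ y ∈ D (Iio b), P x y)

/-- FUN. Function application and composition: bounded images and compositions of functions given
by their graphs. `G_SOB` may be assumed. -/
def G_FUN : Prop := ∀ (k : O) (S S' : Set (Set T)), SOM k S S' → ∀ A ∈ S', ∀ f : T → T,
  gr A f ∈ S' → (f '' A ∈ S') ∧ (∀ B ⊆ A, B ∈ S' → gr B f ∈ S') ∧
    (∀ g : T → T, gr (f '' A) g ∈ S' → gr A (fun x => g (f x)) ∈ S') ∧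
    SD k S S' (fun e _ => e.fst ∈ A ∧ f e.fst = e.snd)

end Pool.Agent.Helper17.OD
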