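import Pool.Agent.Helper17.OD.ZKit
import Pool.Agent.Helper17.OD.GoalsCV

/-!
# Goals, module WM (the outer model `W`). Paper: `PAPER.md`, sections 4 and 9.

Tools: `ZF.lean` (calculus of definable predicates `DP W Q P`, definable functions `DT W Q f`), `ZKit.lean` (`ZM W`:
the axioms, and rules for `apply_rules`; see the tests at the end of both files). For `hz : ZM W` and
`hQ : PS W Q` write `haveI := hz; haveI := hQ`.
-/

namespace Pool.Agent.Helper17.OD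

open Set

/-- Encoding of trees. -/
noncomputable def enc : T → Z
  | .nat n => ZFSet.pair (zn 0) (zn n)
  | .ord a => ZFSet.pair (zn 1) a.toZFSet
  | .pr s t => ZFSet.pair (zn 2) (ZFSet.pair (enc s) (enc t))

/-- `A` is the set of the codes of the elements of `X`. -/
def EncS (A : Z) (X : Set T) : Prop := ∀ z, z ∈ A ↔ ∃ t ∈ X, z = enc t

/-- `κ` is the height of `W`. -/
def Ht (W : Set Z) (κ : O) : Prop := ∀ a : O, a.toZFSet ∈ W ↔ a < κ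

/-- The bounded sets of trees of `W`. -/
def SW (W : Set Z) (κ : O) : Set (Set T) := {X | (∃ d < κ, X ⊆ D (Iio d)) ∧ ∃ A ∈ W, EncS A X}

/-- The bounded sets of trees which are ordinal definable in `W`. -/
def OW (W : Set Z) (κ : O) : Set (Set T) :=
  {X | (∃ d < κ, X ⊆ D (Iio d)) ∧ ∃ A, ODF W ∅ A ∧ EncS A X}

/-- Ordinals and elements of `X`, in `W`. -/
def OrX (W X : Set Z) : Set Z := {x | x ∈ W ∧ (x.IsOrdinal ∨ x ∈ X)}

/-- `E` has order type at least `l`. -/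
def TyGe (E : Set O) (l : O) : Prop := ∃ g : O → O, StrictMonoOn g (Iio l) ∧ ∀ x < l, g x ∈ E

/-- ENC. Basic facts on the encoding. -/
def G_ENC : Prop := (∀ s t : T, enc s = enc t → s = t) ∧
  (∀ l : O, Order.IsSuccLimit l → ∀ t ∈ D (Iio l), (enc t).rank < l) ∧
  (∀ t : T, ∀ a ∈ t.leaves, a < (enc t).rank) ∧
  (∀ (A : Z) (X X' : Set T), EncS A X → EncS A X' → X = X') ∧
  (∀ (A A' : Z) (X : Set T), EncS A X → EncS A' X → A = A') ∧
  (∀ (W : Set Z) (κ : O), ZM W → Ht W κ → Order.IsSuccLimit κ ∧ Ordinal.omega0 < κ ∧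
    (∀ t : T, enc t ∈ W ↔ t ∈ D (Iio κ)))

/-- WREC. Recursion along `∈` in `W`. First transitive closures exist in `W` (`tc x` = the least
transitive set containing `x`, definable; by `∈`-induction and Replacement); then, by `∈`-induction, the graph of `F`
on `tc x` is in `W`: it is the unique function on `tc x` which satisfies the recursion. -/
def G_WREC : Prop := ∀ (W Q : Set Z), ZM W → PS W Q → ∀ (F : Z → Z) (H : Z → Z → Z),
  (∀ x ∈ W, ∀ g ∈ W, H x g ∈ W) → DP W Q (fun v => v 0 = H (v 1) (v 2)) →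
  (∀ x ∈ W, ∀ g ∈ W, (∀ p, p ∈ g ↔ ∃ y ∈ x, p = ZFSet.pair y (F y)) → F x = H x g) →
  (∀ x ∈ W, F x ∈ W) ∧ DP W Q (fun v => v 0 = F (v 1)) ∧
  ∀ x ∈ W, ∃ g ∈ W, ∀ p, p ∈ g ↔ ∃ y ∈ x, p = ZFSet.pair y (F y)

/-- WRK. Ranks, and closure of the height under `+ ω`. `G_WREC` may be assumed (for
`F x = (a + rank x).toZFSet = a.toZFSet ∪ ⋃ {F y ∪ {F y} | y ∈ x}`). -/
def G_WRK : Prop := ∀ (W Q : Set Z), ZM W → PS W Q →
  (∀ x ∈ W, (x.rank).toZFSet ∈ W) ∧ DP W Q (fun v => v 0 = ((v 1).rank).toZFSet) ∧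
  ∀ a : O, a.toZFSet ∈ W → (a + Ordinal.omega0).toZFSet ∈ W

/-- WLV. The levels are elements of `W`. `G_WRK` may be assumed. Real induction on `a`; Power set at successors,
Replacement and Union at limits. -/
def G_WLV : Prop := ∀ (W Q : Set Z), ZM W → PS W Q →
  (∀ a : O, a.toZFSet ∈ W → ∃ b ∈ W, ∀ x, x ∈ b ↔ x ∈ Lev W a) ∧
  DP W Q (fun v => ∃ a : O, v 1 = a.toZFSet ∧ ∀ x, x ∈ v 0 ↔ x ∈ Lev W a)

/-- EDF. Definability of the basic notions on codes of trees. `z` is a code of a tree iff it is in some set `f ∈ W`, all of whose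
elements are `pair 0 n`, `pair 1 a` or `pair 2 (pair x y)` with `x, y ∈ f` (the codes of the subtrees). `G_ENC` may be
assumed. -/
def G_EDF : Prop := ∀ (W Q : Set Z), ZM W → PS W Q →
  DP W Q (fun v => ∃ t : T, v 0 = enc t) ∧
  DP W Q (fun v => ∃ s t : T, v 0 = enc s ∧ v 1 = enc t ∧ s.llt t) ∧
  DP W Q (fun v => ∃ t : T, v 0 = enc t ∧ t.IsOrd) ∧
  (∀ c : Code, DP W Q (fun v => ∃ t : T, v 1 = enc t ∧ v 0 = enc (tval c t))) ∧
  DP W Q (fun v => ∃ s t : T, v 0 = enc (.pr s t) ∧ v 1 = enc s ∧ v 2 = enc t) ∧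
  DP W Q (fun v => ∃ (d : O) (t : T), v 0 = enc t ∧ v 1 = d.toZFSet ∧ t ∈ D (Iio d))

/-- WCS. Comprehension for `SW`, `OW` by definable predicates; `D (Iio d)` is in `OW`; conversely sets of trees to
sets; replacement. `G_ENC`, `G_EDF`, `G_WRK`, `G_WLV`, `G_ODC` may be assumed. The last clause: a definable relation on codes has
bounded witnesses (Replacement for the least bound). -/
def G_WCS : Prop := ∀ (W : Set Z) (κ : O), ZM W → Ht W κ →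
  (∀ d < κ, ∃ A, ODF W ∅ A ∧ EncS A (D (Iio d))) ∧
  (∀ P : Z → Prop, DP W W (fun v => P (v 0)) → ∀ d < κ,
    {t | t ∈ D (Iio d) ∧ P (enc t)} ∈ SW W κ) ∧
  (∀ P : Z → Prop, DP W {x | ODF W ∅ x} (fun v => P (v 0)) → ∀ d < κ,
    {t | t ∈ D (Iio d) ∧ P (enc t)} ∈ OW W κ) ∧
  (∀ A ∈ W, (∀ z ∈ A, ∃ t, z = enc t) → {t | enc t ∈ A} ∈ SW W κ ∧ EncS A {t | enc t ∈ A}) ∧
  (∀ R : Z → Z → Prop, DP W W (fun v => R (v 0) (v 1)) → ∀ d < κ,
    (∀ x ∈ D (Iio d), ∃ y ∈ D (Iio κ), R (enc x) (enc y)) →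
    ∃ b < κ, ∀ x ∈ D (Iio d), ∃ y ∈ D (Iio b), R (enc x) (enc y))

/-- ODC. Parameters which are ordinal definable (from `X`) can be eliminated. Only finitely many parameters matter:
replace them one by one. -/
def G_ODC : Prop := ∀ (W X : Set Z), ZM W →
  (∀ P, DP W {x | ODF W X x} P → DP W (OrX W X) P) ∧
  (∀ R : Z → Prop, DP W {x | ODF W X x} (fun v => R (v 0)) → ∀ x ∈ W,
    (∀ y ∈ W, R y ↔ y = x) → ODF W X x) ∧
  (∀ x ∈ OrX W X, ODF W X x) ∧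
  (∀ x, ODF W X x → ∃ R : Z → Prop, DP W (OrX W X) (fun v => R (v 0)) ∧ ∀ y ∈ W, (R y ↔ y = x)) ∧
  PS W {x | ODF W X x} ∧ PS W (OrX W X)

/-- WTR. Translation of second order formulas. `G_ENC`, `G_EDF`, `G_WRK` may be assumed. Induction on `φ`. Set quantifier: `A ∈ W`
all of whose elements are codes of trees (it is bounded by its rank). -/
def G_WTR : Prop := ∀ (W Q : Set Z) (κ : O), ZM W → PS W Q → Ht W κ → ∀ φ : SF,
  ∃ P : (ℕ → Z) → Prop, DP W Q P ∧ ∀ (e : T) (σ : ℕ → Set T) (v : ℕ → Z), e ∈ D (Iio κ) →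
    (∀ i, σ i ∈ SW W κ) → v 0 = enc e → (∀ i, EncS (v (i + 1)) (σ i)) →
    (P v ↔ Sat κ (SW W κ) φ e σ)

/-- WSO. `SW` is a second order structure with definable sets `OW`. `G_ENC`, `G_WCS`, `G_WTR`, `G_ODC` may be assumed. -/
def G_WSO : Prop := ∀ (W : Set Z) (κ : O), ZM W → Ht W κ → SOM κ (SW W κ) (OW W κ)

/-- PAR. One parameter suffices (the levels are closed under pairs). -/
def G_PAR : Prop := ∀ (W : Set Z) (α : O), ZM W → Order.IsSuccLimit α →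
  ∀ x, ODF W (Lev W α) x → ∃ (R : Z → Z → Prop) (b : Z), b ∈ Lev W α ∧
    DP W (OrX W ∅) (fun v => R (v 0) (v 1)) ∧ ∀ y ∈ W, (R b y ↔ y = x)

/-- `h` is a function from a part of `s` onto `{ξ.toZFSet | ξ ∈ E}`. -/
def FunZ (h s : Z) (E : Set O) : Prop :=
  (∀ p ∈ h, ∃ a ∈ s, ∃ ξ ∈ E, p = ZFSet.pair a ξ.toZFSet) ∧
  (∀ a b c, ZFSet.pair a b ∈ h → ZFSet.pair a c ∈ h → b = c) ∧
  ∀ ξ ∈ E, ∃ a, ZFSet.pair a ξ.toZFSet ∈ h

/-- HRT. Hartogs. `r_h = {pair a a' | h a ⊆ h a'}` is in `P (s × s) ∩ W`; the order type `β` of `E` is the range of a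
function `g ∈ W` (compose `h` with the inverse of the enumeration of `E`, `G_ENU` and `G_WSO`) with the same `r_g`; `β` is unique
for `r` and `r ↦ β` is definable: Replacement. `G_ENU`, `G_WSO`, `G_WCS`, `G_EDF`, `G_ENC` may be assumed. -/
def G_HRT : Prop := ∀ (W : Set Z) (κ : O), ZM W → Ht W κ → ∀ s ∈ W, ∃ l < κ,
  ∀ h ∈ W, ∀ E : Set O, FunZ h s E → ¬ TyGe E l

/-- HR2. The same for sets of trees: `s` = the codes of `D (Iio μ)`. `G_HRT`, `G_WCS`, `G_EDF`, `G_ENC` may be assumed. -/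
def G_HR2 : Prop := ∀ (W : Set Z) (κ : O), ZM W → Ht W κ → ∀ μ < κ, ∃ l < κ,
  ∀ G ∈ SW W κ, ∀ E : Set O, (∀ p ∈ G, ∃ c ∈ D (Iio μ), ∃ ξ ∈ E, p = Tr.pr c (.ord ξ)) →
  (∀ c t t' : T, Tr.pr c t ∈ G → Tr.pr c t' ∈ G → t = t') →
  (∀ ξ ∈ E, ∃ c, Tr.pr c (.ord ξ) ∈ G) → ¬ TyGe E l

/-- FB1. A set which is the union of fewer than `l` fibres of type `< w` is the image of `D (max l w)`. The point `y` of the
fibre of `x` gets the code `pr (ord i) (ord j)`, `i` the type of the fibres before `x`, `j` the type of the fibre before `y`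
(rank functions of relations: `G_RNK`). `G_SOB`, `G_FUN` may be assumed. -/
def G_FB1 : Prop := ∀ (k : O) (S S' : Set (Set T)), SOM k S S' → ∀ U ∈ S,
  (∀ p ∈ U, ∃ x y : O, p = .pr (.ord x) (.ord y)) → ∀ l < k, ∀ w < k,
  ¬ TyGe {x | ∃ y, Tr.pr (.ord x) (.ord y) ∈ U} l →
  (∀ x, ¬ TyGe {y | Tr.pr (.ord x) (.ord y) ∈ U} w) →
  ∃ G ∈ S, (∀ p ∈ G, ∃ c ∈ D (Iio (max l w)), ∃ x y : O, Tr.pr (.ord x) (.ord y) ∈ U ∧
      p = .pr c (.ord y)) ∧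
    (∀ c t t' : T, Tr.pr c t ∈ G → Tr.pr c t' ∈ G → t = t') ∧
    ∀ x y : O, Tr.pr (.ord x) (.ord y) ∈ U → ∃ c, Tr.pr c (.ord y) ∈ G

/-- FB2. The fibres (paper, section 4, FINAL ARGUMENT). `P` is the power set of `B = Lev W α` in `W`. Given `X`, let `x ∈ W`
be the set of its ordinals, `R, b` as in `G_PAR`, `S z = {b' ∈ B | ∃ y ∈ W, R b' y ∧ z ∈ y}`, `ρ` a bound of `X`. `U` consists of the pairs
`(ξ, ξ')`, `ξ, ξ' < ρ`, `S ξ = S ξ'`, `ξ ∈ x`, and `S η ≠ S ξ` for `η < ξ`; `h = {pair (S ξ) ξ | ...}`. `G_PAR`, `G_WLV`, `G_WCS`, `G_ODC`,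
`G_EDF`, `G_ENC`, `G_WSO` may be assumed. -/
def G_FB2 : Prop := ∀ (W : Set Z) (κ α : O), ZM W → Ht W κ → Order.IsSuccLimit α → α < κ →
  (∀ x ∈ W, ODF W (Lev W α) x) → ∃ P ∈ W, ∀ X ∈ SW W κ, (∀ t ∈ X, t.IsOrd) →
  ∃ U ∈ SW W κ, (∀ p ∈ U, ∃ x y : O, p = .pr (.ord x) (.ord y)) ∧
    (∀ x : O, {t : T | ∃ y, t = .ord y ∧ Tr.pr (.ord x) (.ord y) ∈ U} ∈ OW W κ) ∧
    (∀ x y : O, Tr.pr (.ord x) (.ord y) ∈ U → Tr.ord y ∈ X) ∧
    (∀ y : O, Tr.ord y ∈ X → ∃ x : O, Tr.pr (.ord x) (.ord y) ∈ U) ∧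
    ∃ h ∈ W, FunZ h P {x | ∃ y, Tr.pr (.ord x) (.ord y) ∈ U}

/-- FIB. The fibre lemma (assembly of the packets above). -/
def G_FIB : Prop := ∀ (W : Set Z) (κ α w : O), ZM W → Ht W κ → Order.IsSuccLimit α → α < κ →
  w < κ → (∀ x ∈ W, ODF W (Lev W α) x) → ∃ l < κ, ∀ X ∈ SW W κ, (∀ t ∈ X, t.IsOrd) →
  TyGe {x | Tr.ord x ∈ X} l → ∃ Y ∈ OW W κ, Y ⊆ X ∧ TyGe {x | Tr.ord x ∈ Y} w

end Pool.Agent.Helper17.OD
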