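import Pool.Agent.Helper17.OD.GoalsWM
import Pool.Agent.Helper17.OD.GoalsGE

/-!
# Goals, module ZV (from the second order structure `S` to the transitive model `V`).
Paper: `PAPER.md`, section 8.

`V = Vof S` is the set of the values (Mostowski collapses) of the codes in `S`: a code is a set `X ∈ S` such that
`rel X a b :↔ pr a b ∈ X` is well-founded (for subsets in `S`), its value is the collapse of the point `nat 0`.
-/

namespace Pool.Agent.Helper17.OD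

open Set
open Pool.Agent.Helper97.Ku (Fml IsZFC)

/-- `z` is the collapse of the point `b` for the relation `r`. -/
def Cvl (r : T → T → Prop) : Z → T → Prop :=
  WellFounded.fix (r := (· ∈ · : Z → Z → Prop)) ZFSet.mem_wf (fun z ih b =>
    (∀ (y : Z) (h : y ∈ z), ∃ a, r a b ∧ ih y h a) ∧ ∀ a, r a b → ∃ (y : Z) (h : y ∈ z), ih y h a)

theorem cvl_iff (r : T → T → Prop) (z : Z) (b : T) : Cvl r z b ↔
    (∀ y ∈ z, ∃ a, r a b ∧ Cvl r y a) ∧ ∀ a, r a b → ∃ y ∈ z, Cvl r y a := by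
  conv_lhs => rw [Cvl, WellFounded.fix_eq]
  simp only [exists_prop, Cvl]

/-- The relation of a set of trees. -/
def rel (X : Set T) (a b : T) : Prop := Tr.pr a b ∈ X

/-- Codes. -/
def IsCd (S : Set (Set T)) (X : Set T) : Prop :=
  X ∈ S ∧ ∀ Y ∈ S, Y.Nonempty → ∃ y ∈ Y, ∀ z ∈ Y, Tr.pr z y ∉ X

/-- The model. -/
def Vof (S : Set (Set T)) : Set Z := {z | ∃ X, IsCd S X ∧ Cvl (rel X) z (.nat 0)}

/-- Power enumeration. -/
def PEn (k : O) (S : Set (Set T)) : Prop :=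
  ∀ d < k, ∃ X ∈ S, ∀ Y ∈ S, Y ⊆ D (Iio d) → ∃ i ∈ D (Iio k), Y = {x | Tr.pr i x ∈ X}

/-- The sets which are definable over `(k, S)` with a tree parameter. -/
def DfS (k : O) (S : Set (Set T)) : Set (Set T) :=
  {X | ∃ (φ : SF) (e : T) (d : O), e ∈ D (Iio k) ∧ d < k ∧
    X = {x | x ∈ D (Iio d) ∧ Sat k S φ (.pr x e) (fun _ => ∅)}}

/-- Bisimulations. -/
def Bis (B : Set T) (r r' : T → T → Prop) : Prop := ∀ a b, Tr.pr a b ∈ B →
  (∀ a', r a' a → ∃ b', r' b' b ∧ Tr.pr a' b' ∈ B) ∧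
  ∀ b', r' b' b → ∃ a', r a' a ∧ Tr.pr a' b' ∈ B

/-- `a` and `b` are related by a bisimulation in `S`. -/
def Eqv (S : Set (Set T)) (r r' : T → T → Prop) (a b : T) : Prop :=
  ∃ B ∈ S, Tr.pr a b ∈ B ∧ Bis B r r'

/-- CVL. Basic facts on collapses: uniqueness, existence (use that `D (Iio d)` is small), bisimulations, elements. -/
def G_CVL : Prop :=
  (∀ (r : T → T → Prop) (z z' : Z) (b : T), Cvl r z b → Cvl r z' b → z = z') ∧
  (∀ r : T → T → Prop, WellFounded r → (∀ b, ∃ d : O, ∀ a, r a b → a ∈ D (Iio d)) →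
    ∀ b, ∃ z, Cvl r z b) ∧
  (∀ (r r' : T → T → Prop) (B : T → T → Prop), (∀ a b, B a b →
      (∀ a', r a' a → ∃ b', r' b' b ∧ B a' b') ∧ ∀ b', r' b' b → ∃ a', r a' a ∧ B a' b') →
    ∀ (z : Z) (a b : T), B a b → Cvl r z a → Cvl r' z b) ∧
  (∀ (r : T → T → Prop) (z : Z) (b : T), Cvl r z b → ∀ y, y ∈ z ↔ ∃ a, r a b ∧ Cvl r y a) ∧
  (∀ (r : T → T → Prop) (z : Z) (b : T), Cvl r z b → ∀ a, r a b → ∃ y, Cvl r y a)

/-- COD. Codes are really well-founded, every point has a value, of rank less than `k`. `G_RNK`, `G_CVL` may be assumed. -/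
def G_COD : Prop := ∀ (k : O) (S : Set (Set T)), SOM k S S → ∀ X, IsCd S X →
  WellFounded (rel X) ∧ (∀ b, ∃ z, Cvl (rel X) z b) ∧ ∀ z b, Cvl (rel X) z b → z.rank < k

/-! ### Codes of trees as sets -/

/-- Tagged point. -/
def tg (n : ℕ) (x : T) : T := .pr (.nat n) x
/-- The point with value `{p, q}`. -/
def dp (p q : T) : T := tg 3 (.pr p q)

/-- The relation `EE`: `tg 1 (nat n)`, `tg 1 (ord a)` have the values `n`, `a`; `tg 2 t` has the value `enc t`;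
`dp p q` has the elements `p`, `q`. -/
def EE (a b : T) : Prop :=
  (∃ x y : T, b = tg 1 x ∧ a = tg 1 y ∧ y.llt x ∧ (x.IsOrd ↔ y.IsOrd)) ∨
  (∃ p q : T, b = dp p q ∧ (a = p ∨ a = q)) ∨
  (∃ n : ℕ, b = tg 2 (.nat n) ∧
    (a = dp (tg 1 (.nat 0)) (tg 1 (.nat 0)) ∨ a = dp (tg 1 (.nat 0)) (tg 1 (.nat n)))) ∨
  (∃ c : O, b = tg 2 (.ord c) ∧
    (a = dp (tg 1 (.nat 1)) (tg 1 (.nat 1)) ∨ a = dp (tg 1 (.nat 1)) (tg 1 (.ord c)))) ∨
  (∃ s t : T, b = tg 2 (.pr s t) ∧ (a = dp (tg 1 (.nat 2)) (tg 1 (.nat 2)) ∨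
    a = dp (tg 1 (.nat 2)) (dp (dp (tg 2 s) (tg 2 s)) (dp (tg 2 s) (tg 2 t)))))

/-- `EE` restricted to `D (Iio d)`. -/
def EEs (d : O) : Set T := {p | ∃ a ∈ D (Iio d), ∃ b ∈ D (Iio d), p = .pr a b ∧ EE a b}

/-- EEV. Properties of `EE`. `G_CVL`, `G_TRE` may be assumed. -/
def G_EEV : Prop := WellFounded EE ∧
  (∀ d : O, ∀ b ∈ D (Iio d), ∀ a, EE a b → a ∈ D (Iio d)) ∧
  (∀ t : T, Cvl EE (enc t) (tg 2 t)) ∧ (∀ a : O, Cvl EE a.toZFSet (tg 1 (.ord a))) ∧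
  (∀ d : O, ∀ b ∈ D (Iio d), ∀ z, (Cvl (rel (EEs d)) z b ↔ Cvl EE z b)) ∧
  ∀ (k : O) (S S' : Set (Set T)), SOM k S S' → SD k S S' (fun e _ => EE e.fst e.snd) ∧
    ∀ d < k, EEs d ∈ S' ∧ IsCd S (EEs d)

/-- EQM. Equality of values is given by bisimulations in `S`. `G_REC` (for the relation on the pairs `pr x y`),
`G_CVL`, `G_COD`, `G_SOB` may be assumed. -/
def G_EQM : Prop := ∀ (k : O) (S S' : Set (Set T)), SOM k S S' →
  SD k S S' (fun e σ => Eqv S (rel (σ 0)) (rel (σ 1)) e.fst e.snd) ∧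
  SD k S S' (fun _ σ => IsCd S (σ 0)) ∧
  ∀ X Y, IsCd S X → IsCd S Y → ∀ a ∈ D (Iio k), ∀ b ∈ D (Iio k),
    (Eqv S (rel X) (rel Y) a b ↔ ∃ z, Cvl (rel X) z a ∧ Cvl (rel Y) z b)

/-- TRF. Translation of formulas of set theory. `G_EQM`, `G_CVL`, `G_COD` may be assumed. Induction on `φ`: `v i = v j` is
`Eqv S (rel (X i)) (rel (X j)) (nat 0) (nat 0)`, `v i ∈ v j` is: there is `a` with `pr a (nat 0) ∈ X j` and
`Eqv S (rel (X i)) (rel (X j)) (nat 0) a`; the quantifier ranges over codes. -/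
def G_TRF : Prop := ∀ (k : O) (S S' : Set (Set T)), SOM k S S' → ∀ φ : Fml,
  ∃ P : (ℕ → Set T) → Prop, SD k S S' (fun _ σ => P σ) ∧
    ∀ (X : ℕ → Set T) (z : ℕ → Z), (∀ i, IsCd S (X i) ∧ Cvl (rel (X i)) (z i) (.nat 0)) →
      (P X ↔ SatW (Vof S) φ z)

/-- SBC. Subsets of codes and re-rooting. New points `tg 1 x`, new root `nat 0`. `G_CVL`, `G_COD`, `G_SOB` may be assumed. -/
def G_SBC : Prop := ∀ (k : O) (S S' : Set (Set T)), SOM k S S' →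
  (∀ X, IsCd S X → ∀ Y ∈ S, ∃ z ∈ Vof S, ∀ y, y ∈ z ↔ ∃ b ∈ Y, Cvl (rel X) y b) ∧
  (∀ X ∈ S', IsCd S X → ∀ b ∈ D (Iio k), ∃ X' ∈ S', IsCd S X' ∧
    ∀ z, (Cvl (rel X') z (.nat 0) ↔ Cvl (rel X) z b)) ∧
  (∀ X, IsCd S X → ∀ b z, Cvl (rel X) z b → z ∈ Vof S)

/-- FAM. Families of codes. Points `tg 1 (pr i x)`, root `nat 0`. `G_CVL`, `G_COD`, `G_SOB` may be assumed. -/
def G_FAM : Prop := ∀ (k : O) (S : Set (Set T)), SOM k S S → ∀ F ∈ S, ∀ I ∈ S,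
  (∀ i ∈ I, IsCd S {p | Tr.pr i p ∈ F}) →
  ∃ z ∈ Vof S, ∀ y, y ∈ z ↔ ∃ i ∈ I, Cvl (rel {p | Tr.pr i p ∈ F}) y (.nat 0)

/-- SCL. Set collection. First bound the witnesses (`G_SOB`: collection for `y = ord d`), then use the power
enumeration and least indices (`G_LST`). -/
def G_SCL : Prop := ∀ (k : O) (S : Set (Set T)), SOM k S S → PEn k S →
  ∀ Q : T → Set T → Prop, SD k S S (fun e σ => Q e (σ 0)) → ∀ A ∈ S,
  (∀ b ∈ A, ∃ Y ∈ S, Q b Y) →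
  ∃ F ∈ S, ∀ b ∈ A, {x | Tr.pr b x ∈ F} ∈ S ∧ Q b {x | Tr.pr b x ∈ F}

/-! ### The axioms -/

/-- VTR. `V` is transitive, countable, of height `k`. `G_SBC`, `G_EEV`, `G_COD`, `G_CVL` may be assumed. -/
def G_VTR : Prop := ∀ (k : O) (S : Set (Set T)), SOM k S S →
  (∀ x ∈ Vof S, ∀ y ∈ x, y ∈ Vof S) ∧ (S.Countable → (Vof S).Countable) ∧ Ht (Vof S) k

/-- VPU. Pair, union, infinity. `G_VTR`, `G_FAM`, `G_SBC`, `G_SOB`, `G_CVL`, `G_COD` may be assumed. -/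
def G_VPU : Prop := ∀ (k : O) (S : Set (Set T)), SOM k S S →
  (∀ x ∈ Vof S, ∀ y ∈ Vof S, ({x, y} : Z) ∈ Vof S) ∧
  (∀ x ∈ Vof S, ZFSet.sUnion x ∈ Vof S)

/-- VPW. Power set. `G_VTR`, `G_FAM`, `G_SBC`, `G_EQM`, `G_SOB`, `G_CVL`, `G_COD` may be assumed. If `X` is a code of `x`, every
`u ⊆ x`, `u ∈ V`, is the set of the values of the points in some `Y ∈ S`; enumerate these `Y` by `PEn`. -/
def G_VPW : Prop := ∀ (k : O) (S : Set (Set T)), SOM k S S → PEn k S →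
  ∀ x ∈ Vof S, ∃ y ∈ Vof S, ∀ z, z ∈ y ↔ z ∈ Vof S ∧ z ⊆ x

/-- VSP. Separation. `G_TRF`, `G_VTR`, `G_SBC`, `G_EQM`, `G_SOB`, `G_CVL`, `G_COD` may be assumed. The codes of the value of the
point `b` of `X` are the codes `X'` with `Eqv S (rel X') (rel X) (nat 0) b`. -/
def G_VSP : Prop := ∀ (k : O) (S : Set (Set T)), SOM k S S →
  ∀ (φ : Fml) (w : ℕ → Z), (∀ i, w i ∈ Vof S) → ∀ a ∈ Vof S,
  ∃ b ∈ Vof S, ∀ x, x ∈ b ↔ x ∈ a ∧ SatW (Vof S) φ (Function.update w 0 x)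

/-- VRP. Replacement. `G_SCL`, `G_FAM`, `G_TRF`, `G_VTR`, `G_SBC`, `G_EQM`, `G_SOB`, `G_CVL`, `G_COD` may be assumed. -/
def G_VRP : Prop := ∀ (k : O) (S : Set (Set T)), SOM k S S → PEn k S →
  ∀ (φ : Fml) (w : ℕ → Z), (∀ i, w i ∈ Vof S) → ∀ a ∈ Vof S,
  (∀ x ∈ a, ∃ y ∈ Vof S, SatW (Vof S) φ (Function.update (Function.update w 0 x) 1 y) ∧
    ∀ y' ∈ Vof S, SatW (Vof S) φ (Function.update (Function.update w 0 x) 1 y') → y' = y) →
  ∃ b ∈ Vof S, ∀ y, y ∈ b ↔ ∃ x ∈ a, y ∈ Vof S ∧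
    SatW (Vof S) φ (Function.update (Function.update w 0 x) 1 y)

/-- VCH. Choice: take the `lt`-least point (of a code `X` of `a`) which is a predecessor of some point with the same
value as `p`, `pr p (nat 0) ∈ X`. `G_LST`, `G_TRE`, `G_LTO`, `G_LTW`, `G_VTR`, `G_SBC`, `G_EQM`, `G_SOB`, `G_CVL`, `G_COD` may be
assumed. -/
def G_VCH : Prop := ∀ (k : O) (S : Set (Set T)), SOM k S S →
  ∀ a ∈ Vof S, (∀ x ∈ a, ∃ y, y ∈ x) →
  (∀ x ∈ a, ∀ y ∈ a, x ≠ y → ∀ z, ¬ (z ∈ x ∧ z ∈ y)) →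
  ∃ c ∈ Vof S, ∀ x ∈ a, ∃! z, z ∈ x ∧ z ∈ c

/-- VZF. Assembly of the axioms. All goals above may be assumed. (Use `sat_El` for separation and replacement.) -/
def G_VZF : Prop := ∀ (k : O) (S : Set (Set T)), SOM k S S → PEn k S → TM (Vof S)

/-- VSS. The sets of trees of `V` are the elements of `S`. `G_EEV`, `G_SBC`, `G_EQM`, `G_SOB`, `G_CVL`, `G_COD` may be assumed. For
`X ∈ S`: code `EEs d`, set of points `tg 2 t`, `t ∈ X`. Conversely: `enc t ∈ A` iff some point of the code of `A` below the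
root has the same value as `tg 2 t` in `EEs d`. -/
def G_VSS : Prop := ∀ (k : O) (S : Set (Set T)), SOM k S S → ∀ X : Set T,
  X ∈ S ↔ (∃ d < k, X ⊆ D (Iio d)) ∧ ∃ A ∈ Vof S, EncS A X

/-- DFS. `DfS k S` is a collection of definable sets. Only finitely many set variables occur in a formula
(`G_TRS`, second part); replace the parameters by their definitions: there are `X 0, ..., X (n - 1)` in `S` with `X i = {...}`. -/
def G_DFS : Prop := ∀ (k : O) (S : Set (Set T)), SOM k S S → SOM k S (DfS k S)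

/-- VOD. Sets of trees which are ordinal definable in `V` are in `S'`. `G_TRF`, `G_EEV`, `G_SBC`, `G_EQM`, `G_VTR`, `G_SOB`, `G_CVL`,
`G_COD` may be assumed. The ordinal parameters have codes in `S'` (re-root `EEs d`). -/
def G_VOD : Prop := ∀ (k : O) (S S' : Set (Set T)), SOM k S S' →
  ∀ A, ODF (Vof S) ∅ A → ∀ d < k, {t | t ∈ D (Iio d) ∧ enc t ∈ A} ∈ S'

/-- The model `V` (assembly). -/
def G_ZV : Prop := ∀ (w κ : O) (S : Set (Set T)), ExtV w κ S → ∃ V : Set Z, V.Countable ∧ TM V ∧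
  Ht V κ ∧ (∀ X : Set T, X ∈ S ↔ (∃ d < κ, X ⊆ D (Iio d)) ∧ ∃ A ∈ V, EncS A X) ∧
  ∀ A, ODF V ∅ A → {t | t ∈ D (Iio w) ∧ enc t ∈ A} ∈ Con κ

end Pool.Agent.Helper17.OD
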