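import Mathlib
import Pool.Agent.Helper97.Ku.BSet

/-!
# MP_064283_lc: the final statement

Negative answer to Q1 in its strongest form: there are a countable transitive model `V` of ZFC and
an ordinal `α` of `V` such that no transitive model `W ⊇ V` of ZF with the same ordinals (in
particular no generic extension of `V`, by a set or by a class of conditions) has the same `V_α`,
has no new OD subsets of `V_α`, and satisfies that every set is ordinal definable from parameters
in `V_{α+ω}`.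
-/

namespace Pool.Agent.Helper17.OD

open Pool.Agent.Helper97.Ku (Fml IsZFC)

/-- Membership, restricted to the class `W`. -/
def El (W : Set ZFSet.{1}) (a b : W) : Prop := (a : ZFSet.{1}) ∈ (b : ZFSet.{1})

/-- `W` is a transitive model of ZFC. -/
def TM (W : Set ZFSet.{1}) : Prop := (∀ x ∈ W, ∀ y ∈ x, y ∈ W) ∧ IsZFC W (El W)

/-- `(N, E)` is a model of ZF (ZFC without the axiom of choice). -/
structure IsZF (N : Type*) (E : N → N → Prop) : Prop where
  ext : ∀ a b, (∀ x, E x a ↔ E x b) → a = b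
  found : ∀ a, (∃ x, E x a) → ∃ x, E x a ∧ ∀ y, E y x → ¬ E y a
  pair : ∀ a b, ∃ c, ∀ x, E x c ↔ (x = a ∨ x = b)
  union : ∀ a, ∃ c, ∀ x, E x c ↔ ∃ y, E y a ∧ E x y
  power : ∀ a, ∃ c, ∀ x, E x c ↔ ∀ z, E z x → E z a
  infinity : ∃ c, (∃ o, E o c ∧ ∀ x, ¬ E x o) ∧
    ∀ x, E x c → ∃ y, E y c ∧ ∀ z, E z y ↔ (E z x ∨ z = x)
  sep : ∀ (φ : Fml) (w : ℕ → N) (a : N), ∃ b, ∀ x, E x b ↔
    (E x a ∧ φ.sat E (Function.update w 0 x))
  repl : ∀ (φ : Fml) (w : ℕ → N) (a : N),
    (∀ x, E x a → ∃! y, φ.sat E (Function.update (Function.update w 0 x) 1 y)) →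
    ∃ b, ∀ y, E y b ↔
      ∃ x, E x a ∧ φ.sat E (Function.update (Function.update w 0 x) 1 y)

/-- `W` is a transitive model of ZF. -/
def TMF (W : Set ZFSet.{1}) : Prop := (∀ x ∈ W, ∀ y ∈ x, y ∈ W) ∧ IsZF W (El W)

/-- `V_α` computed in the transitive model `W`: the elements of `W` of rank less than `α`. -/
def Lev (W : Set ZFSet.{1}) (α : Ordinal.{1}) : Set ZFSet.{1} := {x | x ∈ W ∧ x.rank < α}

/-- `x` is, in the model `W`, ordinal definable from parameters in `X`: for some formula `φ` and some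
parameters `p i`, each of them an ordinal or an element of `X`, `x` is the only element of `W` which
satisfies `φ` in `W` (only the finitely many variables of `φ` matter; `x` is the value of the
variable `0`). -/
def ODF (W X : Set ZFSet.{1}) (x : ZFSet.{1}) : Prop :=
  ∃ (hx : x ∈ W) (φ : Fml) (p : ℕ → W),
    (∀ i, (p i : ZFSet.{1}).IsOrdinal ∨ (p i : ZFSet.{1}) ∈ X) ∧
      ∀ y : W, φ.sat (El W) (Function.update p 0 y) ↔ y = ⟨x, hx⟩

/-- The final theorem. -/
def Final : Prop :=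
  ∃ (V : Set ZFSet.{1}) (α : Ordinal.{1}), V.Countable ∧ TM V ∧ α.toZFSet ∈ V ∧
    ∀ W : Set ZFSet.{1}, TMF W → V ⊆ W → (∀ x ∈ W, x.IsOrdinal → x ∈ V) →
      Lev W α = Lev V α →
      (∀ A : ZFSet.{1}, (∀ y ∈ A, y.rank < α) → ODF W ∅ A → ODF V ∅ A) →
      ¬ ∀ x ∈ W, ODF W (Lev W (α + Ordinal.omega0)) x

end Pool.Agent.Helper17.OD
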