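import Mathlib

/-!
# Trees with leaves in a linear order

`Tr L`: finite binary trees whose leaves are natural numbers or elements of `L`.
They are the first order objects of everything in this project (MP_064283_lc).
-/

namespace Pool.Agent.Helper17.OD

universe u v w

/-- Finite binary trees with leaves in `ℕ` or in `L`. -/
inductive Tr (L : Type u) : Type u
  | nat (n : ℕ) : Tr L
  | ord (a : L) : Tr L
  | pr (s t : Tr L) : Tr L

/-- Codes (of terms and formulas): trees without leaves in `L`. -/
abbrev Code := Tr Empty

namespace Tr

variable {L : Type u} {L' : Type v} {L'' : Type w}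

/-- First component (`nat 0` if the tree is not a pair). -/
def fst : Tr L → Tr L
  | pr s _ => s
  | _ => nat 0

/-- Second component (`nat 0` if the tree is not a pair). -/
def snd : Tr L → Tr L
  | pr _ t => t
  | _ => nat 0

/-- The leaves which lie in `L`. -/
def leaves : Tr L → Set L
  | nat _ => ∅
  | ord a => {a}
  | pr s t => leaves s ∪ leaves t

/-- Replace all leaves `a : L` by `f a`. -/
def map (f : L → L') : Tr L → Tr L'
  | nat n => nat n
  | ord a => ord (f a)
  | pr s t => pr (map f s) (map f t)

/-- Is the tree a leaf in `L`? -/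
def IsOrd : Tr L → Prop
  | ord _ => True
  | _ => False

/-- `lmem x t`: `x` is an entry of the (right nested) list `t`. -/
def lmem (x : Tr L) : Tr L → Prop
  | pr a l => x = a ∨ lmem x l
  | _ => False

/-- Comparison of heights: `hle s t` means `height s ≤ height t`. -/
def hle : Tr L → Tr L → Prop
  | pr s1 s2, pr t1 t2 => (hle s1 t1 ∨ hle s1 t2) ∧ (hle s2 t1 ∨ hle s2 t2)
  | pr _ _, nat _ => False
  | pr _ _, ord _ => False
  | nat _, _ => True
  | ord _, _ => True

/-- The canonical order of trees: by height, then (for leaves) `nat < ord`, (for pairs)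
lexicographically. -/
def lt [LT L] : Tr L → Tr L → Prop
  | nat m, nat n => m < n
  | nat _, ord _ => True
  | nat _, pr _ _ => True
  | ord _, nat _ => False
  | ord a, ord b => a < b
  | ord _, pr _ _ => True
  | pr _ _, nat _ => False
  | pr _ _, ord _ => False
  | pr s1 s2, pr t1 t2 =>
      ¬ hle (pr t1 t2) (pr s1 s2) ∨
        (hle (pr s1 s2) (pr t1 t2) ∧ (lt s1 t1 ∨ (s1 = t1 ∧ lt s2 t2)))

/-- Order of the leaves: `nat m < nat n` for `m < n`, `nat < ord`, `ord a < ord b` for `a < b`. -/
def llt [LT L] : Tr L → Tr L → Prop
  | nat m, nat n => m < n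
  | nat _, ord _ => True
  | ord a, ord b => a < b
  | _, _ => False

/-- Embedding of codes. -/
def ofCode (c : Code) : Tr L := c.map Empty.elim

/-- Height. -/
def height : Tr L → ℕ
  | nat _ => 0
  | ord _ => 0
  | pr s t => max (height s) (height t) + 1

end Tr

/-- Trees with all leaves in `A`. -/
def D {L : Type u} (A : Set L) : Set (Tr L) := {t | t.leaves ⊆ A}

end Pool.Agent.Helper17.OD
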