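import Pool.Agent.Helper17.OD.Tree

/-!
# The machine: truth levels, witnesses, closures, T-definability

Paper: `PAPER.md`, section 1 and 3.2.
-/

namespace Pool.Agent.Helper17.OD

open Set

/-- The ordinals used in the whole project. -/
abbrev O := Ordinal.{1}

/-- Trees with ordinal leaves. -/
abbrev T := Tr O

/-- Value of the term (code) at the environment tree `e`. -/
def tval {L : Type*} : Code → Tr L → Tr L
  | .nat 0, e => e
  | .nat (n + 1), _ => .nat n
  | .pr (.nat 0) t, e => (tval t e).fst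
  | .pr (.nat 1) t, e => (tval t e).snd
  | .pr (.nat 2) (.pr s t), e => .pr (tval s e) (tval t e)
  | _, _ => .nat 0

/-- One level of truth, given the truth `R` at all lower levels. -/
def stp (a : O) (R : O → Code → T → Prop) : Code → T → Prop
  | .pr (.nat 0) (.pr s t), e => tval s e = tval t e
  | .pr (.nat 1) (.pr s t), e => (tval s e).lt (tval t e)
  | .pr (.nat 2) s, e => (tval s e).IsOrd
  | .pr (.nat 3) (.pr s t), e => (tval s e).lmem (tval t e)
  | .pr (.nat 4) (.pr s (.pr u v)), e => ∃ (b : O) (c : Code), tval s e = .ord b ∧ b < a ∧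
      tval u e = Tr.ofCode c ∧ tval v e ∈ D (Iio b) ∧ R b c (tval v e)
  | .pr (.nat 5) (.pr φ ψ), e => ¬ (stp a R φ e ∧ stp a R ψ e)
  | .pr (.nat 6) φ, e => ∃ x ∈ D (Iio a), stp a R φ (.pr x e)
  | _, _ => False

/-- Truth of the code `c` at level `a` and tree `e`. -/
noncomputable def Tru : O → Code → T → Prop :=
  WellFounded.fix (r := (· < · : O → O → Prop)) wellFounded_lt
    (fun a ih => stp a (fun b c e => ∃ h : b < a, ih b h c e))

/-- The unfolding of truth. -/
theorem tru_eq (a : O) : Tru a = stp a (fun b c e => b < a ∧ Tru b c e) := by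
  rw [Tru, WellFounded.fix_eq]
  congr 1
  funext b c e
  simp only [exists_prop]

/-- `x` is the canonically least witness (at level `a`) for `φ` with argument `e`. -/
def IsW (a : O) (φ : Code) (e x : T) : Prop :=
  x ∈ D (Iio a) ∧ Tru a φ (.pr x e) ∧ ∀ y ∈ D (Iio a), Tru a φ (.pr y e) → ¬ y.lt x

/-- Availability in the cut `q`: a cut is a pair `(φ, u)` (code, tree); every other tree is the
full cut. `(nat 0, nat 0)` is the empty cut. -/
def av : T → Code → T → Prop
  | .pr φ u, ψ, e => (Tr.ofCode ψ).lt φ ∨ (Tr.ofCode ψ = φ ∧ e.lt u)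
  | _, _, _ => True

/-- The closure: trees generated from the ordinals in `A` (below `a`) by the tree operations, the
witnesses at levels `b < a` in the closure, and the witnesses at level `a` available in `Q`. -/
inductive TCl (a : O) (Q : Code → T → Prop) (A : Set O) : T → Prop
  | nat (n : ℕ) : TCl a Q A (.nat n)
  | base {x : O} : x ∈ A → x < a → TCl a Q A (.ord x)
  | pr {s t : T} : TCl a Q A s → TCl a Q A t → TCl a Q A (.pr s t)
  | fst {t : T} : TCl a Q A t → TCl a Q A t.fst
  | snd {t : T} : TCl a Q A t → TCl a Q A t.snd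
  | inner {b : O} {φ : Code} {e x : T} : TCl a Q A (.ord b) → b < a → TCl a Q A e →
      e ∈ D (Iio b) → IsW b φ e x → TCl a Q A x
  | top {φ : Code} {e x : T} : TCl a Q A e → Q φ e → IsW a φ e x → TCl a Q A x

/-- The hull: the ordinals of the closure. -/
def Hull (a : O) (Q : Code → T → Prop) (A : Set O) : Set O := {x | TCl a Q A (.ord x)}

/-- `P` is definable by one code at all levels. -/
def TDef (P : O → T → Prop) : Prop :=
  ∃ c : Code, ∀ (a : O) (e : T), e ∈ D (Iio a) → (Tru a c e ↔ P a e)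

/-- `t` is given by a term. -/
def TT (t : T → T) : Prop := ∃ c : Code, ∀ e, tval c e = t e

/-! ### Mice -/

/-- A mouse is a tree `(ord a, ((φ, u), (ord d, p)))`. -/
def mouse (a : O) (φ u : T) (d : O) (p : T) : T := .pr (.ord a) (.pr (.pr φ u) (.pr (.ord d) p))

/-- Level of an ordinal leaf (`0` for other trees). -/
noncomputable def lev : T → O
  | .ord a => a
  | _ => 0

/-- The level of a mouse. -/
noncomputable def mA (m : T) : O := lev m.fst
/-- The cut of a mouse. -/
def mQ (m : T) : T := m.snd.fst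
/-- The base ordinal of a mouse. -/
noncomputable def mD (m : T) : O := lev m.snd.snd.fst
/-- The parameter of a mouse. -/
def mP (m : T) : T := m.snd.snd.snd

/-- Parallel derivations in two mice. -/
inductive PJ (m m' : T) : T → T → Prop
  | nat (n : ℕ) : PJ m m' (.nat n) (.nat n)
  | low {x : O} : x < mD m → PJ m m' (.ord x) (.ord x)
  | par : PJ m m' (mP m) (mP m')
  | pr {s s' t t' : T} : PJ m m' s s' → PJ m m' t t' → PJ m m' (.pr s t) (.pr s' t')
  | fst {t t' : T} : PJ m m' t t' → PJ m m' t.fst t'.fst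
  | snd {t t' : T} : PJ m m' t t' → PJ m m' t.snd t'.snd
  | inner {b b' : O} {φ : Code} {e e' x x' : T} : PJ m m' (.ord b) (.ord b') → b < mA m →
      b' < mA m' → PJ m m' e e' → e ∈ D (Iio b) → e' ∈ D (Iio b') → IsW b φ e x →
      IsW b' φ e' x' → PJ m m' x x'
  | top {φ : Code} {e e' x x' : T} : m.fst.IsOrd → m'.fst.IsOrd → PJ m m' e e' →
      e ∈ D (Iio (mA m)) → e' ∈ D (Iio (mA m')) → av (mQ m) φ e → av (mQ m') φ e' →
      IsW (mA m) φ e x → IsW (mA m') φ e' x' → PJ m m' x x'

/-- `t` is in the closure inside the mouse `m` of the leaves of the tree `d` and the parameter. -/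
def HC (m d t : T) : Prop :=
  m.fst.IsOrd ∧ mP m ∈ D (Iio (mA m)) ∧ d ∈ D (Iio (mA m)) ∧
    TCl (mA m) (av (mQ m)) (d.leaves ∪ (mP m).leaves) t

/-- `Qr z z' x x'`: the image of the ordinal `x` under `PJ z z'` is above `x'`. -/
def Qr (z z' x x' : T) : Prop :=
  x.IsOrd ∧ x'.IsOrd ∧ ∃ y : T, y.IsOrd ∧ PJ z z' x y ∧ x'.lt y

/-- The parallel derivations from `m` to `m'` form a good embedding. -/
structure Im (m m' : T) : Prop where
  dom : ∀ t t', PJ m m' t t' → t ∈ D (Iio (mA m)) ∧ t' ∈ D (Iio (mA m'))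
  tot : ∀ t ∈ D (Iio (mA m)), ∃ t', PJ m m' t t'
  fn : ∀ t t' t'', PJ m m' t t' → PJ m m' t t'' → t' = t''
  ord : ∀ t t', PJ m m' t t' → t.IsOrd → t'.IsOrd
  mono : ∀ t t' u u', PJ m m' t t' → PJ m m' u u' → t.lt u → t'.lt u'
  low : ∀ b b' e e', PJ m m' (.ord b) (.ord b') → PJ m m' e e' → e ∈ D (Iio b) → e' ∈ D (Iio b')
  tru : ∀ b b' e e' (c : Code), PJ m m' (.ord b) (.ord b') → PJ m m' e e' → e ∈ D (Iio b) →
    (Tru b c e ↔ Tru b' c e')
  isw : ∀ b b' e e' x x' (φ : Code), PJ m m' (.ord b) (.ord b') → PJ m m' e e' → e ∈ D (Iio b) →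
    PJ m m' x x' → IsW b φ e x → IsW b' φ e' x'
  top : ∀ e e' (c : Code), PJ m m' e e' →
    (Tr.ofCode c = (mQ m).fst ∨ (Tr.ofCode c).lt (mQ m).fst) → (Tru (mA m) c e ↔ Tru (mA m') c e')
  cut : ∀ e e' (φ : Code), PJ m m' e e' → av (mQ m) φ e → av (mQ m') φ e'
  wit : ∀ e e' x x' (φ : Code), PJ m m' e e' → PJ m m' x x' → av (mQ m) φ e →
    IsW (mA m) φ e x → IsW (mA m') φ e' x'

end Pool.Agent.Helper17.OD
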