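import Pool.Agent.Helper17.OD.Statement
import Pool.Agent.Helper17.OD.SO

/-!
# Definability over transitive models, calculus

Paper: `PAPER.md`, section 9.

* `SatW W φ v`: truth of `φ` in `(W, ∈)`, with values in `ZFSet`.
* `DP W Q P`: the predicate `P v` (`v : ℕ → ZFSet`, values in `W`) is definable over `W` with parameters in
  `Q`. Variables are `v 0, v 1, ...`; quantifiers push (`zcons`).
* `DT W Q f`: `f v ∈ W` and `y = f v` is definable.
Goals `DP W Q (fun v => ...)` are proved with `apply_rules` as for `SD`; see the end of the file.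
-/

namespace Pool.Agent.Helper17.OD

open Set
open Pool.Agent.Helper97.Ku (Fml IsZFC)

/-- Sets of the project. -/
abbrev Z := ZFSet.{1}

/-- Truth in `(W, ∈)`. -/
def SatW (W : Set Z) : Fml → (ℕ → Z) → Prop
  | .mem i j, v => v i ∈ v j
  | .eq i j, v => v i = v j
  | .neg a, v => ¬ SatW W a v
  | .and a b, v => SatW W a v ∧ SatW W b v
  | .all i a, v => ∀ x ∈ W, SatW W a (Function.update v i x)

theorem sat_El (W : Set Z) (φ : Fml) : ∀ v : ℕ → W,
    φ.sat (El W) v ↔ SatW W φ (fun i => (v i : Z)) := by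
  induction φ with
  | mem i j => intro v; rfl
  | eq i j => intro v; simp only [Fml.sat, SatW]; exact Subtype.ext_iff
  | neg a h => intro v; simp only [Fml.sat, SatW, h]
  | and a b h1 h2 => intro v; simp only [Fml.sat, SatW, h1, h2]
  | all i a h =>
    intro v
    simp only [Fml.sat, SatW, h, Subtype.forall]
    refine forall_congr' fun x => forall_congr' fun hx => ?_
    have : (fun j => ((Function.update v i ⟨x, hx⟩ j : W) : Z)) =
        Function.update (fun j => (v j : Z)) i x := by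
      funext j
      by_cases hj : j = i
      · subst hj; simp
      · simp [hj]
    rw [this]

/-! ### Renaming and substitution -/

/-- Renaming of all variables. -/
def fren (τ : ℕ → ℕ) : Fml → Fml
  | .mem i j => .mem (τ i) (τ j)
  | .eq i j => .eq (τ i) (τ j)
  | .neg a => .neg (fren τ a)
  | .and a b => .and (fren τ a) (fren τ b)
  | .all i a => .all (τ i) (fren τ a)

theorem satW_ren (W : Set Z) {τ : ℕ → ℕ} (hτ : Function.Injective τ) (φ : Fml) :
    ∀ v : ℕ → Z, SatW W (fren τ φ) v ↔ SatW W φ (fun i => v (τ i)) := by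
  induction φ with
  | mem i j => intro v; rfl
  | eq i j => intro v; rfl
  | neg a h => intro v; simp only [fren, SatW, h]
  | and a b h1 h2 => intro v; simp only [fren, SatW, h1, h2]
  | all i a h =>
    intro v
    simp only [fren, SatW, h]
    refine forall_congr' fun x => forall_congr' fun _ => ?_
    have : (fun j => Function.update v (τ i) x (τ j)) =
        Function.update (fun j => v (τ j)) i x := by
      funext j
      by_cases hj : j = i
      · subst hj; simp
      · simp [hj, hτ.ne hj]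
    rw [this]

/-- A bound for the variables. -/
def fbd : Fml → ℕ
  | .mem i j => max i j + 1
  | .eq i j => max i j + 1
  | .neg a => fbd a
  | .and a b => max (fbd a) (fbd b)
  | .all i a => max (i + 1) (fbd a)

theorem satW_agree (W : Set Z) (φ : Fml) : ∀ v v' : ℕ → Z, (∀ i < fbd φ, v i = v' i) →
    (SatW W φ v ↔ SatW W φ v') := by
  induction φ with
  | mem i j =>
    intro v v' h
    simp only [SatW, h i (by simp only [fbd]; omega), h j (by simp only [fbd]; omega)]
  | eq i j =>
    intro v v' h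
    simp only [SatW, h i (by simp only [fbd]; omega), h j (by simp only [fbd]; omega)]
  | neg a ih => intro v v' h; simp only [SatW, ih v v' h]
  | and a b h1 h2 =>
    intro v v' h
    simp only [SatW, h1 v v' (fun i hi => h i (lt_of_lt_of_le hi (le_max_left _ _))),
      h2 v v' (fun i hi => h i (lt_of_lt_of_le hi (le_max_right _ _)))]
  | all i a ih =>
    intro v v' h
    simp only [SatW]
    refine forall_congr' fun x => forall_congr' fun _ => ih _ _ fun j hj => ?_
    by_cases hji : j = i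
    · subst hji; simp
    · simp [hji, h j (lt_of_lt_of_le hj (le_max_right _ _))]

/-- Existential quantifier. -/
def fex (i : ℕ) (a : Fml) : Fml := .neg (.all i (.neg a))

theorem satW_fex (W : Set Z) (i : ℕ) (a : Fml) (v : ℕ → Z) :
    SatW W (fex i a) v ↔ ∃ x ∈ W, SatW W a (Function.update v i x) := by
  simp only [fex, SatW]
  push Not
  rfl

/-- Bind the variables `m, ..., m + k - 1` to the values of the variables `ρ 0, ..., ρ (k - 1)`. -/
def fbind (m : ℕ) (ρ : ℕ → ℕ) : ℕ → Fml → Fml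
  | 0, ψ => ψ
  | k + 1, ψ => fbind m ρ k (fex (m + k) (.and (.eq (m + k) (ρ k)) ψ))

theorem satW_fbind (W : Set Z) (m : ℕ) (ρ : ℕ → ℕ) : ∀ (k : ℕ) (ψ : Fml) (v : ℕ → Z),
    (∀ i < k, ρ i < m) → (∀ i, v i ∈ W) →
    (SatW W (fbind m ρ k ψ) v ↔
      SatW W ψ (fun j => if m ≤ j ∧ j < m + k then v (ρ (j - m)) else v j)) := by
  intro k
  induction k with
  | zero =>
    intro ψ v _ _
    have : (fun j => if m ≤ j ∧ j < m + 0 then v (ρ (j - m)) else v j) = v := by
      funext j
      rw [if_neg (by omega)]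
    rw [this]
    rfl
  | succ k ih =>
    intro ψ v h hv
    rw [fbind, ih _ v (fun i hi => h i (by omega)) hv, satW_fex]
    have h1 : ρ k < m := h k (by omega)
    have key : ∀ x, (fun j => if m ≤ j ∧ j < m + (k + 1) then v (ρ (j - m)) else v j) =
        Function.update (fun j => if m ≤ j ∧ j < m + k then v (ρ (j - m)) else v j) (m + k) x ↔
        x = v (ρ k) := by
      intro x
      constructor
      · intro hx
        have := congrFun hx (m + k)
        simp only [Function.update_self] at this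
        rw [← this, if_pos (by omega)]
        congr 1
        congr 1
        omega
      · rintro rfl
        funext j
        by_cases hj : j = m + k
        · subst hj
          simp only [Function.update_self]
          rw [if_pos (by omega)]
          congr 1
          congr 1
          omega
        · rw [Function.update_of_ne hj]
          by_cases hj2 : m ≤ j ∧ j < m + k
          · rw [if_pos (by omega), if_pos hj2]
          · rw [if_neg (by omega), if_neg hj2]
    constructor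
    · rintro ⟨x, _, hx1, hx2⟩
      have e1 : x = v (ρ k) := by
        have := hx1
        simp only [SatW] at this
        rw [Function.update_self, Function.update_of_ne (by omega), if_neg (by omega)] at this
        exact this
      rw [← (key x).2 e1] at hx2
      exact hx2
    · intro hx
      refine ⟨v (ρ k), hv _, ?_, ?_⟩
      · simp only [SatW]
        rw [Function.update_self, Function.update_of_ne (by omega), if_neg (by omega)]
      · rw [← (key _).2 rfl]
        exact hx

/-- Substitution of variables. -/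
def fsub (φ : Fml) (ρ : ℕ → ℕ) : Fml :=
  fbind ((Finset.range (fbd φ)).sup (fun i => ρ i + 1)) ρ (fbd φ)
    (fren (fun i => (Finset.range (fbd φ)).sup (fun i => ρ i + 1) + i) φ)

theorem satW_fsub (W : Set Z) (φ : Fml) (ρ : ℕ → ℕ) (v : ℕ → Z) (hv : ∀ i, v i ∈ W) :
    SatW W (fsub φ ρ) v ↔ SatW W φ (fun i => v (ρ i)) := by
  unfold fsub
  set m := (Finset.range (fbd φ)).sup (fun i => ρ i + 1) with hm
  have h1 : ∀ i < fbd φ, ρ i < m := by
    intro i hi
    have : ρ i + 1 ≤ m := Finset.le_sup (f := fun i => ρ i + 1) (Finset.mem_range.2 hi)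
    omega
  rw [satW_fbind W m ρ _ _ v h1 hv, satW_ren W (fun a b h => by simpa using h)]
  apply satW_agree
  intro i hi
  have h2 : m ≤ m + i ∧ m + i < m + fbd φ := by omega
  have h3 : m + i - m = i := by omega
  simp only [h2, h3]
  simp

/-! ### Definable predicates -/

/-- Push. -/
def zcons (x : Z) (v : ℕ → Z) : ℕ → Z
  | 0 => x
  | n + 1 => v n

/-- Interleave. -/
def zmix (v p : ℕ → Z) (n : ℕ) : Z := if n % 2 = 0 then v (n / 2) else p (n / 2)

theorem zmix_even (v p : ℕ → Z) (n : ℕ) : zmix v p (2 * n) = v n := by simp [zmix]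
theorem zmix_odd (v p : ℕ → Z) (n : ℕ) : zmix v p (2 * n + 1) = p n := by
  have h1 : (2 * n + 1) % 2 = 1 := by omega
  have h2 : (2 * n + 1) / 2 = n := by omega
  simp [zmix, h1, h2]

theorem zmix_forall {v p : ℕ → Z} {A : Set Z} (h1 : ∀ i, v i ∈ A) (h2 : ∀ i, p i ∈ A) :
    ∀ i, zmix v p i ∈ A := by
  intro i
  unfold zmix
  split_ifs
  · exact h1 _
  · exact h2 _

/-- `P v` is definable over `W` with parameters in `Q` (`Q ⊆ W` nonempty in all uses). -/
def DP (W Q : Set Z) (P : (ℕ → Z) → Prop) : Prop :=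
  ∃ (φ : Fml) (p : ℕ → Z), (∀ i, p i ∈ Q) ∧ ∀ v : ℕ → Z, (∀ i, v i ∈ W) →
    (SatW W φ (zmix v p) ↔ P v)

/-- `f` is a definable function with values in `W`. -/
def DT (W Q : Set Z) (f : (ℕ → Z) → Z) : Prop :=
  (∀ v : ℕ → Z, (∀ i, v i ∈ W) → f v ∈ W) ∧ DP W Q (fun v => v 0 = f (fun i => v (i + 1)))

/-- Parameter sets. -/
class PS (W Q : Set Z) : Prop where
  ne : Q.Nonempty
  sub : Q ⊆ W

variable {W Q : Set Z}

theorem DP.congr {P P' : (ℕ → Z) → Prop} (hP : DP W Q P)
    (h : ∀ v : ℕ → Z, (∀ i, v i ∈ W) → (P v ↔ P' v)) : DP W Q P' := by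
  obtain ⟨φ, p, h1, h2⟩ := hP
  exact ⟨φ, p, h1, fun v hv => (h2 v hv).trans (h v hv)⟩

theorem zmix_rh1 (v p p' : ℕ → Z) : (fun i => zmix v (zmix p p') (rh1 i)) = zmix v p := by
  funext n
  rcases Nat.even_or_odd' n with ⟨m, rfl | rfl⟩
  · have : rh1 (2 * m) = 2 * m := by simp [rh1]
    rw [this, zmix_even, zmix_even]
  · have : rh1 (2 * m + 1) = 2 * (2 * m) + 1 := by
      have h1 : (2 * m + 1) % 2 = 1 := by omega
      have h2 : (2 * m + 1) / 2 = m := by omega
      simp [rh1, h1, h2]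
    rw [this, zmix_odd, zmix_odd, zmix_even]

theorem zmix_rh2 (v p p' : ℕ → Z) : (fun i => zmix v (zmix p p') (rh2 i)) = zmix v p' := by
  funext n
  rcases Nat.even_or_odd' n with ⟨m, rfl | rfl⟩
  · have : rh2 (2 * m) = 2 * m := by simp [rh2]
    rw [this, zmix_even, zmix_even]
  · have : rh2 (2 * m + 1) = 2 * (2 * m + 1) + 1 := by
      have h1 : (2 * m + 1) % 2 = 1 := by omega
      have h2 : (2 * m + 1) / 2 = m := by omega
      simp [rh2, h1, h2]
    rw [this, zmix_odd, zmix_odd, zmix_odd]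

/-- Common parameters. -/
theorem DP.comb [h : PS W Q] {P R : (ℕ → Z) → Prop} (hP : DP W Q P) (hR : DP W Q R) :
    ∃ (φ ψ : Fml) (p : ℕ → Z), (∀ i, p i ∈ Q) ∧
    (∀ v : ℕ → Z, (∀ i, v i ∈ W) → (SatW W φ (zmix v p) ↔ P v)) ∧
    ∀ v : ℕ → Z, (∀ i, v i ∈ W) → (SatW W ψ (zmix v p) ↔ R v) := by
  obtain ⟨φ, p, h1, h2⟩ := hP
  obtain ⟨ψ, p', g1, g2⟩ := hR
  have hq := zmix_forall h1 g1
  refine ⟨fsub φ rh1, fsub ψ rh2, zmix p p', hq, fun v hv => ?_, fun v hv => ?_⟩
  · rw [satW_fsub W _ _ _ (zmix_forall hv (fun i => h.sub (hq i))), zmix_rh1]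
    exact h2 v hv
  · rw [satW_fsub W _ _ _ (zmix_forall hv (fun i => h.sub (hq i))), zmix_rh2]
    exact g2 v hv

theorem DP.not {P : (ℕ → Z) → Prop} (hP : DP W Q P) : DP W Q (fun v => ¬ P v) := by
  obtain ⟨φ, p, h1, h2⟩ := hP
  exact ⟨.neg φ, p, h1, fun v hv => by simp only [SatW, h2 v hv]⟩

theorem DP.and [h : PS W Q] {P R : (ℕ → Z) → Prop} (hP : DP W Q P) (hR : DP W Q R) :
    DP W Q (fun v => P v ∧ R v) := by
  obtain ⟨φ, ψ, p, h1, h2, h3⟩ := hP.comb hR
  exact ⟨.and φ ψ, p, h1, fun v hv => by simp only [SatW, h2 v hv, h3 v hv]⟩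

theorem DP.or [h : PS W Q] {P R : (ℕ → Z) → Prop} (hP : DP W Q P) (hR : DP W Q R) :
    DP W Q (fun v => P v ∨ R v) :=
  (hP.not.and hR.not).not.congr fun _ _ => by tauto

theorem DP.imp [h : PS W Q] {P R : (ℕ → Z) → Prop} (hP : DP W Q P) (hR : DP W Q R) :
    DP W Q (fun v => P v → R v) :=
  (hP.and hR.not).not.congr fun _ _ => by tauto

theorem DP.iff [h : PS W Q] {P R : (ℕ → Z) → Prop} (hP : DP W Q P) (hR : DP W Q R) :
    DP W Q (fun v => (P v ↔ R v)) :=
  ((hP.imp hR).and (hR.imp hP)).congr fun _ _ => by tauto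

/-- Substitution for the variables: variables go to variables. -/
theorem DP.ren [h : PS W Q] {P : (ℕ → Z) → Prop} (ρ : ℕ → ℕ) (hP : DP W Q P) :
    DP W Q (fun v => P (fun i => v (ρ i))) := by
  obtain ⟨φ, p, h1, h2⟩ := hP
  let ρ' : ℕ → ℕ := fun n => if n % 2 = 0 then 2 * ρ (n / 2) else n
  refine ⟨fsub φ ρ', p, h1, fun v hv => ?_⟩
  rw [satW_fsub W _ _ _ (zmix_forall hv (fun i => h.sub (h1 i)))]
  have : (fun i => zmix v p (ρ' i)) = zmix (fun i => v (ρ i)) p := by
    funext n
    rcases Nat.even_or_odd' n with ⟨m, rfl | rfl⟩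
    · have : ρ' (2 * m) = 2 * ρ m := by simp [ρ']
      rw [this, zmix_even, zmix_even]
    · have : ρ' (2 * m + 1) = 2 * m + 1 := by
        have h1 : (2 * m + 1) % 2 = 1 := by omega
        simp [ρ', h1]
      rw [this, zmix_odd, zmix_odd]
  rw [this]
  exact h2 _ (fun i => hv _)

/-- Quantifier. -/
theorem DP.ex [h : PS W Q] {P : Z → (ℕ → Z) → Prop}
    (hP : DP W Q (fun v => P (v 0) (fun i => v (i + 1)))) :
    DP W Q (fun v => ∃ x ∈ W, P x v) := by
  obtain ⟨φ, p, h1, h2⟩ := hP
  -- `φ` at `zmix (zcons x v) p`; `rh3` reads this from `zcons x (zmix v p)`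
  let φ' := fsub φ rh3
  have hφ' : ∀ v : ℕ → Z, (∀ i, v i ∈ W) → ∀ x ∈ W,
      (SatW W φ' (zcons x (zmix v p)) ↔ P x v) := by
    intro v hv x hx
    have hm := zmix_forall hv (fun i => h.sub (h1 i))
    rw [satW_fsub W _ _ _ (fun i => by cases i; exacts [hx, hm _])]
    have : (fun i => zcons x (zmix v p) (rh3 i)) = zmix (zcons x v) p := by
      funext n
      rcases Nat.even_or_odd' n with ⟨m, rfl | rfl⟩
      · rcases m with _ | m
        · rfl
        · have : rh3 (2 * (m + 1)) = 2 * m + 1 := by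
            have h1 : 2 * (m + 1) ≠ 0 := by omega
            have h2 : (2 * (m + 1)) % 2 = 0 := by omega
            simp only [rh3, h1, h2, if_true, if_false]
            omega
          rw [this, zmix_even]
          change zmix v p (2 * m) = v m
          exact zmix_even _ _ _
      · have : rh3 (2 * m + 1) = (2 * m + 1) + 1 := by
          have h2 : (2 * m + 1) % 2 = 1 := by omega
          simp [rh3, h2]
        rw [this, zmix_odd]
        change zmix v p (2 * m + 1) = p m
        exact zmix_odd _ _ _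
    rw [this]
    exact h2 (zcons x v) (fun i => by cases i; exacts [hx, hv _])
  let N := fbd φ' + 1
  let ρ : ℕ → ℕ := fun n => if n = 0 then N else n - 1
  refine ⟨fex N (fsub φ' ρ), p, h1, fun v hv => ?_⟩
  rw [satW_fex]
  refine exists_congr fun x => and_congr_right fun hx => ?_
  have hm := zmix_forall hv (fun i => h.sub (h1 i))
  rw [satW_fsub W _ _ _ (fun i => by
    by_cases hi : i = N
    · subst hi; simp [hx]
    · simp [hi, hm])]
  rw [← hφ' v hv x hx]
  apply satW_agree
  intro i hi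
  rcases i with _ | i
  · simp [ρ, zcons]
  · have : i ≠ N := by simp only [N]; omega
    simp [ρ, zcons, this]

theorem DP.all [h : PS W Q] {P : Z → (ℕ → Z) → Prop}
    (hP : DP W Q (fun v => P (v 0) (fun i => v (i + 1)))) :
    DP W Q (fun v => ∀ x ∈ W, P x v) := by
  have h1 : DP W Q (fun v => ∃ x ∈ W, ¬ P x v) := DP.ex (P := fun x v => ¬ P x v) hP.not
  exact h1.not.congr fun _ _ => by push Not; rfl

theorem DP.vmem [h : PS W Q] (i j : ℕ) : DP W Q (fun v => v i ∈ v j) := by
  obtain ⟨a, ha⟩ := h.ne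
  exact ⟨.mem (2 * i) (2 * j), fun _ => a, fun _ => ha, fun v _ => by
    simp only [SatW, zmix_even]⟩

theorem DP.veq [h : PS W Q] (i j : ℕ) : DP W Q (fun v => v i = v j) := by
  obtain ⟨a, ha⟩ := h.ne
  exact ⟨.eq (2 * i) (2 * j), fun _ => a, fun _ => ha, fun v _ => by
    simp only [SatW, zmix_even]⟩

theorem DT.var [h : PS W Q] (i : ℕ) : DT W Q (fun v => v i) :=
  ⟨fun _ hv => hv i, DP.veq 0 (i + 1)⟩

theorem DT.par [h : PS W Q] {a : Z} (ha : a ∈ Q) : DT W Q (fun _ => a) :=
  ⟨fun _ _ => h.sub ha, ⟨.eq 0 1, fun _ => a, fun _ => ha, fun v _ => by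
    have h1 : zmix v (fun _ => a) 0 = v 0 := zmix_even v _ 0
    have h2 : zmix v (fun _ => a) 1 = a := zmix_odd v _ 0
    simp only [SatW, h1, h2]⟩⟩

/-- Substitution of one definable function in the first variable. -/
theorem DP.sub1 [h : PS W Q] {P : Z → (ℕ → Z) → Prop} {f : (ℕ → Z) → Z}
    (hP : DP W Q (fun v => P (v 0) (fun i => v (i + 1)))) (hf : DT W Q f) :
    DP W Q (fun v => P (f v) v) := by
  have h1 : DP W Q (fun v => ∃ y ∈ W, y = f v ∧ P y v) :=
    DP.ex (P := fun y v => y = f v ∧ P y v) (hf.2.and hP)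
  refine h1.congr fun v hv => ⟨?_, fun h => ⟨f v, hf.1 v hv, rfl, h⟩⟩
  rintro ⟨y, _, rfl, h⟩
  exact h

/-- Shift of a definable function. -/
theorem DT.shift [h : PS W Q] {f : (ℕ → Z) → Z} (hf : DT W Q f) :
    DT W Q (fun v => f (fun i => v (i + 1))) :=
  ⟨fun v hv => hf.1 _ (fun i => hv _),
    DP.ren (P := fun v => v 0 = f (fun i => v (i + 1))) (fun n => if n = 0 then 0 else n + 1) hf.2⟩

theorem DP.app1 [h : PS W Q] {R : Z → Prop} {f : (ℕ → Z) → Z} (hR : DP W Q (fun v => R (v 0)))
    (hf : DT W Q f) : DP W Q (fun v => R (f v)) := DP.sub1 (P := fun x _ => R x) hR hf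

theorem DP.app2 [h : PS W Q] {R : Z → Z → Prop} {f g : (ℕ → Z) → Z}
    (hR : DP W Q (fun v => R (v 0) (v 1))) (hf : DT W Q f) (hg : DT W Q g) :
    DP W Q (fun v => R (f v) (g v)) := by
  have h1 : DP W Q (fun v => R (v 0) (g (fun i => v (i + 1)))) := by
    have h2 : DP W Q (fun v => R (v 1) (v 0)) :=
      DP.ren (P := fun v => R (v 0) (v 1)) (fun n => if n = 0 then 1 else 0) hR
    exact DP.sub1 (P := fun x v => R (v 0) x) h2 hg.shift
  exact DP.sub1 (P := fun x v => R x (g v)) h1 hf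

theorem DP.app3 [h : PS W Q] {R : Z → Z → Z → Prop} {f g k : (ℕ → Z) → Z}
    (hR : DP W Q (fun v => R (v 0) (v 1) (v 2))) (hf : DT W Q f) (hg : DT W Q g)
    (hk : DT W Q k) : DP W Q (fun v => R (f v) (g v) (k v)) := by
  have h1 : DP W Q (fun v => R (v 0) (v 1) (k (fun i => v (i + 2)))) := by
    have h2 : DP W Q (fun v => R (v 1) (v 2) (v 0)) :=
      DP.ren (P := fun v => R (v 0) (v 1) (v 2)) (fun n => if n = 0 then 1 else if n = 1 then 2
        else 0) hR
    exact DP.sub1 (P := fun x v => R (v 0) (v 1) x) h2 hk.shift.shift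
  have h3 : DP W Q (fun v => R (v 0) (g (fun i => v (i + 1))) (k (fun i => v (i + 1)))) := by
    have h4 : DP W Q (fun v => R (v 1) (v 0) (k (fun i => v (i + 2)))) :=
      DP.ren (P := fun v => R (v 0) (v 1) (k (fun i => v (i + 2))))
        (fun n => if n = 0 then 1 else if n = 1 then 0 else n) h1
    exact DP.sub1 (P := fun x v => R (v 0) x (k (fun i => v (i + 1)))) h4 hg.shift
  exact DP.sub1 (P := fun x v => R x (g v) (k v)) h3 hf

theorem DP.mem [h : PS W Q] {f g : (ℕ → Z) → Z} (hf : DT W Q f) (hg : DT W Q g) :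
    DP W Q (fun v => f v ∈ g v) := DP.app2 (R := fun x y => x ∈ y) (DP.vmem 0 1) hf hg

theorem DP.eq [h : PS W Q] {f g : (ℕ → Z) → Z} (hf : DT W Q f) (hg : DT W Q g) :
    DP W Q (fun v => f v = g v) := DP.app2 (R := fun x y => x = y) (DP.veq 0 1) hf hg

theorem DP.const [h : PS W Q] {p : Prop} : DP W Q (fun _ => p) := by
  by_cases hp : p
  · exact (DP.veq 0 0).congr fun _ _ => by simp [hp]
  · exact (DP.veq 0 0).not.congr fun _ _ => by simp [hp]

/-- Functions given by a definable graph: unary. -/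
theorem DT.app1 [h : PS W Q] {g : Z → Z} {f : (ℕ → Z) → Z} (hg : ∀ x ∈ W, g x ∈ W)
    (hG : DP W Q (fun v => v 0 = g (v 1))) (hf : DT W Q f) : DT W Q (fun v => g (f v)) :=
  ⟨fun v hv => hg _ (hf.1 v hv), DP.app2 (R := fun y x => y = g x) hG (DT.var 0) hf.shift⟩

/-- Functions given by a definable graph: binary. -/
theorem DT.app2 [h : PS W Q] {g : Z → Z → Z} {f f' : (ℕ → Z) → Z}
    (hg : ∀ x ∈ W, ∀ y ∈ W, g x y ∈ W) (hG : DP W Q (fun v => v 0 = g (v 1) (v 2)))
    (hf : DT W Q f) (hf' : DT W Q f') : DT W Q (fun v => g (f v) (f' v)) :=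
  ⟨fun v hv => hg _ (hf.1 v hv) _ (hf'.1 v hv),
    DP.app3 (R := fun y x x' => y = g x x') hG (DT.var 0) hf.shift hf'.shift⟩

/-! ### Tests -/

example [PS W Q] (A : Z) (hA : A ∈ Q) (R : Z → Z → Prop)
    (hR : DP W Q (fun v => R (v 0) (v 1))) :
    DP W Q (fun v => ∃ x ∈ W, x ∈ A ∧ ∀ y ∈ W, (y ∈ x → R y (v 3) ∨ y = v 0)) := by
  apply_rules (maxDepth := 500) [DP.ex, DP.all, DP.and, DP.or, DP.imp, DP.iff, DP.not,
    DP.mem, DP.eq, DP.app2, DT.var, DT.par]

end Pool.Agent.Helper17.OD
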