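import Pool.Agent.Helper17.OD.ZF

/-!
# Transitive models of ZF: basic toolkit

`ZM W`: the axioms of ZF for the transitive class `W`, in terms of definable predicates (`DP`). Rules for
`apply_rules`: `DP.bex`, `DP.ball`, `DP.sub`, `DP.isord`, `DT.pair`, `DT.sU`, `DT.ins`, `DT.nat`, `DT.emp`, `DT.om`.
-/

namespace Pool.Agent.Helper17.OD

open Set
open Pool.Agent.Helper97.Ku (Fml IsZFC)

/-- The axioms of ZF for the transitive class `W`. -/
class ZM (W : Set Z) : Prop where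
  trans : ∀ x ∈ W, ∀ y ∈ x, y ∈ W
  emp : ∅ ∈ W
  dbl : ∀ x ∈ W, ∀ y ∈ W, ({x, y} : Z) ∈ W
  union : ∀ x ∈ W, ZFSet.sUnion x ∈ W
  power : ∀ x ∈ W, ∃ y ∈ W, ∀ z, z ∈ y ↔ z ∈ W ∧ z ⊆ x
  inf : ∃ c ∈ W, ∅ ∈ c ∧ ∀ x ∈ c, insert x x ∈ c
  sep : ∀ P : Z → Prop, DP W W (fun v => P (v 0)) → ∀ a ∈ W, ∃ b ∈ W, ∀ x, x ∈ b ↔ x ∈ a ∧ P x
  repl : ∀ R : Z → Z → Prop, DP W W (fun v => R (v 0) (v 1)) → ∀ a ∈ W,
    (∀ x ∈ a, ∃ y ∈ W, R x y ∧ ∀ y' ∈ W, R x y' → y' = y) →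
    ∃ b ∈ W, ∀ y, y ∈ b ↔ y ∈ W ∧ ∃ x ∈ a, R x y

variable {W Q : Set Z}

instance ZM.psW [h : ZM W] : PS W W := ⟨⟨_, h.emp⟩, subset_rfl⟩

/-! ### From `TMF` -/

theorem TMF.zm (h : TMF W) : ZM W := by
  obtain ⟨htr, hz⟩ := h
  have hemp : ∅ ∈ W := by
    obtain ⟨c, ⟨o, -, ho⟩, -⟩ := hz.infinity
    have : (o : Z) = ∅ := by
      rw [ZFSet.eq_empty]
      intro y hy
      exact ho ⟨y, htr _ o.2 y hy⟩ hy
    rw [← this]
    exact o.2
  refine ⟨htr, hemp, ?_, ?_, ?_, ?_, ?_, ?_⟩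
  · intro x hx y hy
    obtain ⟨c, hc⟩ := hz.pair ⟨x, hx⟩ ⟨y, hy⟩
    have : ({x, y} : Z) = c := by
      ext z
      rw [ZFSet.mem_pair]
      constructor
      · rintro (rfl | rfl)
        · exact (hc ⟨z, hx⟩).2 (Or.inl rfl)
        · exact (hc ⟨z, hy⟩).2 (Or.inr rfl)
      · intro hzc
        have := (hc ⟨z, htr _ c.2 z hzc⟩).1 hzc
        rcases this with h | h
        · exact Or.inl (congrArg Subtype.val h)
        · exact Or.inr (congrArg Subtype.val h)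
    rw [this]
    exact c.2
  · intro x hx
    obtain ⟨c, hc⟩ := hz.union ⟨x, hx⟩
    have : ZFSet.sUnion x = c := by
      ext z
      rw [ZFSet.mem_sUnion]
      constructor
      · rintro ⟨y, hy, hzy⟩
        have hyW := htr _ hx y hy
        exact (hc ⟨z, htr _ hyW z hzy⟩).2 ⟨⟨y, hyW⟩, hy, hzy⟩
      · intro hzc
        obtain ⟨y, hy, hzy⟩ := (hc ⟨z, htr _ c.2 z hzc⟩).1 hzc
        exact ⟨y, hy, hzy⟩
    rw [this]
    exact c.2
  · intro x hx
    obtain ⟨c, hc⟩ := hz.power ⟨x, hx⟩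
    refine ⟨c, c.2, fun z => ⟨fun hzc => ?_, fun hzc => ?_⟩⟩
    · have hzW := htr _ c.2 z hzc
      refine ⟨hzW, fun y hy => ?_⟩
      exact (hc ⟨z, hzW⟩).1 hzc ⟨y, htr _ hzW y hy⟩ hy
    · exact (hc ⟨z, hzc.1⟩).2 (fun y hy => hzc.2 hy)
  · obtain ⟨c, ⟨o, hoc, ho⟩, hc⟩ := hz.infinity
    have h0 : (o : Z) = ∅ := by
      rw [ZFSet.eq_empty]
      intro y hy
      exact ho ⟨y, htr _ o.2 y hy⟩ hy
    refine ⟨c, c.2, h0 ▸ hoc, fun x hx => ?_⟩
    obtain ⟨y, hyc, hy⟩ := hc ⟨x, htr _ c.2 x hx⟩ hx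
    have : (insert x x : Z) = y := by
      ext z
      rw [ZFSet.mem_insert_iff]
      constructor
      · rintro (rfl | h)
        · exact (hy ⟨z, htr _ c.2 z hx⟩).2 (Or.inr rfl)
        · exact (hy ⟨z, htr _ (htr _ c.2 x hx) z h⟩).2 (Or.inl h)
      · intro hzy
        rcases (hy ⟨z, htr _ y.2 z hzy⟩).1 hzy with h | h
        · exact Or.inr h
        · exact Or.inl (congrArg Subtype.val h)
    rw [this]
    exact hyc
  · rintro P ⟨φ, p, hp, hφ⟩ a ha
    obtain ⟨b, hb⟩ := hz.sep φ (fun i => ⟨zmix (fun _ => ∅) p i, zmix_forall (fun _ => hemp) hp i⟩)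
      ⟨a, ha⟩
    refine ⟨b, b.2, fun x => ?_⟩
    have key : ∀ hx : x ∈ W, (φ.sat (El W) (Function.update
        (fun i => (⟨zmix (fun _ => ∅) p i, zmix_forall (fun _ => hemp) hp i⟩ : W)) 0 ⟨x, hx⟩) ↔
        P x) := by
      intro hx
      rw [sat_El]
      refine Iff.trans (iff_of_eq (congrArg _ ?_)) (hφ (zcons x (fun _ => ∅))
        (fun i => by cases i; exacts [hx, hemp]))
      funext i
      rcases i with _ | i
      · simp [zmix, zcons]
      · rw [Function.update_of_ne (by simp)]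
        simp only [zmix]
        split_ifs with h
        · have : (i + 1) / 2 = (i + 1) / 2 - 1 + 1 := by omega
          rw [this]; rfl
        · rfl
    constructor
    · intro hx
      have hxW := htr _ b.2 x hx
      obtain ⟨h1, h2⟩ := (hb ⟨x, hxW⟩).1 hx
      exact ⟨h1, (key hxW).1 h2⟩
    · rintro ⟨hxa, hPx⟩
      have hxW := htr _ ha x hxa
      exact (hb ⟨x, hxW⟩).2 ⟨hxa, (key hxW).2 hPx⟩
  · rintro R ⟨φ, p, hp, hφ⟩ a ha hfun
    let ρ : ℕ → ℕ := fun n => if n = 0 then 0 else if n = 2 then 1 else n + 2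
    let w : ℕ → W := fun i => ⟨zmix (fun _ => ∅) p (i - 2), zmix_forall (fun _ => hemp) hp _⟩
    have key : ∀ x y (hx : x ∈ W) (hy : y ∈ W), ((fsub φ ρ).sat (El W) (Function.update
        (Function.update w 0 ⟨x, hx⟩) 1 ⟨y, hy⟩) ↔ R x y) := by
      intro x y hx hy
      rw [sat_El, satW_fsub W _ _ _ (fun i => Subtype.coe_prop _)]
      refine Iff.trans (iff_of_eq (congrArg _ ?_)) (hφ (zcons x (zcons y (fun _ => ∅)))
        (fun i => by
          rcases i with _ | _ | i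
          exacts [hx, hy, hemp]))
      funext i
      rcases i with _ | _ | _ | i
      · simp [ρ, zmix, zcons]
      · simp [ρ, zmix, w]
      · simp [ρ, zmix, zcons]
      · have h1 : ρ (i + 3) = i + 5 := by simp [ρ]
        change ((Function.update (Function.update w 0 ⟨x, hx⟩) 1 ⟨y, hy⟩ (ρ (i + 3)) : W) : Z) = _
        rw [h1, Function.update_of_ne (by omega), Function.update_of_ne (by omega)]
        change zmix (fun _ => ∅) p (i + 3) = _
        simp only [zmix]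
        split_ifs with h
        · have : (i + 3) / 2 = (i + 3) / 2 - 2 + 2 := by omega
          rw [this]; rfl
        · rfl
    obtain ⟨b, hb⟩ := hz.repl (fsub φ ρ) w ⟨a, ha⟩ (by
      rintro ⟨x, hxW⟩ hx
      obtain ⟨y, hyW, hR, huniq⟩ := hfun x hx
      refine ⟨⟨y, hyW⟩, (key x y hxW hyW).2 hR, ?_⟩
      rintro ⟨y', hy'W⟩ hy'
      exact Subtype.ext (huniq y' hy'W ((key x y' hxW hy'W).1 hy')))
    refine ⟨b, b.2, fun y => ?_⟩
    constructor
    · intro hy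
      have hyW := htr _ b.2 y hy
      obtain ⟨⟨x, hxW⟩, hxa, h2⟩ := (hb ⟨y, hyW⟩).1 hy
      exact ⟨hyW, x, hxa, (key x y hxW hyW).1 h2⟩
    · rintro ⟨hyW, x, hxa, hR⟩
      have hxW := htr _ ha x hxa
      exact (hb ⟨y, hyW⟩).2 ⟨⟨x, hxW⟩, hxa, (key x y hxW hyW).2 hR⟩

/-! ### Rules -/

theorem DP.bex [h : PS W Q] [hz : ZM W] {P : Z → (ℕ → Z) → Prop} {f : (ℕ → Z) → Z}
    (hf : DT W Q f) (hP : DP W Q (fun v => P (v 0) (fun i => v (i + 1)))) :
    DP W Q (fun v => ∃ x ∈ f v, P x v) := by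
  have h1 : DP W Q (fun v => v 0 ∈ f (fun i => v (i + 1))) :=
    DP.app2 (R := fun x y => x ∈ y) (DP.vmem 0 1) (DT.var 0) hf.shift
  have h2 : DP W Q (fun v => ∃ x ∈ W, x ∈ f v ∧ P x v) :=
    DP.ex (P := fun x v => x ∈ f v ∧ P x v) (h1.and hP)
  exact h2.congr fun v hv => ⟨fun ⟨x, _, h3, h4⟩ => ⟨x, h3, h4⟩,
    fun ⟨x, h3, h4⟩ => ⟨x, hz.trans _ (hf.1 v hv) x h3, h3, h4⟩⟩

theorem DP.ball [h : PS W Q] [hz : ZM W] {P : Z → (ℕ → Z) → Prop} {f : (ℕ → Z) → Z}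
    (hf : DT W Q f) (hP : DP W Q (fun v => P (v 0) (fun i => v (i + 1)))) :
    DP W Q (fun v => ∀ x ∈ f v, P x v) := by
  have h1 : DP W Q (fun v => ∃ x ∈ f v, ¬ P x v) := DP.bex (P := fun x v => ¬ P x v) hf hP.not
  exact h1.not.congr fun _ _ => by push Not; rfl

theorem DP.sub [h : PS W Q] [hz : ZM W] {f g : (ℕ → Z) → Z} (hf : DT W Q f) (hg : DT W Q g) :
    DP W Q (fun v => f v ⊆ g v) := by
  have h1 : DP W Q (fun v => ∀ x ∈ f v, x ∈ g v) :=
    DP.ball (P := fun x v => x ∈ g v) hf (DP.mem (DT.var 0) hg.shift)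
  exact h1

theorem DP.istr [h : PS W Q] [hz : ZM W] {f : (ℕ → Z) → Z} (hf : DT W Q f) :
    DP W Q (fun v => (f v).IsTransitive) := by
  have h1 : DP W Q (fun v => ∀ x ∈ v 0, x ⊆ v 0) := by
    apply_rules (maxDepth := 500) [DP.sub, DP.ball, DT.var]
  exact DP.app1 (R := fun x => ∀ y ∈ x, y ⊆ x) h1 hf

theorem DP.isord [h : PS W Q] [hz : ZM W] {f : (ℕ → Z) → Z} (hf : DT W Q f) :
    DP W Q (fun v => (f v).IsOrdinal) := by
  have h1 : DP W Q (fun v => (v 0).IsTransitive ∧ ∀ x ∈ v 0, x.IsTransitive) := by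
    apply_rules (maxDepth := 500) [DP.and, DP.istr, DP.ball, DT.var]
  refine DP.app1 (R := fun x => x.IsOrdinal) (h1.congr fun v _ => ?_) hf
  exact ZFSet.isOrdinal_iff_forall_mem_isTransitive.symm

/-- Functions with a definable graph, without variables. -/
theorem DT.mk0 {a : Z} (ha : a ∈ W) (h : DP W Q (fun v => v 0 = a)) :
    DT W Q (fun _ => a) := ⟨fun _ _ => ha, h⟩

theorem ext_tr [hz : ZM W] {x y : Z} (hx : x ∈ W) (hy : y ∈ W) :
    x = y ↔ ∀ z ∈ W, z ∈ x ↔ z ∈ y := by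
  constructor
  · rintro rfl _ _; rfl
  · intro h
    ext z
    exact ⟨fun hzx => (h z (hz.trans x hx z hzx)).1 hzx,
      fun hzy => (h z (hz.trans y hy z hzy)).2 hzy⟩

theorem DT.emp [h : PS W Q] [hz : ZM W] : DT W Q (fun _ => ∅) := by
  refine DT.mk0 hz.emp ?_
  have h1 : DP W Q (fun v => ∀ x ∈ v 0, ¬ (x = x)) := by
    apply_rules (maxDepth := 500) [DP.ball, DP.not, DP.eq, DT.var]
  refine h1.congr fun v _ => ?_
  rw [ZFSet.eq_empty]
  simp

theorem DT.dbl [h : PS W Q] [hz : ZM W] {f g : (ℕ → Z) → Z} (hf : DT W Q f) (hg : DT W Q g) :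
    DT W Q (fun v => ({f v, g v} : Z)) := by
  refine DT.app2 (g := fun x y => ({x, y} : Z)) hz.dbl ?_ hf hg
  have h1 : DP W Q (fun v => ∀ z ∈ W, z ∈ v 0 ↔ (z = v 1 ∨ z = v 2)) := by
    apply_rules (maxDepth := 500) [DP.all, DP.iff, DP.or, DP.eq, DP.mem, DT.var]
  refine h1.congr fun v hv => ?_
  rw [ext_tr (hv 0) (hz.dbl _ (hv 1) _ (hv 2))]
  simp only [ZFSet.mem_pair]

theorem DT.sgl [h : PS W Q] [hz : ZM W] {f : (ℕ → Z) → Z} (hf : DT W Q f) :
    DT W Q (fun v => ({f v} : Z)) := by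
  have h1 := DT.dbl (hf := hf) (hg := hf)
  have h2 : (fun v => ({f v} : Z)) = fun v => ({f v, f v} : Z) := by
    funext v
    ext z
    simp
  rw [h2]
  exact h1

theorem DT.pair [h : PS W Q] [hz : ZM W] {f g : (ℕ → Z) → Z} (hf : DT W Q f) (hg : DT W Q g) :
    DT W Q (fun v => ZFSet.pair (f v) (g v)) := by
  have h1 : DT W Q (fun v => ({{f v}, {f v, g v}} : Z)) := by
    apply_rules (maxDepth := 500) [DT.dbl, DT.sgl]
  exact h1

theorem DT.sU [h : PS W Q] [hz : ZM W] {f : (ℕ → Z) → Z} (hf : DT W Q f) :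
    DT W Q (fun v => ZFSet.sUnion (f v)) := by
  refine DT.app1 (g := fun x => ZFSet.sUnion x) hz.union ?_ hf
  have h1 : DP W Q (fun v => ∀ z ∈ W, z ∈ v 0 ↔ ∃ y ∈ v 1, z ∈ y) := by
    apply_rules (maxDepth := 500) [DP.all, DP.iff, DP.bex, DP.mem, DT.var]
  refine h1.congr fun v hv => ?_
  rw [ext_tr (hv 0) (hz.union _ (hv 1))]
  simp only [ZFSet.mem_sUnion]

theorem DT.un [h : PS W Q] [hz : ZM W] {f g : (ℕ → Z) → Z} (hf : DT W Q f) (hg : DT W Q g) :
    DT W Q (fun v => f v ∪ g v) := by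
  have h1 : DT W Q (fun v => ZFSet.sUnion ({f v, g v} : Z)) := DT.sU (DT.dbl hf hg)
  have h2 : (fun v => f v ∪ g v) = fun v => ZFSet.sUnion ({f v, g v} : Z) := by
    funext v
    ext z
    simp
  rw [h2]
  exact h1

theorem DT.ins [h : PS W Q] [hz : ZM W] {f g : (ℕ → Z) → Z} (hf : DT W Q f) (hg : DT W Q g) :
    DT W Q (fun v => (insert (f v) (g v) : Z)) := by
  have h1 : DT W Q (fun v => ({f v} : Z) ∪ g v) := DT.un (DT.sgl hf) hg
  have h2 : (fun v => (insert (f v) (g v) : Z)) = fun v => ({f v} : Z) ∪ g v := by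
    funext v
    ext z
    simp
  rw [h2]
  exact h1

/-- The ordinal of a natural number, as a set. -/
noncomputable def zn (n : ℕ) : Z := ((n : O)).toZFSet

theorem zn_zero : zn 0 = ∅ := by simp [zn]
theorem zn_succ (n : ℕ) : zn (n + 1) = insert (zn n) (zn n) := by simp [zn]
theorem zn_inj {m n : ℕ} : zn m = zn n ↔ m = n := by
  simp [zn, Ordinal.toZFSet_injective.eq_iff]

theorem DT.nat [h : PS W Q] [hz : ZM W] (n : ℕ) : DT W Q (fun _ => zn n) := by
  induction n with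
  | zero => rw [zn_zero]; exact DT.emp
  | succ n ih => simp only [zn_succ]; exact DT.ins ih ih

/-- Being a natural number. -/
def IsNatZ (x : Z) : Prop := ∃ n : ℕ, x = zn n

theorem isNatZ_iff (x : Z) : IsNatZ x ↔ x.IsOrdinal ∧
    ∀ y ∈ (insert x x : Z), y = ∅ ∨ ∃ z ∈ y, y = insert z z := by
  constructor
  · rintro ⟨n, rfl⟩
    refine ⟨ZFSet.isOrdinal_toZFSet _, fun y hy => ?_⟩
    rw [← zn_succ, zn, Ordinal.mem_toZFSet_iff] at hy
    obtain ⟨a, ha, rfl⟩ := hy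
    obtain ⟨m, rfl⟩ := Ordinal.lt_omega0.1 (ha.trans (Ordinal.natCast_lt_omega0 _))
    rcases m with _ | m
    · left; simp
    · right
      refine ⟨zn m, ?_, ?_⟩
      · simp only [zn, Ordinal.toZFSet_mem_toZFSet_iff]
        exact_mod_cast Nat.lt_succ_self m
      · exact zn_succ m
  · rintro ⟨hx, hy⟩
    have hx' := hx.toZFSet_rank_eq
    by_cases hω : x.rank < Ordinal.omega0
    · obtain ⟨n, hn⟩ := Ordinal.lt_omega0.1 hω
      exact ⟨n, by rw [zn, ← hn, hx']⟩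
    · exfalso
      have hω' : (Ordinal.omega0 : O).toZFSet ∈ (insert x x : Z) := by
        rw [ZFSet.mem_insert_iff]
        rcases eq_or_lt_of_le (not_lt.1 hω) with h | h
        · left; rw [h, hx']
        · right; rw [← hx', Ordinal.toZFSet_mem_toZFSet_iff]; exact h
      rcases hy _ hω' with h | ⟨z, hz, h⟩
      · have : (Ordinal.omega0 : O).toZFSet = (0 : O).toZFSet := by rw [h]; simp
        have := Ordinal.toZFSet_injective this
        exact absurd this Ordinal.omega0_ne_zero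
      · rw [Ordinal.mem_toZFSet_iff] at hz
        obtain ⟨a, ha, rfl⟩ := hz
        rw [← Ordinal.toZFSet_add_one, ← Order.succ_eq_add_one] at h
        have := Ordinal.toZFSet_injective h
        exact absurd this (ne_of_gt (Ordinal.isSuccLimit_omega0.succ_lt ha))

theorem DP.isNat [h : PS W Q] [hz : ZM W] {f : (ℕ → Z) → Z} (hf : DT W Q f) :
    DP W Q (fun v => IsNatZ (f v)) := by
  have h1 : DP W Q (fun v => (f v).IsOrdinal ∧
    ∀ y ∈ (insert (f v) (f v) : Z), y = ∅ ∨ ∃ z ∈ y, y = insert z z) := by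
    apply_rules (maxDepth := 500) [DP.and, DP.or, DP.ball, DP.bex, DP.isord, DP.eq, DT.ins, DT.var,
      DT.emp]
  exact h1.congr fun v _ => (isNatZ_iff _).symm

/-- `ω` as a set. -/
noncomputable def zω : Z := (Ordinal.omega0 : O).toZFSet

theorem mem_zω (x : Z) : x ∈ zω ↔ IsNatZ x := by
  rw [zω, Ordinal.mem_toZFSet_iff]
  constructor
  · rintro ⟨a, ha, rfl⟩
    obtain ⟨n, rfl⟩ := Ordinal.lt_omega0.1 ha
    exact ⟨n, rfl⟩
  · rintro ⟨n, rfl⟩
    exact ⟨n, Ordinal.natCast_lt_omega0 n, rfl⟩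

theorem ZM.om [hz : ZM W] : zω ∈ W := by
  obtain ⟨c, hc, h0, hs⟩ := hz.inf
  obtain ⟨b, hb, hb'⟩ := hz.sep (fun x => IsNatZ x) (DP.isNat (DT.var 0)) c hc
  have : zω = b := by
    ext x
    rw [mem_zω, hb']
    refine ⟨fun h => ⟨?_, h⟩, fun h => h.2⟩
    obtain ⟨n, rfl⟩ := h
    induction n with
    | zero => rw [zn_zero]; exact h0
    | succ n ih => rw [zn_succ]; exact hs _ ih
  rw [this]
  exact hb

theorem DT.om [h : PS W Q] [hz : ZM W] : DT W Q (fun _ => zω) := by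
  refine DT.mk0 hz.om ?_
  have h1 : DP W Q (fun v => ∀ z ∈ W, z ∈ v 0 ↔ IsNatZ z) := by
    apply_rules (maxDepth := 500) [DP.all, DP.iff, DP.isNat, DP.mem, DT.var]
  refine h1.congr fun v hv => ?_
  rw [ext_tr (hv 0) hz.om]
  simp only [mem_zω]

theorem ZM.pair [hz : ZM W] {x y : Z} (hx : x ∈ W) (hy : y ∈ W) : ZFSet.pair x y ∈ W :=
  (DT.pair (W := W) (Q := W) (DT.par hx) (DT.par hy)).1 (fun _ => ∅) (fun _ => hz.emp)

theorem pair_rank (x y : Z) : (ZFSet.pair x y).rank = max x.rank y.rank + 2 := by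
  simp only [ZFSet.pair, ZFSet.rank_pair, ZFSet.rank_singleton]
  rcases le_total x.rank y.rank with h | h
  · rw [max_eq_right h]
    have h1 : Order.succ x.rank ≤ Order.succ y.rank := Order.succ_le_succ h
    rw [max_eq_right h1, max_eq_right (Order.succ_le_succ h1)]
    simp only [Order.succ_eq_add_one, add_assoc]
    norm_num
  · rw [max_eq_left h]
    have h1 : Order.succ y.rank ≤ Order.succ x.rank := Order.succ_le_succ h
    rw [max_eq_left h1, max_self]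
    simp only [Order.succ_eq_add_one, add_assoc]
    norm_num

theorem mem_of_pair [hz : ZM W] {x y : Z} (h : ZFSet.pair x y ∈ W) : x ∈ W ∧ y ∈ W := by
  have h1 : ({x, y} : Z) ∈ W := hz.trans _ h _ (by simp [ZFSet.pair])
  exact ⟨hz.trans _ h1 _ (by simp), hz.trans _ h1 _ (by simp)⟩

theorem ZM.ord_le [hz : ZM W] {a b : O} (h : a.toZFSet ∈ W) (hb : b ≤ a) : b.toZFSet ∈ W := by
  rcases eq_or_lt_of_le hb with rfl | hlt
  · exact h
  · exact hz.trans _ h _ (Ordinal.toZFSet_mem_toZFSet_iff.2 hlt)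

/-! ### More rules -/

theorem DP.mono {Q' : Set Z} (h : Q ⊆ Q') {P : (ℕ → Z) → Prop} (hP : DP W Q P) : DP W Q' P := by
  obtain ⟨φ, p, h1, h2⟩ := hP
  exact ⟨φ, p, fun i => h (h1 i), h2⟩

/-- Simultaneous substitution of variables or parameters for all variables. -/
theorem DP.subS [h : PS W Q] {P : (ℕ → Z) → Prop} {θ : ℕ → (ℕ → Z) → Z} (hP : DP W Q P)
    (hθ : ∀ i, (∃ j, ∀ v, θ i v = v j) ∨ ∃ a ∈ Q, ∀ v, θ i v = a) :
    DP W Q (fun v => P (fun i => θ i v)) := by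
  classical
  obtain ⟨φ, p, h1, h2⟩ := hP
  obtain ⟨a₀, ha₀⟩ := h.ne
  have hdat : ∀ i, ∃ (b : Bool) (j : ℕ) (a : Z), a ∈ Q ∧
      (b = true → ∀ v, θ i v = v j) ∧ (b = false → ∀ v, θ i v = a) := by
    intro i
    rcases hθ i with ⟨j, hj⟩ | ⟨a, ha, hh⟩
    · exact ⟨true, j, a₀, ha₀, fun _ => hj, fun h => by simp at h⟩
    · exact ⟨false, 0, a, ha, fun h => by simp at h, fun _ => hh⟩
  choose b j a ha hv hc using hdat
  let ρ : ℕ → ℕ := fun n => if n % 2 = 0 then (if b (n / 2) then 2 * j (n / 2)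
    else 2 * (2 * (n / 2) + 1) + 1) else 2 * (2 * (n / 2)) + 1
  have hq : ∀ i, zmix p a i ∈ Q := zmix_forall h1 ha
  refine ⟨fsub φ ρ, zmix p a, hq, fun v hvW => ?_⟩
  rw [satW_fsub W _ _ _ (zmix_forall hvW (fun i => h.sub (hq i)))]
  have hmix : (fun i => zmix v (zmix p a) (ρ i)) = zmix (fun i => θ i v) p := by
    funext n
    rcases Nat.even_or_odd' n with ⟨m, rfl | rfl⟩
    · have e1 : (2 * m) % 2 = 0 := by omega
      have e2 : (2 * m) / 2 = m := by omega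
      rw [zmix_even]
      simp only [ρ, e1, e2, if_true]
      by_cases hb : b m = true
      · simp only [hb, if_true]
        rw [zmix_even, hv m hb]
      · have hb' : b m = false := by simpa using hb
        simp only [hb', Bool.false_eq_true, if_false]
        rw [zmix_odd, zmix_odd, hc m hb']
    · have e1 : (2 * m + 1) % 2 = 1 := by omega
      have e2 : (2 * m + 1) / 2 = m := by omega
      rw [zmix_odd]
      simp only [ρ, e1, e2]
      rw [if_neg (by omega), zmix_odd, zmix_even]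
  rw [hmix]
  refine h2 _ (fun i => ?_)
  rcases hθ i with ⟨j, hj⟩ | ⟨a, ha, hh⟩
  · rw [hj]; exact hvW j
  · rw [hh]; exact h.sub ha

/-- All variables but the first one are replaced by parameters. -/
theorem DP.fixPar [h : PS W Q] {P : (ℕ → Z) → Prop} {A : ℕ → Z} (hP : DP W Q P)
    (hA : ∀ i, A i ∈ Q) : DP W Q (fun v => P (zcons (v 0) A)) := by
  have h1 := DP.subS (θ := fun i v => zcons (v 0) A i) hP (fun i => by
    rcases i with _ | i
    · exact Or.inl ⟨0, fun _ => rfl⟩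
    · exact Or.inr ⟨A i, hA i, fun _ => rfl⟩)
  exact h1

/-- A function is definable if membership in its value is. -/
theorem DT.of_mem [h : PS W Q] [hz : ZM W] {f : (ℕ → Z) → Z}
    (hf : ∀ v : ℕ → Z, (∀ i, v i ∈ W) → f v ∈ W)
    (hm : DP W Q (fun v => v 0 ∈ f (fun i => v (i + 1)))) : DT W Q f := by
  refine ⟨hf, ?_⟩
  have h1 : DP W Q (fun v => ∀ z ∈ W, (z ∈ v 0 ↔ z ∈ f (fun i => v (i + 1)))) := by
    refine DP.all (P := fun z v => (z ∈ v 0 ↔ z ∈ f (fun i => v (i + 1)))) ?_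
    refine DP.iff (DP.vmem 0 1) ?_
    exact DP.ren (P := fun v => v 0 ∈ f (fun i => v (i + 1)))
      (fun n => if n = 0 then 0 else n + 1) hm
  exact h1.congr fun v hv => (ext_tr (hv 0) (hf _ (fun i => hv _))).symm

/-- Separation, with parameters given by an environment. -/
theorem ZM.sepv [hz : ZM W] {P : Z → (ℕ → Z) → Prop}
    (hP : DP W W (fun v => P (v 0) (fun i => v (i + 1)))) {v : ℕ → Z} (hv : ∀ i, v i ∈ W) {a : Z}
    (ha : a ∈ W) : ∃ b ∈ W, ∀ x, x ∈ b ↔ x ∈ a ∧ P x v :=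
  hz.sep (fun x => P x v) (DP.fixPar (P := fun v => P (v 0) (fun i => v (i + 1))) hP hv) a ha

/-! ### Tests -/

example [PS W Q] [ZM W] (A : Z) (hA : A ∈ Q) (R : Z → Z → Prop)
    (hR : DP W Q (fun v => R (v 0) (v 1))) :
    DP W Q (fun v => ∃ x ∈ A, ∀ y ∈ W, (ZFSet.pair (zn 2) y ∈ x → R y (v 3) ∨ ∃ z ∈ v 0, z ⊆ y ∧
      zω ∈ z)) := by
  apply_rules (maxDepth := 500) [DP.ex, DP.all, DP.bex, DP.ball, DP.and, DP.or, DP.imp, DP.iff, DP.not,
    DP.mem, DP.eq, DP.sub, DP.isord, DP.isNat, DT.pair, DT.sU, DT.ins, DT.dbl, DT.nat, DT.emp, DT.om,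
    DP.app2, DT.var, DT.par]

end Pool.Agent.Helper17.OD
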